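import Pool.Agent.Lib.MP_745d3a_ag.BS.Defs

/-!
Reflexive modules, change of coordinates.
-/

set_option autoImplicit false

open MvPolynomial

namespace Pool.Agent.Lib.MP_745d3a_ag.PF

open Pool.Agent.Lib.MP_745d3a_ag (torsionfree_of_reflexive hartogs exists_LB)

/-- Adapt `bun_of_reflexive` (PFFin.lean lines 276-327): the same proof with
the coordinates `X` instead of linear forms. -/
lemma bun_X {σ K M : Type*} [Fintype σ] [DecidableEq σ] [Field K] [AddCommGroup M]
    [Module (MvPolynomial σ K) M] [Module.Finite (MvPolynomial σ K) M]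
    [Module.IsReflexive (MvPolynomial σ K) M]
    (hrank : Module.finrank (MvPolynomial σ K) M = 2)
    (hfree : ∀ (p : Ideal (MvPolynomial σ K)) [p.IsPrime],
      (∃ i, (X i : MvPolynomial σ K) ∉ p) →
        Module.Free (Localization.AtPrime p) (LocalizedModule p.primeCompl M)) :
    Bun (X : σ → MvPolynomial σ K) M where
  fin := inferInstance
  tf := torsionfree_of_reflexive
  ht := by
    intro a b hab m n h
    by_cases hb : b = 0
    · subst hb
      rw [isRelPrime_zero_right] at hab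
      rw [zero_smul] at h
      refine ⟨0, ?_⟩
      rw [smul_zero]
      exact (torsionfree_of_reflexive _ _ h).resolve_left hab.ne_zero
    · obtain ⟨k, hk, _⟩ := hartogs (M := M) hb (fun h h' => hab.symm.dvd_of_dvd_mul_left h') h
      exact ⟨k, hk⟩
  lf := by
    classical
    intro p hp hi
    obtain ⟨m₁, m₂, H⟩ := exists_LB (M := M) p (hfree p hi) hrank
    obtain ⟨G, hG⟩ := Module.Finite.fg_top (R := MvPolynomial σ K) (M := M)
    choose d a c hd hdm using H.span
    refine ⟨∏ g ∈ G, d g, ?_, m₁, m₂, ?_, H.ind⟩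
    · intro hmem
      obtain ⟨g, _, hg⟩ := (hp.prod_mem_iff (s := G) (x := d)).mp hmem
      exact hd g hg
    · intro m
      have hm : m ∈ Submodule.span (MvPolynomial σ K) (G : Set M) := by rw [hG]; trivial
      have h1 : Submodule.span (MvPolynomial σ K) (G : Set M) ≤
          (Submodule.span (MvPolynomial σ K) {m₁, m₂}).comap
            ((∏ g ∈ G, d g) • (LinearMap.id : M →ₗ[MvPolynomial σ K] M)) := by
        rw [Submodule.span_le]
        intro g hg
        show (∏ g ∈ G, d g) • g ∈ Submodule.span (MvPolynomial σ K) {m₁, m₂}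
        rw [← Finset.prod_erase_mul G d hg, mul_smul, hdm]
        exact Submodule.smul_mem _ _ (Submodule.mem_span_pair.mpr ⟨_, _, rfl⟩)
      obtain ⟨a, c, hac⟩ := Submodule.mem_span_pair.mp (h1 hm)
      exact ⟨a, c, hac.symm⟩

/-- -/
lemma coord_X {σ ι K : Type*} [Field K] (φ : ι ≃ σ) :
    Coord K (fun i => (X (φ i) : MvPolynomial σ K)) := by
  refine ⟨?_⟩
  have h1 : ((aeval (fun i => (X (φ i) : MvPolynomial σ K)) :
      MvPolynomial ι K →ₐ[K] MvPolynomial σ K) : MvPolynomial ι K → MvPolynomial σ K) =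
      (MvPolynomial.renameEquiv K φ) := by
    funext p
    have h2 : (aeval (fun i => (X (φ i) : MvPolynomial σ K)) : MvPolynomial ι K →ₐ[K]
        MvPolynomial σ K) = (rename φ : MvPolynomial ι K →ₐ[K] MvPolynomial σ K) := by
      refine MvPolynomial.algHom_ext (fun i => ?_)
      rw [aeval_X, rename_X]
    show aeval (fun i => (X (φ i) : MvPolynomial σ K)) p = rename φ p
    rw [h2]
  rw [h1]
  exact (MvPolynomial.renameEquiv K φ).bijective

lemma Coord.perm {K S ι ι' : Type*} [Field K] [CommRing S] [Algebra K S] {x : ι → S}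
    (hx : Coord K x) (φ : ι' ≃ ι) : Coord K (fun i => x (φ i)) := by
  refine ⟨?_⟩
  have h1 : ((aeval (fun i => x (φ i)) : MvPolynomial ι' K →ₐ[K] S) : MvPolynomial ι' K → S) =
      (aeval x : MvPolynomial ι K →ₐ[K] S) ∘ (MvPolynomial.renameEquiv K φ) := by
    funext p
    show aeval (fun i => x (φ i)) p = aeval x (rename φ p)
    rw [aeval_rename]
    rfl
  rw [h1]
  exact hx.bij.comp (MvPolynomial.renameEquiv K φ).bijective

lemma Bun.perm {S ι ι' M : Type*} [CommRing S] [AddCommGroup M] [Module S M] {x : ι → S}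
    (hM : Bun x M) (φ : ι' ≃ ι) : Bun (fun i => x (φ i)) M where
  fin := hM.fin
  tf := hM.tf
  ht := hM.ht
  lf := by
    rintro p hp ⟨i, hi⟩
    exact hM.lf p hp ⟨φ i, hi⟩

/-- See the end of `main` in PFFin.lean: `Gen2`, `Bun.gen2_indep` and
`exists_hom_basis` (Geometry.lean), with `δ = AddMonoidHom.fst ℤ ℤ`. -/
lemma hom_basis_of_gen2 {σ K M : Type*} [Fintype σ] [DecidableEq σ] [Nonempty σ] [Field K]
    [AddCommGroup M] [Module (MvPolynomial σ K) M] [Module.Finite (MvPolynomial σ K) M]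
    (hrank : Module.finrank (MvPolynomial σ K) M = 2) (hM : Bun (X : σ → MvPolynomial σ K) M)
    (hgen : Gen2 (MvPolynomial σ K) M) (w : σ → ℤ) (𝓜 : ℤ × ℤ → AddSubgroup M)
    [DirectSum.Decomposition 𝓜]
    [SetLike.GradedSMul (weightedHomogeneousSubmodule K (fun i => ((1 : ℤ), w i))) 𝓜] :
    ∃ (b : Module.Basis (Fin 2) (MvPolynomial σ K) M) (g : Fin 2 → ℤ × ℤ), ∀ i, b i ∈ 𝓜 (g i) := by
  classical
  have hx : Coord K (X : σ → MvPolynomial σ K) :=
    ⟨by rw [MvPolynomial.aeval_X_left]; exact Function.bijective_id⟩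
  refine Pool.Agent.Lib.MP_745d3a_ag.exists_hom_basis (ω := fun i => ((1 : ℤ), w i))
    (δ := AddMonoidHom.fst ℤ ℤ) (fun _ => rfl) ?_ hrank
  obtain ⟨m₁, m₂, hm⟩ := hgen
  have hind := hM.gen2_indep hx m₁ m₂ hm
  have hli : LinearIndependent (MvPolynomial σ K) ![m₁, m₂] := by
    rw [LinearIndependent.pair_iff]
    exact hind
  have hsp : ⊤ ≤ Submodule.span (MvPolynomial σ K) (Set.range ![m₁, m₂]) := by
    intro m _
    rw [Matrix.range_cons, Matrix.range_cons, Matrix.range_empty, Set.union_empty,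
      ← Set.insert_eq]
    obtain ⟨a, e, he⟩ := hm m
    exact Submodule.mem_span_pair.mpr ⟨a, e, he.symm⟩
  exact Module.Free.of_basis (Module.Basis.mk hli hsp)

end Pool.Agent.Lib.MP_745d3a_ag.PF
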