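import Pool.Agent.Lib.MP_745d3a_ag.BS.Rad

/-!
The line case.
`hM : Bun x M` is a reflexive module of rank two, locally free away from the origin.
-/

set_option autoImplicit false

namespace Pool.Agent.Lib.MP_745d3a_ag.PF

variable {K S ι M : Type*} [Field K] [CommRing S] [Algebra K S] {x : ι → S}
  [AddCommGroup M] [Module S M]

/-- `L = {m | ∃ N, x₀ ^ N m ∈ S μ₂}` is a submodule (`x₀ = x i₀` is a
nonzerodivisor on `M`, `hM.tf`). It is saturated: if `a m ∈ L`, `a ≠ 0`, say `x₀ ^ N a m = c μ₂`;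
write `x₀ ^ k m = A μ₁ + B μ₂` (`hF.span`); then `x₀ ^ N a (A μ₁ + B μ₂) = x₀ ^ k c μ₂`, so by
`hF.ind` `x₀ ^ N a A = 0`, `A = 0`, so `x₀ ^ k m = B μ₂`, `m ∈ L`. It has rank one: for
`u, v ∈ L`, `x₀ ^ N u = c μ₂`, `x₀ ^ N' v = c' μ₂`, so `(c' x₀ ^ N) u = (c x₀ ^ N') v` (and if
`c = c' = 0` then `u = v = 0`). By `d2_cyclic` `L = S μ`, and this `μ` has the properties:
`μ ≠ 0` as `μ₂ = b μ` and `μ₂ ≠ 0` (`hF.ind`).
The last property: `L` is stable by `e`: if `x₀ ^ N m = c μ₂` then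
`x₀ ^ N e m = D c μ₂ + c e μ₂ - D (x₀ ^ N) m`; multiply by `x₀ ^ (l + N)`; so `e μ ∈ L = S μ`. -/
lemma line_sat [Module K M] [IsScalarTower K S M] [Finite ι] (hx : Coord K x) (hM : Bun x M)
    {D : Derivation K S S} {e : M →ₗ[K] M} (he : IsConn D e) {i₀ : ι} {k : ℕ} {μ₁ μ₂ : M}
    (hF : Fr (x i₀) k μ₁ μ₂) (l : ℕ) (B : S) (hB : x i₀ ^ l • e μ₂ = B • μ₂) :
    ∃ μ : M, μ ≠ 0 ∧ (∃ b : S, μ₂ = b • μ) ∧
      (∀ (a : S) (m : M), a ≠ 0 → (∃ c : S, a • m = c • μ) → ∃ c : S, m = c • μ) ∧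
      ∃ c : S, e μ = c • μ := by
  have hdom := hx.isDomain
  have hx0 : x i₀ ≠ 0 := (hx.prime_x i₀).ne_zero
  have hxN : ∀ N : ℕ, x i₀ ^ N ≠ 0 := fun N => pow_ne_zero N hx0
  have hμ₂ : μ₂ ≠ 0 := by
    intro h
    have h1 := (hF.ind 0 1 (by rw [h, zero_smul, smul_zero, add_zero])).2
    exact one_ne_zero h1
  set L : Submodule S M :=
    { carrier := {m | ∃ (N : ℕ) (c : S), x i₀ ^ N • m = c • μ₂}
      add_mem' := by
        rintro m m' ⟨N, c, h⟩ ⟨N', c', h'⟩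
        refine ⟨N + N', x i₀ ^ N' * c + x i₀ ^ N * c', ?_⟩
        rw [smul_add, pow_add, add_smul]
        congr 1
        · rw [mul_comm, mul_smul, h, mul_smul]
        · rw [mul_smul, h', mul_smul]
      zero_mem' := ⟨0, 0, by simp⟩
      smul_mem' := by
        rintro a m ⟨N, c, h⟩
        refine ⟨N, a * c, ?_⟩
        rw [smul_comm, h, mul_smul] } with hL
  have hmem : ∀ m, m ∈ L ↔ ∃ (N : ℕ) (c : S), x i₀ ^ N • m = c • μ₂ := fun m => Iff.rfl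
  have hsat : ∀ (a : S) (m : M), a ≠ 0 → a • m ∈ L → m ∈ L := by
    intro a m ha ham
    obtain ⟨N, c, h⟩ := (hmem _).mp ham
    obtain ⟨A, B', hAB⟩ := hF.span m
    have h1 : (x i₀ ^ N * a * A) • μ₁ + (x i₀ ^ N * a * B' - x i₀ ^ k * c) • μ₂ = 0 := by
      have h2 : (x i₀ ^ N * a) • (x i₀ ^ k • m) = x i₀ ^ k • (x i₀ ^ N • (a • m)) := by
        rw [smul_smul, smul_smul, smul_smul]
        congr 1
        ring
      rw [hAB, h] at h2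
      rw [sub_smul, mul_smul _ A, mul_smul _ B', mul_smul (x i₀ ^ k) c, ← h2, smul_add]
      abel
    have h3 := (hF.ind _ _ h1).1
    have hA : A = 0 := (mul_eq_zero.mp h3).resolve_left (mul_ne_zero (hxN N) ha)
    refine (hmem _).mpr ⟨k, B', ?_⟩
    rw [hAB, hA, zero_smul, zero_add]
  have hdep : ∀ u ∈ L, ∀ v ∈ L, ∃ a b : S, (a ≠ 0 ∨ b ≠ 0) ∧ a • u = b • v := by
    intro u hu v hv
    obtain ⟨N, c, h⟩ := (hmem _).mp hu
    obtain ⟨N', c', h'⟩ := (hmem _).mp hv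
    by_cases hc : c = 0
    · refine ⟨1, 0, Or.inl one_ne_zero, ?_⟩
      rw [hc, zero_smul] at h
      have h1 : u = 0 := (hM.tf _ _ h).resolve_left (hxN N)
      rw [h1, smul_zero, zero_smul]
    · refine ⟨c' * x i₀ ^ N, c * x i₀ ^ N', Or.inr (mul_ne_zero hc (hxN N')), ?_⟩
      rw [mul_smul, mul_smul, h, h', smul_smul, smul_smul, mul_comm]
  obtain ⟨μ, hμL, hμ⟩ := d2_cyclic hx hM L hsat hdep
  obtain ⟨b, hb⟩ := hμ μ₂ ((hmem _).mpr ⟨0, 1, by simp⟩)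
  refine ⟨μ, ?_, ⟨b, hb⟩, ?_, ?_⟩
  · intro h
    apply hμ₂
    rw [hb, h, smul_zero]
  · rintro a m ha ⟨c, hc⟩
    apply hμ
    apply hsat a m ha
    rw [hc]
    exact L.smul_mem c hμL
  · apply hμ
    obtain ⟨N, c, h⟩ := (hmem _).mp hμL
    refine (hmem _).mpr ⟨l + N + N, x i₀ ^ (l + N) * D c + c * x i₀ ^ N * B -
      x i₀ ^ l * D (x i₀ ^ N) * c, ?_⟩
    have h1 := congrArg e h
    rw [he, he] at h1
    have h2 : x i₀ ^ N • e μ = D c • μ₂ + c • e μ₂ - D (x i₀ ^ N) • μ := by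
      rw [← h1]
      abel
    have h3 : x i₀ ^ (l + N + N) • e μ = x i₀ ^ (l + N) • (x i₀ ^ N • e μ) := by
      rw [smul_smul, ← pow_add]
    have h4 : x i₀ ^ (l + N) • (c • e μ₂) = (c * x i₀ ^ N * B) • μ₂ := by
      rw [smul_smul, show x i₀ ^ (l + N) * c = (c * x i₀ ^ N) * x i₀ ^ l by ring, mul_smul, hB,
        ← mul_smul]
    have h5 : x i₀ ^ (l + N) • (D (x i₀ ^ N) • μ) = (x i₀ ^ l * D (x i₀ ^ N) * c) • μ₂ := by
      rw [smul_smul, show x i₀ ^ (l + N) * D (x i₀ ^ N) =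
        (x i₀ ^ l * D (x i₀ ^ N)) * x i₀ ^ N by ring, mul_smul, h, ← mul_smul]
    rw [h3, h2, smul_sub, smul_add, h4, h5, sub_smul, add_smul, ← mul_smul]

/-- Let `κ = {θ : M →ₗ[S] S | θ μ = 0}`. `M →ₗ[S] S` is again `Bun`
(`hM.dual' hx`), `κ` is a saturated submodule of rank one of it, so by `d2_cyclic` (applied to
`M →ₗ[S] S`) `κ = S θ₀`. Rank one: for `θ, θ' ∈ κ`: take any `m` with `μ, m` independent
(`hM.dep3` and existence of a local basis; or argue: if `θ, θ'` are not proportional then with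
`hM.dep3`/`d2_dep` ... ). A convenient proof: if `θ = 0` or `θ' = 0` trivial. Otherwise choose `m`
with `θ m ≠ 0`; then `μ, m` are independent (`a μ + b m = 0` gives `b θ m = 0`, `b = 0`, then
`a μ = 0`, `a = 0`), and for all `v`: `c v = a μ + b m` with `c ≠ 0` (`hM.dep3 hx μ m v`), so
`c θ v = b θ m`, `c θ' v = b θ' m` and `θ' m • θ = θ m • θ'` as functions, with `θ m ≠ 0`.
For the last property (`i` with `x i ∈ rad {θ μ}`): `hspan i : ∃ N, ∃ θ, θ μ = x i ^ N`. By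
`pow_mem_of_prime` applied to the ideal `J = LinearMap.range θ₀` we have to show: for a prime
`p` with `x i ∉ p` not `J ≤ p`. Take `θ` with `θ μ = x i ^ N ∉ p`. By `hM.local hx p` there are
`s ∉ p`, `m₁, m₂`, `θ₁, θ₂` with `s v = θ₁ v m₁ + θ₂ v m₂`, `θ₁ m₁ = s = θ₂ m₂`,
`θ₁ m₂ = θ₂ m₁ = 0`. Put `ψ = θ₁ μ • θ₂ - θ₂ μ • θ₁`; `ψ μ = 0`, so `ψ = c θ₀`, so
`ψ m₂ = s θ₁ μ` and `ψ m₁ = - s θ₂ μ` are in `J`. But `s θ μ = θ₁ μ θ m₁ + θ₂ μ θ m₂ ∉ p`, so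
`θ₁ μ ∉ p` or `θ₂ μ ∉ p`. (`κ ≠ 0`: the same construction at the prime `p = ⊥`: `s μ ≠ 0`, so
`θ₁ μ ≠ 0` or `θ₂ μ ≠ 0`, and `ψ m₂ = s θ₁ μ`, `ψ m₁ = - s θ₂ μ`, so `ψ ≠ 0`, hence `θ₀ ≠ 0`.) -/
lemma line_fun [Finite ι] [Nonempty ι] (hx : Coord K x) (hM : Bun x M) (μ : M) (hμ : μ ≠ 0) :
    ∃ θ₀ : M →ₗ[S] S, θ₀ μ = 0 ∧ θ₀ ≠ 0 ∧
      ∀ i, (∃ (N : ℕ) (θ : M →ₗ[S] S), θ μ = x i ^ N) → ∃ (N : ℕ) (n : M), θ₀ n = x i ^ N := by
  have := hx.isDomain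
  let κ : Submodule S (M →ₗ[S] S) :=
    { carrier := {θ | θ μ = 0}
      zero_mem' := by
        show (0 : M →ₗ[S] S) μ = 0
        rfl
      add_mem' := by
        intro a b ha hb
        show (a + b) μ = 0
        rw [LinearMap.add_apply, show a μ = 0 from ha, show b μ = 0 from hb, add_zero]
      smul_mem' := by
        intro c a ha
        show (c • a) μ = 0
        rw [LinearMap.smul_apply, show a μ = 0 from ha, smul_zero] }
  have hmem : ∀ θ : M →ₗ[S] S, θ ∈ κ ↔ θ μ = 0 := fun θ => Iff.rfl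
  have hsat : ∀ (a : S) (θ : M →ₗ[S] S), a ≠ 0 → a • θ ∈ κ → θ ∈ κ := by
    intro a θ ha h
    rw [hmem, LinearMap.smul_apply, smul_eq_mul] at h
    rw [hmem]
    exact (mul_eq_zero.mp h).resolve_left ha
  have hdep : ∀ θ ∈ κ, ∀ θ' ∈ κ, ∃ a b : S, (a ≠ 0 ∨ b ≠ 0) ∧ a • θ = b • θ' := by
    intro θ hθ θ' hθ'
    rw [hmem] at hθ hθ'
    by_cases h0 : θ = 0
    · exact ⟨1, 0, Or.inl one_ne_zero, by rw [h0, smul_zero, zero_smul]⟩
    · obtain ⟨m, hm⟩ : ∃ m, θ m ≠ 0 := by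
        by_contra h
        push Not at h
        exact h0 (LinearMap.ext h)
      have hind : ∀ a b : S, a • μ + b • m = 0 → a = 0 ∧ b = 0 := by
        intro a b hab
        have h1 := congrArg θ hab
        rw [map_add, map_smul, map_smul, hθ, smul_zero, zero_add, map_zero, smul_eq_mul] at h1
        have hb : b = 0 := (mul_eq_zero.mp h1).resolve_right hm
        rw [hb, zero_smul, add_zero] at hab
        exact ⟨(hM.tf a μ hab).resolve_right hμ, hb⟩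
      refine ⟨θ' m, θ m, Or.inr hm, LinearMap.ext fun v => ?_⟩
      obtain ⟨c, a, b, hc, hcv⟩ := Bun.dep3 hx hM μ m v hind
      have h1 := congrArg θ hcv
      have h2 := congrArg θ' hcv
      rw [map_smul, map_add, map_smul, map_smul, hθ, smul_zero, zero_add, smul_eq_mul,
        smul_eq_mul] at h1
      rw [map_smul, map_add, map_smul, map_smul, hθ', smul_zero, zero_add, smul_eq_mul,
        smul_eq_mul] at h2
      rw [LinearMap.smul_apply, LinearMap.smul_apply, smul_eq_mul, smul_eq_mul]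
      apply mul_left_cancel₀ hc
      linear_combination (θ' m) * h1 - (θ m) * h2
  obtain ⟨θ₀, hθ₀, hgen⟩ := d2_cyclic hx (hM.dual' hx) κ hsat hdep
  rw [hmem] at hθ₀
  -- the functional attached to a local basis
  have hψ : ∀ (θ₁ θ₂ : M →ₗ[S] S), ∃ c : S, θ₁ μ • θ₂ - θ₂ μ • θ₁ = c • θ₀ := by
    intro θ₁ θ₂
    apply hgen
    rw [hmem, LinearMap.sub_apply, LinearMap.smul_apply, LinearMap.smul_apply, smul_eq_mul,
      smul_eq_mul]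
    ring
  have hψ1 : ∀ (θ₁ θ₂ : M →ₗ[S] S) (m₁ m₂ : M) (s : S), θ₁ m₂ = 0 → θ₂ m₂ = s → ∃ c : S,
      s * θ₁ μ = c * θ₀ m₂ := by
    intro θ₁ θ₂ m₁ m₂ s h1 h2
    obtain ⟨c, hc⟩ := hψ θ₁ θ₂
    have h3 := LinearMap.congr_fun hc m₂
    rw [LinearMap.sub_apply, LinearMap.smul_apply, LinearMap.smul_apply, LinearMap.smul_apply, h1, h2,
      smul_zero, sub_zero, smul_eq_mul, smul_eq_mul] at h3
    exact ⟨c, by rw [← h3, mul_comm]⟩
  refine ⟨θ₀, hθ₀, ?_, ?_⟩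
  · intro h0
    obtain ⟨i⟩ := ‹Nonempty ι›
    obtain ⟨s, hs, m₁, m₂, θ₁, θ₂, hθ, h11, h12, h21, h22, -⟩ :=
      Bun.local hx hM (⊥ : Ideal S) Ideal.isPrime_bot
        ⟨i, by rw [Ideal.mem_bot]; exact (hx.prime_x i).ne_zero⟩
    rw [Ideal.mem_bot] at hs
    obtain ⟨c, hc⟩ := hψ1 θ₁ θ₂ m₁ m₂ s h12 h22
    obtain ⟨c', hc'⟩ := hψ1 θ₂ θ₁ m₂ m₁ s h21 h11
    rw [h0, LinearMap.zero_apply, mul_zero] at hc hc'
    have k1 : θ₁ μ = 0 := (mul_eq_zero.mp hc).resolve_left hs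
    have k2 : θ₂ μ = 0 := (mul_eq_zero.mp hc').resolve_left hs
    have k3 := hθ μ
    rw [k1, k2, zero_smul, zero_smul, add_zero] at k3
    exact hμ ((hM.tf s μ k3).resolve_left hs)
  · rintro i ⟨N, θ, hθμ⟩
    obtain ⟨k, hk⟩ := pow_mem_of_prime (LinearMap.range θ₀ : Ideal S) (x i) (by
      intro p hp hi hJ
      obtain ⟨s, hs, m₁, m₂, θ₁, θ₂, hθ, h11, h12, h21, h22, -⟩ := Bun.local hx hM p hp ⟨i, hi⟩
      obtain ⟨c, hc⟩ := hψ1 θ₁ θ₂ m₁ m₂ s h12 h22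
      obtain ⟨c', hc'⟩ := hψ1 θ₂ θ₁ m₂ m₁ s h21 h11
      have k1 : s * θ₁ μ ∈ p := by
        rw [hc]
        exact p.mul_mem_left c (hJ ⟨m₂, rfl⟩)
      have k2 : s * θ₂ μ ∈ p := by
        rw [hc']
        exact p.mul_mem_left c' (hJ ⟨m₁, rfl⟩)
      have k3 : θ₁ μ ∈ p := (hp.mem_or_mem k1).resolve_left hs
      have k4 : θ₂ μ ∈ p := (hp.mem_or_mem k2).resolve_left hs
      have k5 := congrArg θ (hθ μ)
      rw [map_smul, map_add, map_smul, map_smul, hθμ, smul_eq_mul, smul_eq_mul, smul_eq_mul] at k5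
      have k6 : s * x i ^ N ∈ p := by
        rw [k5]
        exact p.add_mem (p.mul_mem_right _ k3) (p.mul_mem_right _ k4)
      rcases hp.mem_or_mem k6 with h | h
      · exact hs h
      · exact hi (hp.mem_of_pow_mem N h))
    obtain ⟨n, hn⟩ := hk
    exact ⟨k, n, hn⟩

/-- Three different coordinates have powers in the image of `θ₀`, and
the kernel of `θ₀` is `S μ`. By taking multiples all three exponents are the same `k` (and
`k ≥ 1` is not needed): `θ₀ n₀ = x₀ ^ k`, `θ₀ n₁ = x₁ ^ k`, `θ₀ n₂ = x₂ ^ k`. Then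
`x₀ ^ k n₁ - x₁ ^ k n₀ ∈ ker θ₀`, so it is `c₀₁ μ`, similarly `x₁ ^ k n₂ - x₂ ^ k n₁ = c₁₂ μ`,
`x₂ ^ k n₀ - x₀ ^ k n₂ = c₂₀ μ`, and `x₂ ^ k c₀₁ + x₀ ^ k c₁₂ + x₁ ^ k c₂₀ = 0` (`μ` is torsion
free, `hM.tf`). By `hx.koszul` `c₀₁ = x₀ ^ k u + x₁ ^ k v`. So
`x₀ ^ k (n₁ - u μ) = x₁ ^ k (n₀ + v μ)`; by `hM.ht` (with `hx.relPrime_pow`)
`n₁ - u μ = x₁ ^ k ν`. Apply `θ₀`: `x₁ ^ k = x₁ ^ k θ₀ ν`, so `θ₀ ν = 1` (`S` is a domain,
`hx.isDomain`, `(hx.prime_x i).ne_zero`). Finally `m - θ₀ m • ν ∈ ker θ₀ = S μ` for all `m`, so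
`M` is generated by `μ, ν`. -/
lemma line_end (hx : Coord K x) (hM : Bun x M) (μ : M) (hμ : μ ≠ 0) (θ₀ : M →ₗ[S] S)
    (hθμ : θ₀ μ = 0) (hker : ∀ m, θ₀ m = 0 → ∃ c : S, m = c • μ) {i₀ i₁ i₂ : ι} (h01 : i₀ ≠ i₁)
    (h02 : i₀ ≠ i₂) (h12 : i₁ ≠ i₂) (hn₀ : ∃ (N : ℕ) (n : M), θ₀ n = x i₀ ^ N)
    (hn₁ : ∃ (N : ℕ) (n : M), θ₀ n = x i₁ ^ N) (hn₂ : ∃ (N : ℕ) (n : M), θ₀ n = x i₂ ^ N) :
    Gen2 S M := by
  have := hx.isDomain
  obtain ⟨a, n₀, hn₀⟩ := hn₀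
  obtain ⟨b, n₁, hn₁⟩ := hn₁
  obtain ⟨c, n₂, hn₂⟩ := hn₂
  obtain ⟨c01, h1⟩ := hker (x i₀ ^ a • n₁ - x i₁ ^ b • n₀) (by
    rw [map_sub, map_smul, map_smul, hn₀, hn₁, smul_eq_mul, smul_eq_mul]; ring)
  obtain ⟨c12, h2⟩ := hker (x i₁ ^ b • n₂ - x i₂ ^ c • n₁) (by
    rw [map_sub, map_smul, map_smul, hn₁, hn₂, smul_eq_mul, smul_eq_mul]; ring)
  obtain ⟨c20, h3⟩ := hker (x i₂ ^ c • n₀ - x i₀ ^ a • n₂) (by
    rw [map_sub, map_smul, map_smul, hn₀, hn₂, smul_eq_mul, smul_eq_mul]; ring)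
  have h4 : (x i₂ ^ c * c01 + x i₀ ^ a * c12 + x i₁ ^ b * c20) • μ = 0 := by
    rw [add_smul, add_smul, mul_smul, mul_smul, mul_smul, ← h1, ← h2, ← h3, smul_sub, smul_sub,
      smul_sub, smul_smul, smul_smul, smul_smul, smul_smul, smul_smul, smul_smul]
    rw [mul_comm (x i₀ ^ a) (x i₂ ^ c), mul_comm (x i₁ ^ b) (x i₂ ^ c),
      mul_comm (x i₁ ^ b) (x i₀ ^ a)]
    abel
  have h5 : x i₂ ^ c * c01 = x i₀ ^ a * (-c12) + x i₁ ^ b * (-c20) := by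
    rcases hM.tf _ _ h4 with h | h
    · linear_combination h
    · exact absurd h hμ
  obtain ⟨u, v, huv⟩ := hx.koszul h01 h02 h12 a b c h5
  have h6 : x i₀ ^ a • (n₁ - u • μ) = x i₁ ^ b • (n₀ + v • μ) := by
    rw [huv, add_smul, mul_smul, mul_smul] at h1
    rw [smul_sub, smul_add, sub_eq_iff_eq_add]
    rw [sub_eq_iff_eq_add] at h1
    rw [h1]
    abel
  obtain ⟨ν, hν⟩ := hM.ht _ _ (hx.relPrime_pow h01 a b) _ _ h6
  have h7 : θ₀ ν = 1 := by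
    have h8 := congrArg θ₀ hν
    rw [map_sub, map_smul, map_smul, hn₁, hθμ, smul_zero, sub_zero, smul_eq_mul] at h8
    have h9 : x i₁ ^ b ≠ 0 := pow_ne_zero _ (hx.prime_x i₁).ne_zero
    have h10 : x i₁ ^ b * (θ₀ ν - 1) = 0 := by linear_combination -h8
    rcases mul_eq_zero.1 h10 with h | h
    · exact absurd h h9
    · exact sub_eq_zero.1 h
  refine ⟨μ, ν, fun m => ?_⟩
  obtain ⟨d, hd⟩ := hker (m - θ₀ m • ν) (by
    rw [map_sub, map_smul, h7, smul_eq_mul, mul_one, sub_self])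
  exact ⟨d, θ₀ m, by rw [← hd, sub_add_cancel]⟩

/-- The ideal `𝔞 = {θ μ | θ}` is stable by `D`:
`D (θ μ) = (dconn θ) μ + θ (e μ)`, `dconn` (PFDefs) with `S' = S`, `D' = D`, and `e μ = c μ`. It
contains a power of `x₀`: the functional `θ₂` (coefficient of `μ₂` in `x₀ ^ k m`, well defined and
linear by `hF.ind`, `hF.span`) has `θ₂ μ₂ = x₀ ^ k` and `μ₂ = b μ`, so `b θ₂ μ = x₀ ^ k`. So
`x₀ ∈ rad 𝔞`, so `D x₀ = c₁ x₁ ∈ rad 𝔞` (`rad_der`), `x₁ ∈ rad 𝔞`, `D x₁ = c₂ x₂`,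
`x₂ ∈ rad 𝔞`. `line_fun` gives `θ₀`. Its kernel is `S μ`: for `θ₀ m = 0`: `μ, m` are dependent
(otherwise by `hM.dep3` every `v` has `c v = a μ + b m`, `c ≠ 0`, and `θ₀ v = 0`, so `θ₀ = 0`):
`a m = b μ` with `a ≠ 0` (if `a = 0` then `b μ = 0`, `b = 0`), and `line_sat` gives `m ∈ S μ`.
Conclude with `line_end`. -/
theorem line [CharZero K] [Module K M] [IsScalarTower K S M] [Finite ι] (hx : Coord K x)
    (hM : Bun x M) {D : Derivation K S S} {e : M →ₗ[K] M} (he : IsConn D e) {i₀ i₁ i₂ : ι}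
    (h01 : i₀ ≠ i₁) (h02 : i₀ ≠ i₂) (h12 : i₁ ≠ i₂) {c₁ c₂ : K} (hc₁ : c₁ ≠ 0) (hc₂ : c₂ ≠ 0)
    (hD0 : D (x i₀) = c₁ • x i₁) (hD1 : D (x i₁) = c₂ • x i₂) {k : ℕ} {μ₁ μ₂ : M}
    (hF : Fr (x i₀) k μ₁ μ₂) (l : ℕ) (B : S) (hB : x i₀ ^ l • e μ₂ = B • μ₂) : Gen2 S M := by
  classical
  have hdom := hx.isDomain
  have : Nonempty ι := ⟨i₀⟩
  obtain ⟨μ, hμ, ⟨b, hb⟩, hsat, c, hc⟩ := line_sat hx hM he hF l B hB
  let 𝔞 : Ideal S := LinearMap.range (LinearMap.applyₗ (R := S) (M := M) (M₂ := S) μ)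
  have hmem : ∀ a : S, a ∈ 𝔞 ↔ ∃ θ : M →ₗ[S] S, θ μ = a := fun a => Iff.rfl
  have hstab : ∀ a ∈ 𝔞, D a ∈ 𝔞 := by
    intro a ha
    rw [hmem] at ha ⊢
    obtain ⟨θ, rfl⟩ := ha
    refine ⟨dconn (S' := S) (D' := D) (fun a => rfl) he θ + c • θ, ?_⟩
    rw [LinearMap.add_apply, dconn_apply, LinearMap.smul_apply, hc, map_smul, sub_add_cancel]
  -- the functional of the second coordinate
  choose A B' hAB using hF.span
  have huniq : ∀ a b a' b' : S, a • μ₁ + b • μ₂ = a' • μ₁ + b' • μ₂ → b = b' := by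
    intro a b a' b' h
    have h1 : (a - a') • μ₁ + (b - b') • μ₂ = 0 := by
      rw [sub_smul, sub_smul]
      have h2 : a • μ₁ - a' • μ₁ + (b • μ₂ - b' • μ₂) =
          (a • μ₁ + b • μ₂) - (a' • μ₁ + b' • μ₂) := by abel
      rw [h2, h, sub_self]
    exact sub_eq_zero.mp (hF.ind _ _ h1).2
  let θ₂ : M →ₗ[S] S :=
    { toFun := B'
      map_add' := fun m n => by
        refine huniq (A (m + n)) _ (A m + A n) _ ?_
        rw [← hAB, smul_add, hAB m, hAB n, add_smul, add_smul]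
        abel
      map_smul' := fun a m => by
        refine huniq (A (a • m)) _ (a * A m) _ ?_
        rw [← hAB, smul_comm, hAB m, smul_add, RingHom.id_apply, smul_eq_mul, mul_smul, mul_smul] }
  have hθ₂ : θ₂ μ₂ = x i₀ ^ k := by
    refine huniq (A μ₂) _ 0 _ ?_
    rw [zero_smul, zero_add]
    exact (hAB μ₂).symm
  have hr0 : x i₀ ∈ 𝔞.radical := by
    refine ⟨k, ?_⟩
    rw [hmem]
    refine ⟨b • θ₂, ?_⟩
    rw [LinearMap.smul_apply, ← map_smul, ← hb, hθ₂]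
  have hsc : ∀ (c' : K) (a : S), c' ≠ 0 → c' • a ∈ 𝔞.radical → a ∈ 𝔞.radical := by
    intro c' a hc' h
    have h1 := 𝔞.radical.mul_mem_left (algebraMap K S c'⁻¹) h
    rwa [← Algebra.smul_def, smul_smul, inv_mul_cancel₀ hc', one_smul] at h1
  have hr1 : x i₁ ∈ 𝔞.radical := by
    apply hsc c₁ _ hc₁
    rw [← hD0]
    exact rad_der 𝔞 hstab _ hr0
  have hr2 : x i₂ ∈ 𝔞.radical := by
    apply hsc c₂ _ hc₂
    rw [← hD1]
    exact rad_der 𝔞 hstab _ hr1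
  obtain ⟨θ₀, hθμ, hθ0, hθp⟩ := line_fun hx hM μ hμ
  have hpow : ∀ i, x i ∈ 𝔞.radical → ∃ (N : ℕ) (n : M), θ₀ n = x i ^ N := by
    rintro i ⟨N, hN⟩
    rw [hmem] at hN
    obtain ⟨θ, hθ⟩ := hN
    exact hθp i ⟨N, θ, hθ⟩
  have hker : ∀ m, θ₀ m = 0 → ∃ c : S, m = c • μ := by
    intro m hm
    by_cases h : ∀ a b : S, a • μ + b • m = 0 → a = 0 ∧ b = 0
    · exfalso
      apply hθ0
      ext v
      obtain ⟨c', a, b', hc', hv⟩ := hM.dep3 hx μ m v h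
      have h1 := congrArg θ₀ hv
      rw [map_smul, map_add, map_smul, map_smul, hθμ, hm, smul_zero, smul_zero, add_zero,
        smul_eq_mul] at h1
      rw [LinearMap.zero_apply]
      exact (mul_eq_zero.mp h1).resolve_left hc'
    · push Not at h
      obtain ⟨a, b', hab, h⟩ := h
      have hb' : b' ≠ 0 := by
        intro hb'
        rw [hb', zero_smul, add_zero] at hab
        exact h ((hM.tf a μ hab).resolve_right hμ) hb'
      apply hsat b' m hb' ⟨-a, ?_⟩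
      rw [neg_smul]
      exact eq_neg_of_add_eq_zero_right hab
  exact line_end hx hM μ hμ θ₀ hθμ hker h01 h02 h12 (hpow _ hr0) (hpow _ hr1) (hpow _ hr2)

end Pool.Agent.Lib.MP_745d3a_ag.PF
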