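import Pool.Agent.Lib.MP_745d3a_ag.BS.Defs

/-!
The plane case: a finite symmetry which fixes a plane pointwise and has two different eigenvalues
on the restricted bundle.
-/

set_option autoImplicit false

namespace Pool.Agent.Lib.MP_745d3a_ag.PF

variable {K S S' ι ι' M : Type*} [Field K] [CommRing S] [Algebra K S] [CommRing S'] [Algebra K S']
  [Algebra S S'] [IsScalarTower K S S'] {x : ι → S} {j : ι} {f : ι' → ι} {x' : ι' → S'}
  [AddCommGroup M] [Module K M] [Module S M] [IsScalarTower K S M] [CharZero K]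

section sums

variable {K V : Type*} [Field K] [AddCommGroup V] [Module K V]

/-- `v` is a sum of eigenvectors with integral eigenvalues. -/
def b3b_P (T : V →ₗ[K] V) (v : V) : Prop :=
  ∃ (s : Finset ℤ) (f : ℤ → V), (∀ d, T (f d) = (d : K) • f d) ∧ v = ∑ d ∈ s, f d

lemma b3b_P_eig {T : V →ₗ[K] V} {v : V} {d : ℤ} (h : T v = (d : K) • v) : b3b_P T v := by
  classical
  refine ⟨{d}, fun e => if e = d then v else 0, ?_, by simp⟩
  intro e
  by_cases he : e = d
  · subst he; simp [h]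
  · simp [he]

lemma b3b_P_zero {T : V →ₗ[K] V} : b3b_P T 0 :=
  ⟨∅, fun _ => 0, by simp, by simp⟩

lemma b3b_P_add {T : V →ₗ[K] V} {v w : V} (hv : b3b_P T v) (hw : b3b_P T w) :
    b3b_P T (v + w) := by
  classical
  obtain ⟨s, f, hf, rfl⟩ := hv
  obtain ⟨t, g, hg, rfl⟩ := hw
  refine ⟨s ∪ t, fun d => (if d ∈ s then f d else 0) + (if d ∈ t then g d else 0), ?_, ?_⟩
  · intro d
    rw [map_add, smul_add]
    congr 1
    · by_cases hd : d ∈ s
      · simp only [hd, if_true]; exact hf d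
      · simp only [hd, if_false, map_zero, smul_zero]
    · by_cases hd : d ∈ t
      · simp only [hd, if_true]; exact hg d
      · simp only [hd, if_false, map_zero, smul_zero]
  · rw [Finset.sum_add_distrib, Finset.sum_ite_mem, Finset.sum_ite_mem,
      Finset.inter_eq_right.mpr Finset.subset_union_left,
      Finset.inter_eq_right.mpr Finset.subset_union_right]

lemma b3b_P_sum {T : V →ₗ[K] V} {α : Type*} (s : Finset α) (f : α → V)
    (h : ∀ a ∈ s, b3b_P T (f a)) : b3b_P T (∑ a ∈ s, f a) :=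
  Finset.sum_induction f (b3b_P T) (fun _ _ => b3b_P_add) b3b_P_zero h

end sums

/-- A derivation which multiplies the coordinates by integers is
diagonalisable (copy `euler_decomp`/`euler_diag` of PFMod.lean: induction `Coord.induction`; the
constants are eigenvectors of eigenvalue `0`, sums of diagonalisable vectors are such, and
multiplication by `x i` shifts the eigenvalue by `w i`). -/
lemma wt_diag (hx : Coord K x) (w : ι → ℤ) {H : Derivation K S S}
    (hH : ∀ i, H (x i) = (w i : K) • x i) : Diag (H : S →ₗ[K] S) := by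
  intro a
  refine hx.induction (P := fun a => b3b_P (H : S →ₗ[K] S) a) ?_ ?_ ?_ a
  · intro c
    refine b3b_P_eig (d := 0) ?_
    show H (algebraMap K S c) = _
    rw [Derivation.map_algebraMap, Int.cast_zero, zero_smul]
  · intro a b ha hb
    exact b3b_P_add ha hb
  · rintro a i ⟨s, f, hf, rfl⟩
    rw [Finset.sum_mul]
    refine b3b_P_sum _ _ fun d _ => ?_
    refine b3b_P_eig (d := d + w i) ?_
    have h1 : H (f d) = (d : K) • f d := hf d
    show H (f d * x i) = _
    rw [Derivation.leibniz, hH i, h1, smul_eq_mul, smul_eq_mul, mul_smul_comm, mul_smul_comm,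
      mul_comm (x i) (f d), ← add_smul, Int.cast_add, add_comm]

/-- The dual connection is diagonalisable: the proof of `dconn_diag` in
PFBun.lean (lines 497-620) word for word, with `Diag (H' : S' →ₗ[K] S')` (hypothesis) in the
place of `euler_diag hx' hE'`. -/
lemma dconn_diag' {H : Derivation K S S} {H' : Derivation K S' S'}
    (hH' : Diag (H' : S' →ₗ[K] S'))
    (hH : ∀ a, H' (algebraMap S S' a) = algebraMap S S' (H a)) {η : M →ₗ[K] M}
    (hη : IsConn H η) (hd : Diag η) [Module.Finite S M] : Diag (dconn hH hη) := by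
  classical
  obtain ⟨G, hG⟩ := Module.Finite.fg_top (R := S) (M := M)
  choose s hs hs' using fun m : M => exists_comp hd m
  let HH : Finset M := G.biUnion (fun m => (s m).image (fun d => comp η d m))
  have hHd : ∀ h : HH, ∃ d : ℤ, η (h : M) = (d : K) • (h : M) := by
    rintro ⟨h, hh⟩
    simp only [HH, Finset.mem_biUnion, Finset.mem_image] at hh
    obtain ⟨m, _, d, _, rfl⟩ := hh
    exact ⟨d, comp_eig hd d m⟩
  choose e he using hHd
  have hspan : Submodule.span S (HH : Set M) = ⊤ := by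
    rw [eq_top_iff, ← hG, Submodule.span_le]
    intro m hm
    rw [hs m]
    refine Submodule.sum_mem _ fun d hdm => Submodule.subset_span ?_
    simp only [HH, Finset.coe_biUnion, Set.mem_iUnion, Finset.mem_coe]
    exact ⟨m, hm, Finset.mem_image.mpr ⟨d, hdm, rfl⟩⟩
  let A : (M →ₗ[S] S') →ₗ[K] (HH → S') :=
    { toFun := fun θ h => θ h
      map_add' := fun _ _ => rfl
      map_smul' := fun _ _ => rfl }
  let T' : (HH → S') →ₗ[K] (HH → S') :=
    { toFun := fun v h => H' (v h) - (e h : K) • v h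
      map_add' := fun v w => by
        funext h
        simp only [Pi.add_apply, map_add, smul_add]
        abel
      map_smul' := fun c v => by
        funext h
        simp only [Pi.smul_apply, Derivation.map_smul, RingHom.id_apply, smul_sub]
        rw [smul_comm c (e h : K) (v h)] }
  refine Diag.of_injective (T' := T') ?_ A ?_ ?_
  · intro v
    have hv : v = ∑ h : HH, Pi.single h (v h) := by
      funext k
      rw [Finset.sum_apply, Finset.sum_pi_single]
      simp
    show b3b_P T' v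
    rw [hv]
    refine b3b_P_sum _ _ fun h _ => ?_
    obtain ⟨t, ht, _⟩ := exists_comp (hH') (v h)
    have h1 : (Pi.single h (v h) : HH → S') =
        ∑ d ∈ t, Pi.single h (comp (H' : S' →ₗ[K] S') d (v h)) := by
      conv_lhs => rw [ht]
      funext k
      rw [Finset.sum_apply]
      by_cases hk : k = h
      · subst hk; simp
      · simp [Pi.single_eq_of_ne hk]
    rw [h1]
    refine b3b_P_sum _ _ fun d _ => ?_
    refine b3b_P_eig (d := d - e h) ?_
    funext k
    show H' ((Pi.single h (comp (H' : S' →ₗ[K] S') d (v h)) : HH → S') k) -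
      (e k : K) • (Pi.single h (comp (H' : S' →ₗ[K] S') d (v h)) : HH → S') k = _
    by_cases hk : k = h
    · subst hk
      rw [Pi.smul_apply, Pi.single_eq_same]
      have h2 := comp_eig (hH') d (v k)
      have h3 : H' (comp (H' : S' →ₗ[K] S') d (v k)) =
          (d : K) • comp (H' : S' →ₗ[K] S') d (v k) := h2
      rw [h3, Int.cast_sub, sub_smul]
    · rw [Pi.smul_apply, Pi.single_eq_of_ne hk]
      simp
  · intro θ θ' h
    refine LinearMap.ext_on hspan ?_
    intro m hm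
    exact congrFun h ⟨m, hm⟩
  · intro θ
    funext h
    show H' (θ h) - (e h : K) • θ h = H' (θ h) - θ (η h)
    rw [he h, ← algebraMap_smul S (e h : K) (h : M), map_smul, algebraMap_smul]

omit [CommRing S] [Algebra K S] [Module S M] [IsScalarTower K S M] in
/-- The operator with prescribed values on the eigenspaces. -/
lemma b3c_op {T : M →ₗ[K] M} (hT : Diag T) (c : ℤ → K) :
    ∃ φ : M →ₗ[K] M, ∀ (u : ℤ) (m : M), T m = (u : K) • m → φ m = c u • m := by
  classical
  choose s hs hs' using fun m : M => exists_comp hT m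
  have hsum : ∀ (m : M) (t : Finset ℤ), (∀ d, d ∉ t → comp T d m = 0) →
      ∑ d ∈ s m, c d • comp T d m = ∑ d ∈ t, c d • comp T d m := by
    intro m t ht
    have h1 : ∑ d ∈ s m, c d • comp T d m = ∑ d ∈ s m ∪ t, c d • comp T d m :=
      Finset.sum_subset Finset.subset_union_left fun d _ hd => by rw [hs' m d hd, smul_zero]
    have h2 : ∑ d ∈ t, c d • comp T d m = ∑ d ∈ s m ∪ t, c d • comp T d m :=
      Finset.sum_subset Finset.subset_union_right fun d _ hd => by rw [ht d hd, smul_zero]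
    rw [h1, h2]
  refine ⟨{ toFun := fun m => ∑ d ∈ s m, c d • comp T d m
            map_add' := ?_
            map_smul' := ?_ }, ?_⟩
  · intro m n
    have hm : ∀ d, d ∉ s m ∪ s n → comp T d m = 0 := fun d hd =>
      hs' m d fun h => hd (Finset.mem_union_left _ h)
    have hn : ∀ d, d ∉ s m ∪ s n → comp T d n = 0 := fun d hd =>
      hs' n d fun h => hd (Finset.mem_union_right _ h)
    rw [hsum (m + n) (s m ∪ s n) fun d hd => by rw [comp_add hT, hm d hd, hn d hd, add_zero],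
      hsum m (s m ∪ s n) hm, hsum n (s m ∪ s n) hn, ← Finset.sum_add_distrib]
    exact Finset.sum_congr rfl fun d _ => by rw [comp_add hT, smul_add]
  · intro k m
    rw [hsum (k • m) (s m) fun d hd => by rw [comp_smulK hT, hs' m d hd, smul_zero],
      RingHom.id_apply, Finset.smul_sum]
    exact Finset.sum_congr rfl fun d _ => by rw [comp_smulK hT, smul_comm]
  · intro u m hm
    show ∑ d ∈ s m, c d • comp T d m = c u • m
    rw [hsum m {u} fun d hd => comp_of_ne hm (by simpa using hd), Finset.sum_singleton,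
      comp_of_eig hm]

/-- The operator which multiplies the eigenspace of `η` of eigenvalue `d`
by `d mod n`. Definition: `φ m = ∑ over the eigenvalues d of ((d % n : ℤ) : K) • comp η d m`, for
instance through `exists_comp` and `compL` (`comp η d` is linear, and only finitely many
components of `m` are nonzero; `DirectSum`-free construction: use
`fun m => ∑ᶠ d, ((d % n : ℤ) : K) • comp η d m` with the finite support from `exists_comp`).
`S`-linearity: for `a = x i` multiplication by `x i` shifts the eigenvalue by `w i`, divisible by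
`n` (`comp_hsmul` of PFMod.lean), so `φ (x i m) = x i φ m`; then `Coord.induction`.
It commutes with every `K`-linear `ε` which commutes with `η` (`comp_shift` with `k = 0`). -/
lemma exists_modOp (hx : Coord K x) (w : ι → ℤ) {H : Derivation K S S}
    (hH : ∀ i, H (x i) = (w i : K) • x i) {η : M →ₗ[K] M} (hη : IsConn H η) (hd : Diag η)
    (n : ℤ) (hn : ∀ i, n ∣ w i) :
    ∃ φ : M →ₗ[K] M, (∀ (a : S) (m : M), φ (a • m) = a • φ m) ∧
      (∀ (u : ℤ) (m : M), η m = (u : K) • m → φ m = ((u % n : ℤ) : K) • m) ∧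
      ∀ ε : M →ₗ[K] M, (∀ m, ε (η m) = η (ε m)) → ∀ m, ε (φ m) = φ (ε m) := by
  obtain ⟨φ, hφ⟩ := b3c_op hd fun d => ((d % n : ℤ) : K)
  refine ⟨φ, ?_, hφ, ?_⟩
  · have hx1 : ∀ (i : _) (m : M), φ (x i • m) = x i • φ m := by
      intro i m
      obtain ⟨s, hs, _⟩ := exists_comp hd m
      rw [hs, Finset.smul_sum, map_sum, map_sum, Finset.smul_sum]
      refine Finset.sum_congr rfl fun d _ => ?_
      have h1 := comp_eig hd d m
      have h2 : η (x i • comp η d m) = ((w i + d : ℤ) : K) • (x i • comp η d m) := by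
        rw [hη, hH, h1, Int.cast_add, add_smul, smul_assoc, smul_comm (x i) (d : K)]
      have h3 : (w i + d) % n = d % n := by
        obtain ⟨k, hk⟩ := hn i
        rw [hk, add_comm, Int.add_mul_emod_self_left]
      rw [hφ _ _ h2, hφ _ _ h1, h3, smul_comm]
    intro a
    refine hx.induction (P := fun a => ∀ m : M, φ (a • m) = a • φ m) ?_ ?_ ?_ a
    · intro c m
      rw [algebraMap_smul, algebraMap_smul, map_smul]
    · intro a b ha hb m
      rw [add_smul, map_add, ha, hb, add_smul]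
    · intro a i ha m
      rw [mul_smul, ha, hx1, mul_smul]
  · intro ε hε m
    obtain ⟨s, hs, _⟩ := exists_comp hd m
    rw [hs, map_sum, map_sum, map_sum, map_sum]
    refine Finset.sum_congr rfl fun d _ => ?_
    have h1 := comp_eig hd d m
    have h2 : η (ε (comp η d m)) = (d : K) • ε (comp η d m) := by
      rw [← hε, h1, map_smul]
    rw [hφ _ _ h1, hφ _ _ h2, map_smul]

/-- On a module over the plane: if all weights `w i` are divisible by `n`
and there are two nonzero eigenvectors of `η` with eigenvalues not congruent mod `n`, then `M` is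
generated by two elements. Proof: `exists_modOp` gives `φ`; `Sys x E 0 ε φ` holds
(`cD`: `IsConn 0 φ` is `S`-linearity). `d2_core`: `Gen2 S M` or `(φ - μ) ^ 2 = 0` for some `μ : K`.
In the second case `φ m₁ = r₁ m₁`, `φ m₂ = r₂ m₂` with `r_i = u_i % n`, so
`(r₁ - μ) ^ 2 m₁ = 0`, `r₁ = μ`, similarly `r₂ = μ`, so `u₁ % n = u₂ % n` (`CharZero`), so
`n ∣ u₁ - u₂`, a contradiction (`Int.emod_emod_of_dvd`, `Int.ModEq`, `Int.emod_emod_eq...`). -/
lemma plane_core [IsAlgClosed K] [Finite ι] [Nonempty ι] (hx : Coord K x) (hM : Bun x M)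
    {E H : Derivation K S S} (hE : IsEuler x E) (w : ι → ℤ)
    (hH : ∀ i, H (x i) = (w i : K) • x i) {ε η : M →ₗ[K] M} (hε : IsConn E ε) (hdε : Diag ε)
    (hη : IsConn H η) (hdη : Diag η) (hcomm : ∀ m, ε (η m) = η (ε m)) (n : ℤ)
    (hn : ∀ i, n ∣ w i) (m₁ m₂ : M) (h₁ : m₁ ≠ 0) (h₂ : m₂ ≠ 0) (u₁ u₂ : ℤ)
    (hu₁ : η m₁ = (u₁ : K) • m₁) (hu₂ : η m₂ = (u₂ : K) • m₂) (hmod : ¬ n ∣ u₁ - u₂) :
    Gen2 S M := by
  obtain ⟨φ, hlin, hφ, hcε⟩ := exists_modOp hx w hH hη hdη n hn
  have hS : Sys x E 0 ε φ :=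
    { cx := hx
      eu := hE
      ED := fun a => by
        rw [Derivation.coe_zero, Pi.zero_apply, Pi.zero_apply, map_zero]
      cE := hε
      dg := hdε
      cD := fun a m => by
        rw [hlin, Derivation.coe_zero, Pi.zero_apply, zero_smul, zero_add]
      comm := hcε ε hcomm
      bun := hM }
  rcases d2_core hS with h | ⟨μ, hμ⟩
  · exact h
  · exfalso
    have key : ∀ (u : ℤ) (m : M), m ≠ 0 → η m = (u : K) • m → ((u % n : ℤ) : K) = μ := by
      intro u m hm hu
      have h1 : sh φ μ m = (((u % n : ℤ) : K) - μ) • m := by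
        rw [sh_apply, hφ u m hu, sub_smul]
      have h2 := hμ m
      rw [h1, map_smul, h1, smul_smul] at h2
      rcases smul_eq_zero.mp h2 with h3 | h3
      · exact sub_eq_zero.mp (mul_self_eq_zero.mp h3)
      · exact absurd h3 hm
    have h3 : u₁ % n = u₂ % n := by
      have := (key u₁ m₁ h₁ hu₁).trans (key u₂ m₂ h₂ hu₂).symm
      exact_mod_cast this
    exact hmod (Int.ModEq.dvd (show u₂ ≡ u₁ [ZMOD n] from h3.symm))

/-- The coordinate functionals of a basis outside `x₀ = 0`. -/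
lemma b3e_coef {S M : Type*} [CommRing S] [AddCommGroup M] [Module S M] {x₀ : S} {k : ℕ}
    {μ₁ μ₂ : M} (hF : Fr x₀ k μ₁ μ₂) : ∃ θ : M →ₗ[S] S, θ μ₁ = x₀ ^ k := by
  choose A B hAB using hF.span
  have huniq : ∀ a b a' b' : S, a • μ₁ + b • μ₂ = a' • μ₁ + b' • μ₂ → a = a' ∧ b = b' := by
    intro a b a' b' h
    have h1 := hF.ind (a - a') (b - b') (by
      rw [sub_smul, sub_smul]
      rw [show a • μ₁ - a' • μ₁ + (b • μ₂ - b' • μ₂)
        = (a • μ₁ + b • μ₂) - (a' • μ₁ + b' • μ₂) by abel, h, sub_self])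
    exact ⟨sub_eq_zero.mp h1.1, sub_eq_zero.mp h1.2⟩
  have hadd : ∀ m n, A (m + n) = A m + A n ∧ B (m + n) = B m + B n := by
    intro m n
    apply huniq
    rw [← hAB, smul_add, hAB m, hAB n, add_smul, add_smul]
    abel
  have hsmul : ∀ (c : S) (m : M), A (c • m) = c * A m ∧ B (c • m) = c * B m := by
    intro c m
    apply huniq
    rw [← hAB, smul_comm (x₀ ^ k) c m, hAB m, smul_add, smul_smul, smul_smul]
  refine ⟨{ toFun := A, map_add' := fun m n => (hadd m n).1,
            map_smul' := fun c m => (hsmul c m).1 }, ?_⟩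
  exact (huniq (A μ₁) (B μ₁) (x₀ ^ k) 0 (by rw [← hAB, zero_smul, add_zero])).1

/-- evaluation -/
noncomputable def b3e_ev {S M S₁ S₂ : Type*} [CommRing S] [CommRing S₁] [CommRing S₂]
    [Algebra S S₁] [Algebra S₁ S₂] [AddCommGroup M] [Module S M] (m : M) :
    (M →ₗ[S] S₁) →ₗ[S₁] S₂ where
  toFun θ := algebraMap S₁ S₂ (θ m)
  map_add' θ θ' := by rw [LinearMap.add_apply, map_add]
  map_smul' a θ := by
    rw [LinearMap.smul_apply, smul_eq_mul, map_mul, RingHom.id_apply, Algebra.smul_def]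

/-- The theorem for abstract hyperplane rings. -/
lemma b3e_aux [IsAlgClosed K] {x : Fin 5 → S} {S₁ S₂ : Type*} [CommRing S₁] [Algebra K S₁]
    [Algebra S S₁] [IsScalarTower K S S₁] [CommRing S₂] [Algebra K S₂] [Algebra S₁ S₂]
    [IsScalarTower K S₁ S₂] {y : Fin 4 → S₁} {z : Fin 3 → S₂}
    (hr : RS x 4 (Fin.succAbove 4) y) (hrb : RS y 3 (Fin.succAbove 3) z)
    (hx : Coord K x) (hM : Bun x M)
    {E H : Derivation K S S} (hE : IsEuler x E) (w : Fin 5 → ℤ)
    (hH : ∀ i, H (x i) = (w i : K) • x i) {ε η : M →ₗ[K] M} (hε : IsConn E ε) (hdε : Diag ε)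
    (hη : IsConn H η) (hdη : Diag η) (hcomm : ∀ m, ε (η m) = η (ε m)) (n : ℤ)
    (hn0 : n ∣ w 0) (hn1 : n ∣ w 1) (hn2 : n ∣ w 2) {k : ℕ} {μ₁ μ₂ : M}
    (hF : Fr (x 0) k μ₁ μ₂) (u₁ u₂ : ℤ) (hu₁ : η μ₁ = (u₁ : K) • μ₁)
    (hu₂ : η μ₂ = (u₂ : K) • μ₂) (hmod : ¬ n ∣ u₁ - u₂) : Gen2 S M := by
  have hKS : ∀ (b : K) (a : S), algebraMap S S₁ (b • a) = b • algebraMap S S₁ a := by
    intro b a
    rw [Algebra.smul_def, map_mul, ← IsScalarTower.algebraMap_apply, ← Algebra.smul_def]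
  have hKS₁ : ∀ (b : K) (a : S₁), algebraMap S₁ S₂ (b • a) = b • algebraMap S₁ S₂ a := by
    intro b a
    rw [Algebra.smul_def, map_mul, ← IsScalarTower.algebraMap_apply, ← Algebra.smul_def]
  -- the system
  have hED : ∀ a, E (H a) = H (E a) := by
    have h0 : ⁅E, H⁆ = (0 : Derivation K S S) := by
      refine hx.der_ext fun i => ?_
      rw [Derivation.commutator_apply, hH, hE, Derivation.map_smul, hE, hH, sub_self, Derivation.coe_zero,
        Pi.zero_apply]
    intro a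
    have h1 : ⁅E, H⁆ a = (0 : Derivation K S S) a := by rw [h0]
    rw [Derivation.commutator_apply, Derivation.coe_zero, Pi.zero_apply, sub_eq_zero] at h1
    exact h1
  have h : Sys x E H ε η := ⟨hx, hE, hED, hε, hdε, hη, hcomm, hM⟩
  obtain ⟨E₁, hE₁⟩ := hr.exists_der hx E (by rw [hE, hr.xj])
  obtain ⟨H₁, hH₁⟩ := hr.exists_der hx H (by rw [hH, hKS, hr.xj, smul_zero])
  have h₁ := h.dual hr hE₁ hH₁
  have hHy : ∀ i, H₁ (y i) = (w (Fin.succAbove 4 i) : K) • y i := by
    intro i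
    rw [← hr.map i, hH₁, hH, hKS]
  obtain ⟨E₂, hE₂⟩ := hrb.exists_der h₁.cx E₁ (by rw [h₁.eu, hrb.xj])
  obtain ⟨H₂, hH₂⟩ := hrb.exists_der h₁.cx H₁ (by rw [hHy, hKS₁, hrb.xj, smul_zero])
  have h₂ := h₁.dual hrb hE₂ hH₂
  have hHz : ∀ i, H₂ (z i) = (w (Fin.succAbove 4 (Fin.succAbove 3 i)) : K) • z i := by
    intro i
    rw [← hrb.map i, hH₂, hHy, hKS₁]
  have := hM.fin
  have := h₁.bun.fin
  have hd₁ : Diag (dconn hH₁ h.cD) :=
    dconn_diag' (wt_diag h₁.cx (fun i => w (Fin.succAbove 4 i)) hHy) hH₁ h.cD hdη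
  have hd₂ : Diag (dconn hH₂ h₁.cD) :=
    dconn_diag' (wt_diag h₂.cx (fun i => w (Fin.succAbove 4 (Fin.succAbove 3 i))) hHz) hH₂
      h₁.cD hd₁
  -- evaluation
  have hevK : ∀ (c : K) (m : M), (b3e_ev (c • m) : (M →ₗ[S] S₁) →ₗ[S₁] S₂) = c • b3e_ev m := by
    intro c m
    ext θ
    show algebraMap S₁ S₂ (θ (c • m)) = c • algebraMap S₁ S₂ (θ m)
    rw [LinearMap.map_smul_of_tower, hKS₁]
  have hev : ∀ m : M, dconn hH₂ h₁.cD (b3e_ev m) = b3e_ev (η m) := by
    intro m
    ext θ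
    rw [dconn_apply]
    show H₂ (algebraMap S₁ S₂ (θ m)) - algebraMap S₁ S₂ (dconn hH₁ h.cD θ m) =
      algebraMap S₁ S₂ (θ (η m))
    rw [hH₂, dconn_apply, map_sub]
    abel
  have := h₂.cx.isDomain
  have e0 : Fin.succAbove (4 : Fin 5) 0 = 0 := by decide
  have e0' : Fin.succAbove (3 : Fin 4) 0 = 0 := by decide
  have hne : ∀ ν₁ ν₂ : M, Fr (x 0) k ν₁ ν₂ →
      (b3e_ev ν₁ : (M →ₗ[S] S₁) →ₗ[S₁] S₂) ≠ 0 := by
    intro ν₁ ν₂ hν h0
    obtain ⟨θ, hθ⟩ := b3e_coef hν
    have h1 : (b3e_ev ν₁ : (M →ₗ[S] S₁) →ₗ[S₁] S₂) ((Algebra.linearMap S S₁).comp θ) = 0 := by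
      rw [h0, LinearMap.zero_apply]
    have h2 : algebraMap S₁ S₂ (algebraMap S S₁ (θ ν₁)) = 0 := h1
    have h3 : algebraMap S₁ S₂ (algebraMap S S₁ (x 0)) = z 0 := by
      have a1 := hr.map 0
      have a2 := hrb.map 0
      rw [e0] at a1
      rw [e0'] at a2
      rw [a1, a2]
    rw [hθ, map_pow, map_pow, h3] at h2
    exact pow_ne_zero k (h₂.cx.prime_x 0).ne_zero h2
  have hN₂ : Gen2 S₂ ((M →ₗ[S] S₁) →ₗ[S₁] S₂) := by
    refine plane_core h₂.cx h₂.bun h₂.eu
      (fun i => w (Fin.succAbove 4 (Fin.succAbove 3 i))) hHz h₂.cE h₂.dg h₂.cD hd₂ h₂.comm n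
      ?_ (b3e_ev μ₁) (b3e_ev μ₂) (hne μ₁ μ₂ hF) (hne μ₂ μ₁ hF.swap) u₁ u₂ ?_ ?_ hmod
    · intro i
      fin_cases i
      · exact hn0
      · exact hn1
      · exact hn2
    · rw [hev, hu₁, hevK]
    · rw [hev, hu₂, hevK]
  have hN₁ : Gen2 S₁ (M →ₗ[S] S₁) :=
    horrocks h₁.cx h₁.bun hrb h₁.eu h₁.cE h₁.dg (i₁ := 0) (i₂ := 1) (i₃ := 2) (by decide)
      (by decide) (by decide) hN₂
  exact horrocks hx hM hr hE hε hdε (i₁ := 0) (i₂ := 1) (i₃ := 2) (by decide)
    (by decide) (by decide) hN₁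

/-- The bundle on `P^4` with the coordinates
`x : Fin 5 → S`, the plane `x 3 = x 4 = 0`. Put `S₁ = S ⧸ (x 4)`, `S₂ = S₁ ⧸ (x' 3)` with
`RS.quot x 4` (`x' : Fin 4 → S₁`) and `RS.quot x' 3` (`x'' : Fin 3 → S₂`).
`N₁ = M →ₗ[S] S₁` and `N₂ = N₁ →ₗ[S₁] S₂` are `Bun` (`Bun.dual`), with the dual connections
`dconn` of `E, H` (`RS.exists_der` gives `E₁, H₁` on `S₁` and `E₂, H₂` on `S₂`; they are Euler, and
weight derivations with the weights `w 0, w 1, w 2, w 3` and `w 0, w 1, w 2`), diagonalisable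
(`dconn_diag` or `dconn_diag'` + `wt_diag`), commuting (`dconn` of commuting connections: as in
`Sys.dual`, the derivations `E₁, H₁` commute since `E, H` do, `Coord.der_ext`).
`ev : M → N₂`, `ev m θ = θ m mod x' 3`, satisfies `η₂ (ev m) = ev (η m)`. For `i = 1, 2` the
functional `θ_i : M → S` = coefficient of `μ_i` in `x 0 ^ k m` (linear by `hF.ind`, `hF.span`),
composed with `S → S₁`, shows `ev μ_i ≠ 0`: `θ_i μ_i = x 0 ^ k` is not in the ideal
`(x 3, x 4)` (it is `x'' 0 ^ k ≠ 0` in `S₂`). So `plane_core` applies to `N₂` with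
`ev μ₁, ev μ₂`: `Gen2 S₂ N₂`. By `horrocks` for `N₁` (coordinates `x'`, hyperplane `x' 3`)
`Gen2 S₁ N₁`, and by `horrocks` for `M` `Gen2 S M`. (See `caseOne4`, `caseTwo5`, `caseOne5` in
PFCase.lean for the same use of `horrocks`.) -/
theorem plane [IsAlgClosed K] {x : Fin 5 → S} (hx : Coord K x) (hM : Bun x M)
    {E H : Derivation K S S} (hE : IsEuler x E) (w : Fin 5 → ℤ)
    (hH : ∀ i, H (x i) = (w i : K) • x i) {ε η : M →ₗ[K] M} (hε : IsConn E ε) (hdε : Diag ε)
    (hη : IsConn H η) (hdη : Diag η) (hcomm : ∀ m, ε (η m) = η (ε m)) (n : ℤ)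
    (hn0 : n ∣ w 0) (hn1 : n ∣ w 1) (hn2 : n ∣ w 2) {k : ℕ} {μ₁ μ₂ : M}
    (hF : Fr (x 0) k μ₁ μ₂) (u₁ u₂ : ℤ) (hu₁ : η μ₁ = (u₁ : K) • μ₁)
    (hu₂ : η μ₂ = (u₂ : K) • μ₂) (hmod : ¬ n ∣ u₁ - u₂) : Gen2 S M := by
  exact b3e_aux (RS.quot x 4) (RS.quot _ 3) hx hM hE w hH hε hdε hη hdη hcomm n hn0 hn1 hn2 hF
    u₁ u₂ hu₁ hu₂ hmod

end Pool.Agent.Lib.MP_745d3a_ag.PF
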