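import Pool.Agent.Lib.MP_745d3a_ag.BS.Mat
import Pool.Agent.Lib.MP_745d3a_ag.BS.Line
import Pool.Agent.Lib.MP_745d3a_ag.BS.Plane
import Pool.Agent.Lib.MP_745d3a_ag.BS.Gr2

/-!
The representations of dimension 5 and 4 + 1.
-/

set_option autoImplicit false

namespace Pool.Agent.Lib.MP_745d3a_ag.PF

variable {K S M : Type*} [Field K] [CharZero K] [CommRing S] [Algebra K S] [AddCommGroup M]
  [Module K M] [Module S M] [IsScalarTower K S M] {x : Fin 5 → S} {w : Fin 5 → ℤ}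
  {E H D : Derivation K S S} {ε η e : M →ₗ[K] M}

omit [CharZero K] in
private lemma b11a_eigen [IsAlgClosed K] (c₁₁ c₁₂ c₂₁ c₂₂ : K) :
    ∃ l p q : K, (p ≠ 0 ∨ q ≠ 0) ∧ p * c₁₁ + q * c₂₁ = l * p ∧ p * c₁₂ + q * c₂₂ = l * q := by
  obtain ⟨l, hl⟩ := Module.End.exists_eigenvalue (Matrix.toLin' !![c₁₁, c₂₁; c₁₂, c₂₂])
  obtain ⟨v, hv⟩ := hl.exists_hasEigenvector
  have h1 := hv.apply_eq_smul
  have h2 := hv.2
  have e0 := congrFun h1 0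
  have e1 := congrFun h1 1
  simp [Matrix.toLin'_apply, Matrix.mulVec, dotProduct, Fin.sum_univ_two] at e0 e1
  refine ⟨l, v 0, v 1, ?_, ?_, ?_⟩
  · by_contra hno
    push Not at hno
    apply h2
    funext i
    fin_cases i
    · exact hno.1
    · exact hno.2
  · rw [← e0]; ring
  · rw [← e1]; ring

/-- Replace `k` by `k + 1` (`BFrame.mono`), take
the matrix (`BFrame.mat`), put `δ = u₁ - u₂ ≥ 0`. The entry `a₂` has relative weight `2 - δ`.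
If `δ > 2` then `a₂ = 0` by `form_zero` (1); if `δ = 1` then `a₂ = 0` by `form_two` (1); then `line`
applies with `i₀, i₁, i₂ = 0, 1, 2` (`c₁ = 1`, `c₂ = 2`). If `δ = 2` use `hpl`.
If `δ = 0` all four entries are `c • (x 0 ^ k * x 1)` by `form_two` (2), so cancelling `x 0 ^ k`
(`h.bun.tf`; the exponent is now `k + 1`) `x 0 • e μ_i = c_i1 x 1 μ₁ + c_i2 x 1 μ₂`. Let `(p, q)` be
an eigenvector of the transposed matrix (`K` algebraically closed: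
`Module.End.exists_eigenvalue`, or solve the quadratic equation): `p c_1j + q c_2j = λ (p, q)_j`.
Then `μ = p μ₁ + q μ₂` has `x 0 • e μ = λ x 1 μ`; it is the second member of a frame
(`BFrame.combine`), and `line` applies. -/
theorem case_A [IsAlgClosed K] (h : BSys x w E H D ε η e) (h1 : w 1 = w 0 + 2)
    (h2 : w 0 + 3 ≤ w 2) (h3 : w 0 + 3 ≤ w 3) (h4 : w 0 + 3 ≤ w 4) (hD0 : D (x 0) = x 1)
    (hD1 : D (x 1) = (2 : K) • x 2) {μ₁ μ₂ : M} {k : ℕ} {d u₁ u₂ : ℤ}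
    (hF : BFrame (x 0) ε η μ₁ μ₂ k d u₁ u₂) (hle : u₂ ≤ u₁)
    (hpl : u₁ - u₂ = 2 → Gen2 S M) : Gen2 S M := by
  have hD0' : D (x 0) = (1 : K) • x 1 := by rw [one_smul]; exact hD0
  have h01 : (0 : Fin 5) ≠ 1 := by decide
  have h02 : (0 : Fin 5) ≠ 2 := by decide
  have h12 : (1 : Fin 5) ≠ 2 := by decide
  have hF' := hF.mono (o := 0) 1
  obtain ⟨a₁, b₁, a₂, b₂, ⟨he₁, he₂⟩, ⟨E1, E2, E3, E4⟩, H1, H2, H3, H4⟩ := hF'.mat h
  have hfin : a₂ = 0 → Gen2 S M := by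
    intro ha
    refine line h.cx h.bun h.cD h01 h02 h12 one_ne_zero two_ne_zero hD0' hD1 hF'.fr (k + 1) b₂ ?_
    rw [he₂, ha, zero_smul, zero_add]
  rcases lt_trichotomy (u₁ - u₂) 2 with hlt | heq | hgt
  swap
  · exact hpl heq
  swap
  · exact hfin ((form_zero h.cx h.eu w h.wt (by omega) (by omega) (by omega) (by omega) E3 H3).1
      (by omega))
  have h0 : u₁ - u₂ = 0 ∨ u₁ - u₂ = 1 := by omega
  rcases h0 with h0 | h0
  swap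
  · exact hfin ((form_two h.cx h.eu w h.wt h1 h2 h3 h4 E3 H3).1 (by omega))
  obtain ⟨c₁₁, hc₁₁⟩ := (form_two h.cx h.eu w h.wt h1 h2 h3 h4 E1 H1).2 rfl
  obtain ⟨c₁₂, hc₁₂⟩ := (form_two h.cx h.eu w h.wt h1 h2 h3 h4 E2 H2).2 (by omega)
  obtain ⟨c₂₁, hc₂₁⟩ := (form_two h.cx h.eu w h.wt h1 h2 h3 h4 E3 H3).2 (by omega)
  obtain ⟨c₂₂, hc₂₂⟩ := (form_two h.cx h.eu w h.wt h1 h2 h3 h4 E4 H4).2 rfl
  obtain ⟨l, p, q, hpq, hp, hq⟩ := b11a_eigen c₁₁ c₁₂ c₂₁ c₂₂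
  have hu : u₁ = u₂ := by omega
  subst hu
  obtain ⟨μ', hμ'⟩ := hF'.combine p q hpq
  refine line h.cx h.bun h.cD h01 h02 h12 one_ne_zero two_ne_zero hD0' hD1 hμ'.fr (k + 1)
    (l • (x 0 ^ k * x 1)) ?_
  rw [map_add, map_smul, map_smul, smul_add, smul_comm (x 0 ^ (k + 1)) p,
    smul_comm (x 0 ^ (k + 1)) q, he₁, he₂, hc₁₁, hc₁₂, hc₂₁, hc₂₂]
  simp only [smul_assoc]
  rw [smul_add (x 0 ^ k * x 1), smul_comm (x 0 ^ k * x 1) p, smul_comm (x 0 ^ k * x 1) q]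
  simp only [smul_add, smul_smul]
  rw [← hp, ← hq, add_smul, add_smul]
  abel

/-- the permutation `0, 2, 4, 1, 3` -/
def b11b_perm : Fin 5 ≃ Fin 5 where
  toFun := ![0, 2, 4, 1, 3]
  invFun := ![0, 3, 1, 4, 2]
  left_inv := by decide
  right_inv := by decide

/-- the permutation `0, 3, 4, 1, 2` -/
def b11c_perm : Fin 5 ≃ Fin 5 where
  toFun := ![0, 3, 4, 1, 2]
  invFun := ![0, 3, 4, 1, 2]
  left_inv := by decide
  right_inv := by decide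

lemma b11b_plane [IsAlgClosed K] (h : BSys x w E H D ε η e) (φ : Fin 5 ≃ Fin 5) (hφ : φ 0 = 0)
    (n : ℤ) (h0 : n ∣ w (φ 0)) (h1 : n ∣ w (φ 1)) (h2 : n ∣ w (φ 2)) {μ₁ μ₂ : M} {k : ℕ}
    {d u₁ u₂ : ℤ} (hF : BFrame (x 0) ε η μ₁ μ₂ k d u₁ u₂) (hmod : ¬ n ∣ u₁ - u₂) :
    Gen2 S M := by
  refine plane (x := fun i => x (φ i)) (h.cx.perm φ) (h.bun.perm φ) (E := E) (H := H)
    (fun i => h.eu _) (fun i => w (φ i)) (fun i => h.wt _) h.cE h.dE h.cH h.dH h.comm n h0 h1 h2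
    (k := k) (μ₁ := μ₁) (μ₂ := μ₂) ?_ u₁ u₂ hF.h₁ hF.h₂ hmod
  show Fr (x (φ 0)) k μ₁ μ₂
  rw [hφ]
  exact hF.fr

/-- perm`, `Bun.perm`. Weights `-4, -2, 0, 2, 4`.
If `u₁ < u₂` use `hF.swap`. For `u₁ - u₂ = 2` use `plane` with `n = 4` and the coordinates
`x 0, x 2, x 4, x 1, x 3` (a permutation of `Fin 5`). -/
theorem case_five [IsAlgClosed K] (h : BSys x w E H D ε η e) (h0 : w 0 = -4) (h1 : w 1 = -2)
    (h2 : w 2 = 0) (h3 : w 3 = 2) (h4 : w 4 = 4) (hD0 : D (x 0) = x 1)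
    (hD1 : D (x 1) = (2 : K) • x 2) {μ₁ μ₂ : M} {k : ℕ} {d u₁ u₂ : ℤ}
    (hF : BFrame (x 0) ε η μ₁ μ₂ k d u₁ u₂) : Gen2 S M := by
  have hp0 : b11b_perm 0 = 0 := rfl
  have hp1 : b11b_perm 1 = 2 := rfl
  have hp2 : b11b_perm 2 = 4 := rfl
  have key : ∀ {ν₁ ν₂ : M} {v₁ v₂ : ℤ}, BFrame (x 0) ε η ν₁ ν₂ k d v₁ v₂ → v₁ - v₂ = 2 →
      Gen2 S M := by
    intro ν₁ ν₂ v₁ v₂ hF' hv
    refine b11b_plane h b11b_perm hp0 4 ?_ ?_ ?_ hF' ?_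
    · rw [hp0, h0]; decide
    · rw [hp1, h2]; decide
    · rw [hp2, h4]
    · rw [hv]; decide
  rcases le_total u₂ u₁ with hle | hle
  · exact case_A h (by rw [h0, h1]; norm_num) (by rw [h0, h2]; norm_num)
      (by rw [h0, h3]; norm_num) (by rw [h0, h4]; norm_num) hD0 hD1 hF hle (key hF)
  · exact case_A h (by rw [h0, h1]; norm_num) (by rw [h0, h2]; norm_num)
      (by rw [h0, h3]; norm_num) (by rw [h0, h4]; norm_num) hD0 hD1 hF.swap hle (key hF.swap)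

/-- , as B11b. Weights `-3, -1, 1, 3, 0`. For `u₁ - u₂ = 2` use `plane` with
`n = 3` and the coordinates `x 0, x 3, x 4, x 1, x 2`. -/
theorem case_four [IsAlgClosed K] (h : BSys x w E H D ε η e) (h0 : w 0 = -3) (h1 : w 1 = -1)
    (h2 : w 2 = 1) (h3 : w 3 = 3) (h4 : w 4 = 0) (hD0 : D (x 0) = x 1)
    (hD1 : D (x 1) = (2 : K) • x 2) {μ₁ μ₂ : M} {k : ℕ} {d u₁ u₂ : ℤ}
    (hF : BFrame (x 0) ε η μ₁ μ₂ k d u₁ u₂) : Gen2 S M := by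
  have hp0 : b11c_perm 0 = 0 := rfl
  have hp1 : b11c_perm 1 = 3 := rfl
  have hp2 : b11c_perm 2 = 4 := rfl
  have key : ∀ {ν₁ ν₂ : M} {v₁ v₂ : ℤ}, BFrame (x 0) ε η ν₁ ν₂ k d v₁ v₂ → v₁ - v₂ = 2 →
      Gen2 S M := by
    intro ν₁ ν₂ v₁ v₂ hF' hv
    refine b11b_plane h b11c_perm hp0 3 ?_ ?_ ?_ hF' ?_
    · rw [hp0, h0]; decide
    · rw [hp1, h3]
    · rw [hp2, h4]; decide
    · rw [hv]; decide
  rcases le_total u₂ u₁ with hle | hle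
  · exact case_A h (by rw [h0, h1]; norm_num) (by rw [h0, h2]; norm_num)
      (by rw [h0, h3]; norm_num) (by rw [h0, h4]; norm_num) hD0 hD1 hF hle (key hF)
  · exact case_A h (by rw [h0, h1]; norm_num) (by rw [h0, h2]; norm_num)
      (by rw [h0, h3]; norm_num) (by rw [h0, h4]; norm_num) hD0 hD1 hF.swap hle (key hF.swap)

end Pool.Agent.Lib.MP_745d3a_ag.PF
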