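import Pool.Agent.Lib.MP_745d3a_ag.BS.Rad

/-!
The cone case: a flat frame near `x₀` extends to a connection along a coordinate direction.
-/

set_option autoImplicit false

namespace Pool.Agent.Lib.MP_745d3a_ag.PF

variable {K S ι M : Type*} [Field K] [CharZero K] [CommRing S] [Algebra K S] {x : ι → S}
  [AddCommGroup M] [Module K M] [Module S M] [IsScalarTower K S M]

/-- coefficient comparison for a frame -/
private lemma b4a_coef {x₀ : S} {k : ℕ} {μ₁ μ₂ : M} (hF : Fr x₀ k μ₁ μ₂) {a b a' b' : S}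
    (h : a • μ₁ + b • μ₂ = a' • μ₁ + b' • μ₂) : a = a' ∧ b = b' := by
  have h1 : (a - a') • μ₁ + (b - b') • μ₂ = 0 := by
    rw [sub_smul, sub_smul]
    have : a • μ₁ - a' • μ₁ + (b • μ₂ - b' • μ₂) = (a • μ₁ + b • μ₂) - (a' • μ₁ + b' • μ₂) := by abel
    rw [this, h, sub_self]
  obtain ⟨h2, h3⟩ := hF.ind _ _ h1
  exact ⟨sub_eq_zero.1 h2, sub_eq_zero.1 h3⟩

private lemma b4a_cancel {ι' : Type*} {y : ι' → S} (hM : Bun y M) {a : S} (ha : a ≠ 0) {m n : M}
    (h : a • m = a • n) : m = n := by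
  have h1 : a • (m - n) = 0 := by rw [smul_sub, h, sub_self]
  rcases hM.tf a (m - n) h1 with h2 | h2
  · exact absurd h2 ha
  · exact sub_eq_zero.1 h2

/-- Fix `m`. For `j : ℕ` write `x₀ ^ k e^j m = A_j μ₁ + B_j μ₂`
(`hF.span`), `x₀ = x o`, and put `W_j = Δ A_j μ₁ + Δ B_j μ₂`. Claim 1:
`x₀ e W_j = k D(x₀) W_j + x₀ W_{j+1}`. Proof: apply `e` to the definition of `A_j, B_j`:
`k x₀^(k-1) D x₀ e^j m + x₀^k e^(j+1) m = D A_j μ₁ + D B_j μ₂ + A_j e μ₁ + B_j e μ₂`; multiply by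
`x₀ ^ (l + 1)`, insert `he₁, he₂`, and compare coefficients (`hF.ind`):
`k x₀^l D x₀ A_j + x₀^(l+1) A_(j+1) = x₀^(l+1) D A_j + x₀ (A_j a₁ + B_j a₂)`, similarly for `B`.
Apply `Δ` (`Δ x₀ = 0`, `Δ D x₀ = D Δ x₀ = 0`, `Δ D = D Δ`, `Δ a_i = Δ b_i = 0`) to get the same
equations for `Δ A_j, Δ B_j`, and read them backwards.
Claim 2: the ideal `𝔠 = {a | ∀ j, ∃ n, a W_j = x₀ ^ k n}` contains `x₀ ^ k` and is stable by `D`:
if `a W_j = x₀ ^ k n_j` for all `j`, apply `e`: `D a W_j + a e W_j = k x₀^(k-1) D x₀ n_j + x₀^k e n_j`;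
multiply by `x₀` and use claim 1 and `a W_j = x₀^k n_j`:
`x₀ D a W_j + x₀ a W_(j+1) = x₀^(k+1) e n_j`, so `D a W_j = x₀^k (e n_j - n_(j+1))` (`hM.tf`).
By `rad_der` `x₀` and `D x₀ = c x p` are in the radical of `𝔠`, so `x p ^ N W_0 = x₀ ^ k n` for some
`N, n`, and `hM.ht` with `hx.relPrime_pow` gives `W_0 = x₀ ^ k n'`. -/
lemma cone_lift (hx : Coord K x) (hM : Bun x M) {D : Derivation K S S}
    {e : M →ₗ[K] M} (he : IsConn D e) {o p : ι} (hop : o ≠ p) {c : K} (hc : c ≠ 0)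
    (hDo : D (x o) = c • x p) {Δ : Derivation K S S} (hΔo : Δ (x o) = 0)
    (hcomm : ∀ a, Δ (D a) = D (Δ a)) {k : ℕ} {μ₁ μ₂ : M} (hF : Fr (x o) k μ₁ μ₂)
    {l : ℕ} {a₁ b₁ a₂ b₂ : S} (he₁ : x o ^ l • e μ₁ = a₁ • μ₁ + b₁ • μ₂)
    (he₂ : x o ^ l • e μ₂ = a₂ • μ₁ + b₂ • μ₂)
    (ha₁ : Δ a₁ = 0) (hb₁ : Δ b₁ = 0) (ha₂ : Δ a₂ = 0) (hb₂ : Δ b₂ = 0) (m : M) (A B : S)
    (hm : x o ^ k • m = A • μ₁ + B • μ₂) :
    ∃ n : M, x o ^ k • n = Δ A • μ₁ + Δ B • μ₂ := by
  have := hx.isDomain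
  have hx0 : x o ≠ 0 := (hx.prime_x o).ne_zero
  choose α β hαβ using hF.span
  set P : S := D (x o) with hP
  have hΔP : Δ P = 0 := by rw [hP, hcomm, hΔo, map_zero]
  have hΔmul : ∀ u a : S, Δ u = 0 → Δ (u * a) = u * Δ a := by
    intro u a hu
    rw [Derivation.leibniz, hu, smul_zero, add_zero, smul_eq_mul]
  have hΔpow : ∀ r : ℕ, Δ (x o ^ r) = 0 := by
    intro r
    rw [Derivation.leibniz_pow, hΔo, smul_zero, smul_zero]
  have hDk : x o * D (x o ^ k) = (k : S) * x o ^ k * P := by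
    rw [Derivation.leibniz_pow, ← hP]
    rcases Nat.eq_zero_or_pos k with rfl | hk
    · simp
    · obtain ⟨r, rfl⟩ : ∃ r, k = r + 1 := ⟨k - 1, by omega⟩
      rw [Nat.add_sub_cancel, nsmul_eq_mul, smul_eq_mul]
      ring
  -- the candidate
  obtain ⟨W, hW⟩ : ∃ W : M → M, ∀ n, W n = Δ (α n) • μ₁ + Δ (β n) • μ₂ := ⟨_, fun _ => rfl⟩
  -- the coefficient equations
  have hcoef : ∀ n : M,
      x o ^ l * ((k : S) * P) * α n + x o ^ (l + 1) * α (e n) =
        x o ^ (l + 1) * D (α n) + x o * (α n * a₁ + β n * a₂) ∧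
      x o ^ l * ((k : S) * P) * β n + x o ^ (l + 1) * β (e n) =
        x o ^ (l + 1) * D (β n) + x o * (α n * b₁ + β n * b₂) := by
    intro n
    have h1 : e (x o ^ k • n) = D (α n) • μ₁ + α n • e μ₁ + (D (β n) • μ₂ + β n • e μ₂) := by
      rw [hαβ n, map_add, he, he]
    rw [he] at h1
    have h2 : x o ^ (l + 1) • (D (x o ^ k) • n + x o ^ k • e n) =
        (x o ^ l * ((k : S) * P) * α n + x o ^ (l + 1) * α (e n)) • μ₁ +
        (x o ^ l * ((k : S) * P) * β n + x o ^ (l + 1) * β (e n)) • μ₂ := by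
      have e1 : x o ^ (l + 1) • D (x o ^ k) • n = (x o ^ l * ((k : S) * P)) • (x o ^ k • n) := by
        rw [smul_smul, smul_smul]
        congr 1
        calc x o ^ (l + 1) * D (x o ^ k) = x o ^ l * (x o * D (x o ^ k)) := by ring
          _ = _ := by rw [hDk]; ring
      rw [smul_add, e1, hαβ n, hαβ (e n)]
      simp only [smul_add, add_smul, smul_smul]
      abel
    have h3 : x o ^ (l + 1) • (D (α n) • μ₁ + α n • e μ₁ + (D (β n) • μ₂ + β n • e μ₂)) =
        (x o ^ (l + 1) * D (α n) + x o * (α n * a₁ + β n * a₂)) • μ₁ +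
        (x o ^ (l + 1) * D (β n) + x o * (α n * b₁ + β n * b₂)) • μ₂ := by
      have e1 : x o ^ (l + 1) • α n • e μ₁ = (x o * α n) • (x o ^ l • e μ₁) := by
        rw [smul_smul, smul_smul]; congr 1; ring
      have e2 : x o ^ (l + 1) • β n • e μ₂ = (x o * β n) • (x o ^ l • e μ₂) := by
        rw [smul_smul, smul_smul]; congr 1; ring
      rw [smul_add, smul_add, smul_add, e1, e2, he₁, he₂]
      simp only [smul_add, add_smul, smul_smul, mul_add, mul_assoc]
      abel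
    rw [h1, h3] at h2
    have h4 := b4a_coef hF h2
    exact ⟨h4.1.symm, h4.2.symm⟩
  have hcoefΔ : ∀ n : M,
      x o ^ l * ((k : S) * P) * Δ (α n) + x o ^ (l + 1) * Δ (α (e n)) =
        x o ^ (l + 1) * D (Δ (α n)) + x o * (Δ (α n) * a₁ + Δ (β n) * a₂) ∧
      x o ^ l * ((k : S) * P) * Δ (β n) + x o ^ (l + 1) * Δ (β (e n)) =
        x o ^ (l + 1) * D (Δ (β n)) + x o * (Δ (α n) * b₁ + Δ (β n) * b₂) := by
    intro n
    have hu : Δ (x o ^ l * ((k : S) * P)) = 0 := by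
      rw [hΔmul _ _ (hΔpow l), Derivation.leibniz, hΔP, Derivation.map_natCast]
      simp
    have hr : ∀ a u : S, Δ u = 0 → Δ (a * u) = Δ a * u := by
      intro a u hu
      rw [mul_comm, hΔmul u a hu, mul_comm]
    obtain ⟨h1, h2⟩ := hcoef n
    have g1 := congrArg Δ h1
    have g2 := congrArg Δ h2
    rw [map_add, map_add, hΔmul _ _ hu, hΔmul _ _ (hΔpow (l + 1)), hΔmul _ _ (hΔpow (l + 1)),
      hΔmul _ _ hΔo, map_add, hr _ _ ha₁, hr _ _ ha₂, hcomm] at g1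
    rw [map_add, map_add, hΔmul _ _ hu, hΔmul _ _ (hΔpow (l + 1)), hΔmul _ _ (hΔpow (l + 1)),
      hΔmul _ _ hΔo, map_add, hr _ _ hb₁, hr _ _ hb₂, hcomm] at g2
    exact ⟨g1, g2⟩
  -- claim 1
  have hW1 : ∀ n : M, x o • e (W n) = ((k : S) * P) • W n + x o • W (e n) := by
    intro n
    obtain ⟨g1, g2⟩ := hcoefΔ n
    apply b4a_cancel hM (pow_ne_zero l hx0)
    have e1 : x o ^ l • x o • e (W n) =
        (x o ^ (l + 1) * D (Δ (α n)) + x o * (Δ (α n) * a₁ + Δ (β n) * a₂)) • μ₁ +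
        (x o ^ (l + 1) * D (Δ (β n)) + x o * (Δ (α n) * b₁ + Δ (β n) * b₂)) • μ₂ := by
      simp only [hW]
      rw [map_add, he, he, smul_smul, ← pow_succ]
      have e1 : x o ^ (l + 1) • Δ (α n) • e μ₁ = (x o * Δ (α n)) • (x o ^ l • e μ₁) := by
        rw [smul_smul, smul_smul]; congr 1; ring
      have e2 : x o ^ (l + 1) • Δ (β n) • e μ₂ = (x o * Δ (β n)) • (x o ^ l • e μ₂) := by
        rw [smul_smul, smul_smul]; congr 1; ring
      rw [smul_add, smul_add, smul_add, e1, e2, he₁, he₂]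
      simp only [smul_add, add_smul, smul_smul, mul_add, mul_assoc]
      abel
    rw [e1, ← g1, ← g2]
    simp only [hW, smul_add, add_smul, smul_smul, pow_succ, mul_assoc]
    abel
  -- claim 2
  let I : Ideal S :=
    { carrier := {a | ∀ j : ℕ, ∃ n : M, a • W (e^[j] m) = x o ^ k • n}
      add_mem' := by
        intro a b ha hb j
        obtain ⟨n, hn⟩ := ha j
        obtain ⟨n', hn'⟩ := hb j
        exact ⟨n + n', by rw [add_smul, hn, hn', smul_add]⟩
      zero_mem' := fun j => ⟨0, by rw [zero_smul, smul_zero]⟩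
      smul_mem' := by
        intro b a ha j
        obtain ⟨n, hn⟩ := ha j
        exact ⟨b • n, by rw [smul_eq_mul, mul_smul, hn, smul_comm]⟩ }
  have hImem : ∀ a, a ∈ I ↔ ∀ j : ℕ, ∃ n : M, a • W (e^[j] m) = x o ^ k • n := fun a => Iff.rfl
  have hID : ∀ a ∈ I, D a ∈ I := by
    intro a ha
    rw [hImem] at ha ⊢
    choose ν hν using ha
    intro j
    refine ⟨e (ν j) - ν (j + 1), ?_⟩
    apply b4a_cancel hM hx0
    have h1 : e (a • W (e^[j] m)) = e (x o ^ k • ν j) := by rw [hν j]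
    rw [he, he] at h1
    have h2 : x o • (D a • W (e^[j] m) + a • e (W (e^[j] m))) =
        x o • (D (x o ^ k) • ν j + x o ^ k • e (ν j)) := by rw [h1]
    have h3 : x o • a • e (W (e^[j] m)) =
        ((k : S) * P) • (x o ^ k • ν j) + x o • (x o ^ k • ν (j + 1)) := by
      rw [smul_comm, hW1, smul_add, smul_comm a ((k : S) * P), hν j, smul_comm a (x o)]
      have h4 : W (e (e^[j] m)) = W (e^[j + 1] m) := by rw [Function.iterate_succ_apply']
      rw [h4, hν (j + 1)]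
    have h5 : x o • D (x o ^ k) • ν j = ((k : S) * P) • (x o ^ k • ν j) := by
      rw [smul_smul, smul_smul, hDk]; congr 1; ring
    rw [smul_add, smul_add, h3, h5] at h2
    have h6 : x o • D a • W (e^[j] m) + x o • (x o ^ k • ν (j + 1)) = x o • (x o ^ k • e (ν j)) := by
      have : x o • D a • W (e^[j] m) + x o • (x o ^ k • ν (j + 1)) =
        (x o • D a • W (e^[j] m) + (((k : S) * P) • (x o ^ k • ν j) + x o • (x o ^ k • ν (j + 1)))) -
          ((k : S) * P) • (x o ^ k • ν j) := by abel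
      rw [this, h2]; abel
    rw [smul_sub, smul_sub, ← h6]
    abel
  have hIk : x o ^ k ∈ I := by
    rw [hImem]
    intro j
    exact ⟨W (e^[j] m), rfl⟩
  have hrad : x o ∈ I.radical := ⟨k, hIk⟩
  have hrad2 : P ∈ I.radical := rad_der I hID _ hrad
  have hrad3 : x p ∈ I.radical := by
    have h1 : x p = algebraMap K S c⁻¹ * P := by
      rw [hDo, Algebra.smul_def, ← mul_assoc, ← map_mul, inv_mul_cancel₀ hc, map_one,
        one_mul]
    rw [h1]
    exact Ideal.mul_mem_left _ _ hrad2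
  obtain ⟨N, hN⟩ := hrad3
  obtain ⟨n, hn⟩ := (hImem _).1 hN 0
  obtain ⟨n', hn'⟩ := hM.ht _ _ (hx.relPrime_pow hop.symm N k) _ _ hn
  have hAB := b4a_coef hF ((hαβ m).symm.trans hm)
  refine ⟨n', ?_⟩
  rw [← hn']
  simp only [hW, Function.iterate_zero_apply]
  rw [hAB.1, hAB.2]

/-- By `cone_lift` there is for every `m` an `n = δ m` with
`x₀ ^ k n = Δ A μ₁ + Δ B μ₂` if `x₀ ^ k m = A μ₁ + B μ₂`; it is unique (`hM.tf`, `A, B` are unique by
`hF.ind`), so `δ` is `K`-linear and `IsConn Δ δ` (`Δ x₀ = 0`). It lowers the degree by one: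
`ε (δ m) = δ (ε m) - δ m`: with `x₀ ^ k m = A μ₁ + B μ₂`, applying `ε`:
`x₀ ^ k (ε m + k m) = (E A + d A) μ₁ + (E B + d B) μ₂`; and `Δ (E a) = E (Δ a) + Δ a`
(the derivation `⁅Δ, E⁆ - Δ` vanishes on the coordinates, `Coord.der_ext`). Then apply `cone`
(PFHor.lean) with `r = 2`, `hloc` from `hM.lf` at the prime `Ideal.span (x '' {i₀}ᶜ)`
(`hx.isPrime_span`, `hx.mem_span`), which gives two generators. -/
theorem cone_case [Finite ι] (hx : Coord K x) (hM : Bun x M) {E : Derivation K S S}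
    (hE : IsEuler x E) {ε : M →ₗ[K] M} (hε : IsConn E ε) (hd : Diag ε) {D : Derivation K S S}
    {e : M →ₗ[K] M} (he : IsConn D e) {i₀ o p : ι} (h0 : o ≠ i₀) (hop : o ≠ p) {c : K}
    (hc : c ≠ 0) (hDo : D (x o) = c • x p) {Δ : Derivation K S S} (hΔ0 : Δ (x i₀) = 1)
    (hΔ : ∀ i, i ≠ i₀ → Δ (x i) = 0) (hcomm : ∀ a, Δ (D a) = D (Δ a)) {k : ℕ} {μ₁ μ₂ : M}
    (hF : Fr (x o) k μ₁ μ₂) {d : ℤ} (h₁ : ε μ₁ = (d : K) • μ₁) (h₂ : ε μ₂ = (d : K) • μ₂)
    {l : ℕ} {a₁ b₁ a₂ b₂ : S} (he₁ : x o ^ l • e μ₁ = a₁ • μ₁ + b₁ • μ₂)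
    (he₂ : x o ^ l • e μ₂ = a₂ • μ₁ + b₂ • μ₂)
    (ha₁ : Δ a₁ = 0) (hb₁ : Δ b₁ = 0) (ha₂ : Δ a₂ = 0) (hb₂ : Δ b₂ = 0) : Gen2 S M := by
  classical
  have hΔo : Δ (x o) = 0 := hΔ o h0
  have _i0 := hx.isDomain
  have hP0 : x o ^ k ≠ 0 := pow_ne_zero _ (hx.prime_x o).ne_zero
  have hcan : ∀ m n : M, x o ^ k • m = x o ^ k • n → m = n := by
    intro m n h
    have h1 : x o ^ k • (m - n) = 0 := by rw [smul_sub, h, sub_self]
    rcases hM.tf _ _ h1 with h2 | h2
    · exact absurd h2 hP0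
    · exact sub_eq_zero.mp h2
  choose A B hAB using hF.span
  have huniq : ∀ a b a' b' : S, a • μ₁ + b • μ₂ = a' • μ₁ + b' • μ₂ → a = a' ∧ b = b' := by
    intro a b a' b' h
    have h1 := hF.ind (a - a') (b - b') (by
      rw [sub_smul, sub_smul]
      rw [show a • μ₁ - a' • μ₁ + (b • μ₂ - b' • μ₂)
        = (a • μ₁ + b • μ₂) - (a' • μ₁ + b' • μ₂) by abel, h, sub_self])
    exact ⟨sub_eq_zero.mp h1.1, sub_eq_zero.mp h1.2⟩
  have hadd : ∀ m n, A (m + n) = A m + A n ∧ B (m + n) = B m + B n := by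
    intro m n
    apply huniq
    rw [← hAB, smul_add, hAB m, hAB n, add_smul, add_smul]
    abel
  have hsmul : ∀ (a : S) (m : M), A (a • m) = a * A m ∧ B (a • m) = a * B m := by
    intro a m
    apply huniq
    rw [← hAB, smul_comm (x o ^ k) a m, hAB m, smul_add, smul_smul, smul_smul]
  have hsmulK : ∀ (a : K) (m : M), A (a • m) = a • A m ∧ B (a • m) = a • B m := by
    intro a m
    have h1 := hsmul (algebraMap K S a) m
    rw [algebraMap_smul, ← Algebra.smul_def, ← Algebra.smul_def] at h1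
    exact h1
  have hlift : ∀ m : M, ∃ n : M, x o ^ k • n = Δ (A m) • μ₁ + Δ (B m) • μ₂ := fun m =>
    cone_lift hx hM he hop hc hDo hΔo hcomm hF he₁ he₂ ha₁ hb₁ ha₂ hb₂ m (A m) (B m) (hAB m)
  choose δ0 hδ0 using hlift
  let δ : M →ₗ[K] M :=
    { toFun := δ0
      map_add' := by
        intro m n
        apply hcan
        rw [hδ0, (hadd m n).1, (hadd m n).2, map_add, map_add, smul_add, hδ0 m, hδ0 n, add_smul,
          add_smul]
        abel
      map_smul' := by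
        intro a m
        apply hcan
        rw [hδ0, (hsmulK a m).1, (hsmulK a m).2, Derivation.map_smul, Derivation.map_smul,
          RingHom.id_apply, smul_comm (x o ^ k) a (δ0 m), hδ0 m, smul_add, smul_assoc, smul_assoc] }
  have hδ : ∀ m, x o ^ k • δ m = Δ (A m) • μ₁ + Δ (B m) • μ₂ := hδ0
  have hconn : IsConn Δ δ := by
    intro a m
    apply hcan
    rw [hδ, (hsmul a m).1, (hsmul a m).2, Derivation.leibniz, Derivation.leibniz, smul_add,
      smul_comm (x o ^ k) a (δ m), hδ m, smul_comm (x o ^ k) (Δ a) m, hAB m]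
    simp only [smul_eq_mul]
    module
  -- degrees
  have hEP : E (x o ^ k) = (k : S) * x o ^ k := by
    rw [Derivation.leibniz_pow, hE o]
    rcases Nat.eq_zero_or_pos k with h | h
    · subst h; simp
    · obtain ⟨k', rfl⟩ : ∃ k', k = k' + 1 := ⟨k - 1, by omega⟩
      rw [nsmul_eq_mul, smul_eq_mul, Nat.add_sub_cancel, pow_succ]
  have hcast : ∀ (z : K) (v : M), z • v = (algebraMap K S z) • v := fun z v =>
    (algebraMap_smul S z v).symm
  have hΔE : ∀ a, Δ (E a) = E (Δ a) + Δ a := by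
    have h1 : ⁅Δ, E⁆ = Δ := by
      apply hx.der_ext
      intro i
      rw [Derivation.commutator_apply, hE i]
      by_cases hi : i = i₀
      · subst hi
        rw [hΔ0, Derivation.map_one_eq_zero, sub_zero]
      · rw [hΔ i hi, map_zero, sub_zero]
    intro a
    have h2 := congrArg (fun T : Derivation K S S => T a) h1
    simp only [Derivation.commutator_apply] at h2
    exact sub_eq_iff_eq_add'.mp h2
  have hεA : ∀ m, A (ε m) = E (A m) + (algebraMap K S (d : K)) * A m - (k : S) * A m ∧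
      B (ε m) = E (B m) + (algebraMap K S (d : K)) * B m - (k : S) * B m := by
    intro m
    apply huniq
    rw [← hAB]
    have h1 : ε (x o ^ k • m) = ((k : S) * x o ^ k) • m + x o ^ k • ε m := by
      rw [hε, hEP]
    have h2 : ε (x o ^ k • m) = (E (A m) + algebraMap K S (d : K) * A m) • μ₁ +
        (E (B m) + algebraMap K S (d : K) * B m) • μ₂ := by
      rw [hAB m, map_add, hε, hε, h₁, h₂, hcast, hcast]
      module
    have h3 : x o ^ k • ε m = ε (x o ^ k • m) - (k : S) • (x o ^ k • m) := by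
      rw [h1, mul_smul]
      abel
    rw [h3, h2, hAB m]
    module
  have hdeg : ∀ m, ε (δ m) = δ (ε m) - δ m := by
    intro m
    apply hcan
    have h1 : ε (x o ^ k • δ m) = ((k : S) * x o ^ k) • δ m + x o ^ k • ε (δ m) := by
      rw [hε, hEP]
    have h2 : ε (x o ^ k • δ m) = (E (Δ (A m)) + algebraMap K S (d : K) * Δ (A m)) • μ₁ +
        (E (Δ (B m)) + algebraMap K S (d : K) * Δ (B m)) • μ₂ := by
      rw [hδ m, map_add, hε, hε, h₁, h₂, hcast, hcast]
      module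
    have h3 : x o ^ k • ε (δ m) = ε (x o ^ k • δ m) - (k : S) • (x o ^ k • δ m) := by
      rw [h1, mul_smul]
      abel
    have hk0 : Δ (k : S) = 0 := Derivation.map_natCast Δ k
    have hd0 : Δ (algebraMap K S (d : K)) = 0 := Derivation.map_algebraMap Δ _
    rw [h3, h2, smul_sub, hδ (ε m), hδ m, (hεA m).1, (hεA m).2]
    simp only [map_sub, map_add, Derivation.leibniz, hk0, hd0, hΔE, smul_eq_mul, mul_zero, add_zero]
    module
  have _i1 : Module.Finite S M := hM.fin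
  have hp := hx.isPrime_span ({i₀}ᶜ : Set ι)
  obtain ⟨s, hs, m₁, m₂, hspan, _⟩ := hM.lf (Ideal.span (x '' {i₀}ᶜ)) hp ⟨i₀, by
    rw [hx.mem_span]
    simp⟩
  obtain ⟨gen, _, _, htop⟩ := cone hx hE hε hd i₀ hΔ0 hΔ hconn hdeg 2 ⟨s, hs, ![m₁, m₂], by
    intro v
    obtain ⟨a, b, hab⟩ := hspan v
    rw [hab]
    refine Submodule.add_mem _ (Submodule.smul_mem _ _ (Submodule.subset_span ⟨0, rfl⟩))
      (Submodule.smul_mem _ _ (Submodule.subset_span ⟨1, rfl⟩))⟩
  refine ⟨gen 0, gen 1, fun m => ?_⟩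
  have h1 : m ∈ Submodule.span S (Set.range gen) := by rw [htop]; exact Submodule.mem_top
  rw [Submodule.mem_span_range_iff_exists_fun] at h1
  obtain ⟨w, hw⟩ := h1
  refine ⟨w 0, w 1, ?_⟩
  rw [← hw, Fin.sum_univ_two]

end Pool.Agent.Lib.MP_745d3a_ag.PF
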