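import Pool.Agent.Lib.MP_745d3a_ag.BS.Defs

/-!
A locally nilpotent connection has nilpotent matrix modulo a prime `J` with
`D S ⊆ J`.

Proof. We may replace `l` by `l + 1` and the four entries by `x₀` times them; at the end
`x₀ (a₁ + b₂) ∈ J`, `x₀ ^ 2 (a₁ b₂ - a₂ b₁) ∈ J` and `x₀ ∉ J` give the claim. So let `l = l' + 1`.
Claim: for all `j` there are a matrix `A j : Matrix (Fin 2) (Fin 2) S` with
`x₀ ^ (l j) e^j μ_i = A_j i 0 • μ₁ + A_j i 1 • μ₂` and `A_j ≡ C ^ j` entrywise mod `J`, with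
`C = !![a₁, b₁; a₂, b₂]`. Induction: apply `e` to the equation and multiply by `x₀ ^ l`:
`x₀ ^ (l (j+1)) e^(j+1) μ_i = ∑ (x₀^l D(A_j i t) + (A_j C) i t - l j x₀^(l-1) D(x₀) (A_j i t)) μ_t`,
and the terms with `D` are in `J` (`hD`). For `N` with `e^N μ₁ = e^N μ₂ = 0` (take the maximum)
`A_N = 0` (`ind`). So `C ^ N` has entries in `J`, i.e. over the domain `R = S ⧸ J` the image of `C`
is nilpotent; its determinant satisfies `det ^ N = 0`, and its trace is zero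
(`Matrix.isNilpotent_trace_of_isNilpotent`, `IsNilpotent.eq_zero` in the domain `R`).
-/

set_option autoImplicit false

namespace Pool.Agent.Lib.MP_745d3a_ag.PF

/-- `x₀ ^ l D (x₀ ^ (l j))` is `x₀ ^ (l j)` times an element of `J`. -/
lemma b5_pow {K S : Type*} [Field K] [CommRing S] [Algebra K S] {D : Derivation K S S}
    (J : Ideal S) (hD : ∀ a, D a ∈ J) (x₀ : S) (l j : ℕ) :
    ∃ s ∈ J, x₀ ^ l * D (x₀ ^ (l * j)) = x₀ ^ (l * j) * s := by
  induction j with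
  | zero => exact ⟨0, J.zero_mem, by simp⟩
  | succ j ih =>
    obtain ⟨s, hs, h⟩ := ih
    refine ⟨D (x₀ ^ l) + s, J.add_mem (hD _) hs, ?_⟩
    rw [Nat.mul_succ, pow_add, Derivation.leibniz, smul_eq_mul, smul_eq_mul]
    linear_combination x₀ ^ l * h

/-- One step of the induction for one vector. -/
lemma b5_step {K S M : Type*} [Field K] [CommRing S] [Algebra K S] [AddCommGroup M]
    [Module K M] [Module S M] [IsScalarTower K S M] {D : Derivation K S S} {e : M →ₗ[K] M}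
    (he : IsConn D e) {x₀ : S} {μ₁ μ₂ : M} {l n : ℕ} {a₁ b₁ a₂ b₂ : S}
    (he₁ : x₀ ^ l • e μ₁ = a₁ • μ₁ + b₁ • μ₂) (he₂ : x₀ ^ l • e μ₂ = a₂ • μ₁ + b₂ • μ₂)
    {s p q : S} {v : M} (hs : x₀ ^ l * D (x₀ ^ n) = x₀ ^ n * s)
    (hv : x₀ ^ n • v = p • μ₁ + q • μ₂) :
    x₀ ^ (n + l) • e v = (x₀ ^ l * D p + (p * a₁ + q * a₂) - s * p) • μ₁ +
      (x₀ ^ l * D q + (p * b₁ + q * b₂) - s * q) • μ₂ := by
  have h1 : x₀ ^ l • e (x₀ ^ n • v) = (x₀ ^ n * s) • v + x₀ ^ (n + l) • e v := by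
    rw [he, smul_add, smul_smul, smul_smul, hs, pow_add, mul_comm (x₀ ^ l) (x₀ ^ n)]
  have h2 : x₀ ^ l • e (p • μ₁ + q • μ₂) = (x₀ ^ l * D p + (p * a₁ + q * a₂)) • μ₁ +
      (x₀ ^ l * D q + (p * b₁ + q * b₂)) • μ₂ := by
    rw [map_add, he, he, smul_add, smul_add, smul_add, smul_comm (x₀ ^ l) p (e μ₁),
      smul_comm (x₀ ^ l) q (e μ₂), he₁, he₂]
    module
  rw [hv, h2] at h1
  have h3 : (x₀ ^ n * s) • v = s • (p • μ₁ + q • μ₂) := by
    rw [← hv, smul_smul, mul_comm]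
  rw [h3] at h1
  rw [← sub_eq_iff_eq_add'] at h1
  rw [← h1]
  module

theorem nil_matrix {K S M : Type*} [Field K] [CommRing S] [Algebra K S] [AddCommGroup M]
    [Module K M] [Module S M] [IsScalarTower K S M] {D : Derivation K S S} {e : M →ₗ[K] M}
    (he : IsConn D e) (J : Ideal S) (hJ : J.IsPrime) (hD : ∀ a, D a ∈ J) {x₀ : S}
    (hx₀ : x₀ ∉ J) {μ₁ μ₂ : M} (ind : ∀ a b : S, a • μ₁ + b • μ₂ = 0 → a = 0 ∧ b = 0) {l : ℕ}
    {a₁ b₁ a₂ b₂ : S} (he₁ : x₀ ^ l • e μ₁ = a₁ • μ₁ + b₁ • μ₂)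
    (he₂ : x₀ ^ l • e μ₂ = a₂ • μ₁ + b₂ • μ₂) (hnil : ∀ m, ∃ N : ℕ, (e ^ N) m = 0) :
    a₁ + b₂ ∈ J ∧ a₁ * b₂ - a₂ * b₁ ∈ J := by
  classical
  set C : Matrix (Fin 2) (Fin 2) (S ⧸ J) :=
    !![Ideal.Quotient.mk J a₁, Ideal.Quotient.mk J b₁; Ideal.Quotient.mk J a₂,
      Ideal.Quotient.mk J b₂] with hC
  have claim : ∀ j : ℕ, ∃ p q r t : S, x₀ ^ (l * j) • (e ^ j) μ₁ = p • μ₁ + q • μ₂ ∧
      x₀ ^ (l * j) • (e ^ j) μ₂ = r • μ₁ + t • μ₂ ∧
      C ^ j = !![Ideal.Quotient.mk J p, Ideal.Quotient.mk J q; Ideal.Quotient.mk J r,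
        Ideal.Quotient.mk J t] := by
    intro j
    induction j with
    | zero =>
      refine ⟨1, 0, 0, 1, by simp, by simp, ?_⟩
      rw [pow_zero, map_one, map_zero, Matrix.one_fin_two]
    | succ j ih =>
      obtain ⟨p, q, r, t, h1, h2, h3⟩ := ih
      obtain ⟨s, hs, hs'⟩ := b5_pow J hD x₀ l j
      have g1 := b5_step he he₁ he₂ hs' h1
      have g2 := b5_step he he₁ he₂ hs' h2
      rw [← Nat.mul_succ] at g1 g2
      rw [← Module.End.mul_apply, ← pow_succ'] at g1 g2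
      refine ⟨_, _, _, _, g1, g2, ?_⟩
      · have hq : ∀ a, Ideal.Quotient.mk J (D a) = 0 := fun a =>
          Ideal.Quotient.eq_zero_iff_mem.mpr (hD a)
        have hq' : Ideal.Quotient.mk J s = 0 := Ideal.Quotient.eq_zero_iff_mem.mpr hs
        rw [pow_succ, h3, hC, Matrix.mul_fin_two]
        simp only [map_sub, map_add, map_mul, hq, hq', mul_zero, zero_mul, zero_add, sub_zero]
  obtain ⟨N₁, hN₁⟩ := hnil μ₁
  obtain ⟨N₂, hN₂⟩ := hnil μ₂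
  have hz : ∀ (m : M) (N k : ℕ), (e ^ N) m = 0 → (e ^ (N + k)) m = 0 := by
    intro m N k h
    rw [add_comm, pow_add, Module.End.mul_apply, h, map_zero]
  obtain ⟨p, q, r, t, h1, h2, h3⟩ := claim (N₁ + N₂)
  rw [hz μ₁ N₁ N₂ hN₁, smul_zero] at h1
  rw [add_comm N₁ N₂, hz μ₂ N₂ N₁ hN₂, smul_zero] at h2
  obtain ⟨hp, hq⟩ := ind _ _ h1.symm
  obtain ⟨hr, ht⟩ := ind _ _ h2.symm
  have hCN : C ^ (N₁ + N₂) = 0 := by
    rw [h3, hp, hq, hr, ht, map_zero]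
    ext i k
    fin_cases i <;> fin_cases k <;> rfl
  have hdom : IsDomain (S ⧸ J) := Ideal.Quotient.isDomain J
  have hnilC : IsNilpotent C := ⟨_, hCN⟩
  have htr : C.trace = 0 := (Matrix.isNilpotent_trace_of_isNilpotent hnilC).eq_zero
  have hdet : C.det = 0 := by
    have : IsNilpotent C.det := by
      refine ⟨N₁ + N₂, ?_⟩
      rw [← Matrix.det_pow, hCN, Matrix.det_zero]
    exact this.eq_zero
  constructor
  · rw [← Ideal.Quotient.eq_zero_iff_mem, map_add]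
    rw [hC, Matrix.trace_fin_two_of] at htr
    exact htr
  · rw [← Ideal.Quotient.eq_zero_iff_mem, map_sub, map_mul, map_mul]
    rw [hC, Matrix.det_fin_two_of] at hdet
    rw [← hdet]
    ring

end Pool.Agent.Lib.MP_745d3a_ag.PF
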