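import Pool.Agent.Lib.MP_745d3a_ag.BS.Defs

/-!
Two systems of differential equations without solutions, by descent on the divisibility by `x 0`.
-/

set_option autoImplicit false

namespace Pool.Agent.Lib.MP_745d3a_ag.PF

variable {K S : Type*} [Field K] [CommRing S] [Algebra K S] {x : Fin 5 → S}

/-- Descent: claim: for all `n : ℕ` and all `a, d, g₁, g₂` satisfying the
two equations `x 0 ^ n ∣ g₁` and `x 0 ^ n ∣ g₂`. Step: modulo the prime `x 0` (`hx.prime_x 0`) the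
second equation gives `x 0 ∣ c x₃² g₁`, so `x 0 ∣ g₁` (`x 0` does not divide `x 3`:
`hx.mem_span {0} 3`, `Set.image_singleton`, `Ideal.mem_span_singleton`), `g₁ = x 0 h₁`.
The first equation then gives `x 0 ∣ b x₁ g₂`, so `g₂ = x 0 h₂`. Substituting
(`D (x 0 h) = x 1 h + x 0 D h`) and dividing by `x 0` (domain):
`x 0 D h₁ + (a + 1) x₁ h₁ + b x₁ h₂ = 0` and
`x 0 ^ 2 D h₂ + (d + 1) x₀ x₁ h₂ + (c₁ x₀ x₁ + c x₃²) h₁ = 0`; induction. An element divisible by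
all `x 0 ^ n` is `0` (`S` is a UFD, `hx.ufm`, hence `FiniteMultiplicity`; or the Krull intersection
theorem `hx.noeth`). -/
theorem ord_A (hx : Coord K x) {D : Derivation K S S} (hD0 : D (x 0) = x 1)
    (a b c₁ c d : K) (hb : b ≠ 0) (hc : c ≠ 0) (g₁ g₂ : S)
    (h1 : x 0 * D g₁ + a • (x 1 * g₁) + b • (x 1 * g₂) = 0)
    (h2 : x 0 ^ 2 * D g₂ + d • (x 0 * x 1 * g₂) + (c₁ • (x 0 * x 1) + c • x 3 ^ 2) * g₁ = 0) :
    g₁ = 0 ∧ g₂ = 0 := by
  have hdom := hx.isDomain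
  have hufm := hx.ufm
  have hp0 : Prime (x 0) := hx.prime_x 0
  have hx0 : x 0 ≠ 0 := hp0.ne_zero
  have hnd : ∀ i : Fin 5, i ≠ 0 → ¬ x 0 ∣ x i := by
    intro i hi h
    rw [← Ideal.mem_span_singleton, ← Set.image_singleton, hx.mem_span {0} i,
      Set.mem_singleton_iff] at h
    exact hi h
  have hunit : ∀ t : K, t ≠ 0 → ¬ x 0 ∣ algebraMap K S t := by
    intro t ht h
    exact hp0.not_isUnit (isUnit_of_dvd_unit h ((isUnit_iff_ne_zero.mpr ht).map (algebraMap K S)))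
  have key : ∀ n : ℕ, ∀ (a' d' g₁ g₂ : S),
      x 0 * D g₁ + a' * (x 1 * g₁) + algebraMap K S b * (x 1 * g₂) = 0 →
      x 0 ^ 2 * D g₂ + d' * (x 0 * x 1 * g₂) + (algebraMap K S c₁ * (x 0 * x 1) +
        algebraMap K S c * x 3 ^ 2) * g₁ = 0 → x 0 ^ n ∣ g₁ ∧ x 0 ^ n ∣ g₂ := by
    intro n
    induction n with
    | zero =>
      intro a' d' g₁ g₂ _ _
      simp
    | succ n ih =>
      intro a' d' g₁ g₂ e1 e2
      have hg1 : x 0 ∣ g₁ := by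
        have h3 : x 0 ∣ algebraMap K S c * x 3 ^ 2 * g₁ := by
          refine ⟨-(x 0 * D g₂ + d' * (x 1 * g₂) + algebraMap K S c₁ * x 1 * g₁), ?_⟩
          linear_combination e2
        rcases hp0.dvd_or_dvd h3 with h4 | h4
        · rcases hp0.dvd_or_dvd h4 with h5 | h5
          · exact absurd h5 (hunit c hc)
          · exact absurd (hp0.dvd_of_dvd_pow h5) (hnd 3 (by decide))
        · exact h4
      obtain ⟨k₁, rfl⟩ := hg1
      have hg2 : x 0 ∣ g₂ := by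
        have h3 : x 0 ∣ algebraMap K S b * (x 1 * g₂) := by
          refine ⟨-(D (x 0 * k₁) + a' * (x 1 * k₁)), ?_⟩
          linear_combination e1
        rcases hp0.dvd_or_dvd h3 with h4 | h4
        · exact absurd h4 (hunit b hb)
        · rcases hp0.dvd_or_dvd h4 with h5 | h5
          · exact absurd h5 (hnd 1 (by decide))
          · exact h5
      obtain ⟨k₂, rfl⟩ := hg2
      rw [Derivation.leibniz, hD0, smul_eq_mul, smul_eq_mul] at e1 e2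
      obtain ⟨r1, r2⟩ := ih (a' + 1) (d' + 1) k₁ k₂
        (mul_left_cancel₀ hx0 (by linear_combination e1))
        (mul_left_cancel₀ hx0 (by linear_combination e2))
      refine ⟨?_, ?_⟩
      · rw [pow_succ, mul_comm]
        exact mul_dvd_mul_left _ r1
      · rw [pow_succ, mul_comm]
        exact mul_dvd_mul_left _ r2
  have hall : ∀ n : ℕ, x 0 ^ n ∣ g₁ ∧ x 0 ^ n ∣ g₂ := by
    intro n
    apply key n (algebraMap K S a) (algebraMap K S d) g₁ g₂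
    · rw [Algebra.smul_def, Algebra.smul_def] at h1
      exact h1
    · rw [Algebra.smul_def, Algebra.smul_def, Algebra.smul_def] at h2
      exact h2
  have hzero : ∀ g : S, (∀ n : ℕ, x 0 ^ n ∣ g) → g = 0 := by
    intro g hg
    by_contra hne
    obtain ⟨n, hn⟩ := FiniteMultiplicity.of_prime_left hp0 hne
    exact hn (hg (n + 1))
  exact ⟨hzero g₁ (fun n => (hall n).1), hzero g₂ (fun n => (hall n).2)⟩

lemma b6b_ndvd (hx : Coord K x) (i : Fin 5) (hi : i ≠ 0) : ¬ x 0 ∣ x i := by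
  intro h
  have h1 : x i ∈ Ideal.span (x '' ({0} : Set (Fin 5))) := by
    rw [Set.image_singleton, Ideal.mem_span_singleton]; exact h
  rw [hx.mem_span] at h1
  exact hi h1

lemma b6b_fac (hx : Coord K x) (t q₅ : K) (hq : q₅ ≠ 0) :
    ¬ x 0 ∣ t • x 1 ^ 2 + q₅ • (x 3 * x 4) := by
  intro h
  have hp := hx.isPrime_span ({0, 1} : Set (Fin 5))
  set I := Ideal.span (x '' ({0, 1} : Set (Fin 5))) with hI
  have h0 : x 0 ∈ I := (hx.mem_span _ _).mpr (by simp)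
  have h1 : x 1 ∈ I := (hx.mem_span _ _).mpr (by simp)
  have h2 : t • x 1 ^ 2 + q₅ • (x 3 * x 4) ∈ I := Ideal.mem_of_dvd I h h0
  have h3 : t • x 1 ^ 2 ∈ I := by
    rw [Algebra.smul_def, pow_two, ← mul_assoc]
    exact Ideal.mul_mem_left _ _ h1
  have h4 : q₅ • (x 3 * x 4) ∈ I := by
    have := I.sub_mem h2 h3
    rwa [add_sub_cancel_left] at this
  have h5 : x 3 * x 4 ∈ I := by
    have := I.mul_mem_left (algebraMap K S q₅⁻¹) h4
    rwa [Algebra.smul_def, ← mul_assoc, ← map_mul, inv_mul_cancel₀ hq, map_one, one_mul] at this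
  rcases hp.mem_or_mem h5 with h6 | h6
  · have := (hx.mem_span _ _).mp h6
    simp at this
  · have := (hx.mem_span _ _).mp h6
    simp at this

lemma b6b_dvd (hx : Coord K x) (t q₁ q₂ q₃ q₅ : K) (hq : q₃ ≠ 0 ∨ q₅ ≠ 0) (u h : S)
    (h1 : x 0 * u + (q₁ • (x 0 * x 1 ^ 2) + q₂ • (x 0 ^ 2 * x 2) + q₃ • (x 1 * x 3 ^ 2) +
      q₅ • (x 0 * x 3 * x 4)) * h = 0)
    (h2 : x 0 ∣ u + t • x 1 ^ 2 * h) : x 0 ∣ h := by
  have := hx.isDomain
  have hp := hx.prime_x 0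
  by_cases h3 : q₃ = 0
  · have h5 : q₅ ≠ 0 := by
      rcases hq with hq | hq
      · exact absurd h3 hq
      · exact hq
    obtain ⟨v, hv⟩ := h2
    have h6 : x 0 ∣ ((q₁ - t) • x 1 ^ 2 + q₅ • (x 3 * x 4)) * h := by
      refine ⟨-v - algebraMap K S q₂ * x 2 * h, ?_⟩
      apply mul_left_cancel₀ hp.ne_zero
      simp only [Algebra.smul_def, map_sub, h3, map_zero] at h1 hv ⊢
      linear_combination h1 - x 0 * hv
    rcases hp.dvd_or_dvd h6 with h7 | h7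
    · exact absurd h7 (b6b_fac hx _ _ h5)
    · exact h7
  · have h6 : x 0 ∣ (x 1 * x 3 ^ 2) * h := by
      refine ⟨-(algebraMap K S q₃⁻¹) * (u + (q₁ • x 1 ^ 2 + q₂ • (x 0 * x 2) +
        q₅ • (x 3 * x 4)) * h), ?_⟩
      have h7 : algebraMap K S q₃⁻¹ * algebraMap K S q₃ = 1 := by
        rw [← map_mul, inv_mul_cancel₀ h3, map_one]
      simp only [Algebra.smul_def] at h1 ⊢
      linear_combination (algebraMap K S q₃⁻¹) * h1 - (x 1 * x 3 ^ 2 * h) * h7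
    rcases hp.dvd_or_dvd h6 with h7 | h7
    · rcases hp.dvd_or_dvd h7 with h8 | h8
      · exact absurd h8 (b6b_ndvd hx 1 (by decide))
      · exact absurd (hp.dvd_of_dvd_pow h8) (b6b_ndvd hx 3 (by decide))
    · exact h7

lemma b6b_step (hx : Coord K x) {D : Derivation K S S} (hD0 : D (x 0) = x 1)
    (b c q₁ q₂ q₃ q₅ : K) (hq : q₃ ≠ 0 ∨ q₅ ≠ 0) (g h : S)
    (h1 : g = -(b • (x 1 * h)) - x 0 * D h)
    (h2 : x 0 * (c • (x 1 * g) + x 0 * D g) +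
      (q₁ • (x 0 * x 1 ^ 2) + q₂ • (x 0 ^ 2 * x 2) + q₃ • (x 1 * x 3 ^ 2) +
      q₅ • (x 0 * x 3 * x 4)) * h = 0) :
    ∃ g' h' : S, h = x 0 * h' ∧ g' = -((b + 1) • (x 1 * h')) - x 0 * D h' ∧
      x 0 * ((c + 1) • (x 1 * g') + x 0 * D g') +
      (q₁ • (x 0 * x 1 ^ 2) + q₂ • (x 0 ^ 2 * x 2) + q₃ • (x 1 * x 3 ^ 2) +
      q₅ • (x 0 * x 3 * x 4)) * h' = 0 := by
  have := hx.isDomain
  have hp := hx.prime_x 0
  have hd : x 0 ∣ h := by
    refine b6b_dvd hx (c * b) q₁ q₂ q₃ q₅ hq _ h h2 ⟨-(c • (x 1 * D h)) + D g, ?_⟩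
    nth_rewrite 1 [h1]
    simp only [Algebra.smul_def, map_mul]
    ring
  obtain ⟨h', rfl⟩ := hd
  refine ⟨-((b + 1) • (x 1 * h')) - x 0 * D h', h', rfl, rfl, ?_⟩
  have hg : g = x 0 * (-((b + 1) • (x 1 * h')) - x 0 * D h') := by
    rw [h1, D.leibniz, hD0, smul_eq_mul, smul_eq_mul]
    simp only [Algebra.smul_def, map_add, map_one]
    ring
  generalize -((b + 1) • (x 1 * h')) - x 0 * D h' = g' at hg ⊢
  subst hg
  apply mul_left_cancel₀ hp.ne_zero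
  rw [D.leibniz, hD0, smul_eq_mul, smul_eq_mul] at h2
  simp only [Algebra.smul_def, map_add, map_one] at h2 ⊢
  linear_combination h2

lemma b6b_pow (hx : Coord K x) {D : Derivation K S S} (hD0 : D (x 0) = x 1)
    (q₁ q₂ q₃ q₅ : K) (hq : q₃ ≠ 0 ∨ q₅ ≠ 0) (n : ℕ) : ∀ (b c : K) (g h : S),
    g = -(b • (x 1 * h)) - x 0 * D h →
    x 0 * (c • (x 1 * g) + x 0 * D g) +
      (q₁ • (x 0 * x 1 ^ 2) + q₂ • (x 0 ^ 2 * x 2) + q₃ • (x 1 * x 3 ^ 2) +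
      q₅ • (x 0 * x 3 * x 4)) * h = 0 → x 0 ^ n ∣ h := by
  induction n with
  | zero => intro b c g h _ _; rw [pow_zero]; exact one_dvd _
  | succ n ih =>
    intro b c g h h1 h2
    obtain ⟨g', h', rfl, h3, h4⟩ := b6b_step hx hD0 b c q₁ q₂ q₃ q₅ hq g h h1 h2
    rw [pow_succ, mul_comm (x 0 ^ n)]
    exact mul_dvd_mul_left _ (ih _ _ _ _ h3 h4)

lemma b6b_zero (hx : Coord K x) (h : S) (hn : ∀ n : ℕ, x 0 ^ n ∣ h) : h = 0 := by
  have := hx.isDomain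
  have := hx.ufm
  by_contra hh
  obtain ⟨n, hn'⟩ := FiniteMultiplicity.of_not_isUnit (hx.prime_x 0).not_isUnit hh
  exact hn' (hn (n + 1))

/-- Put `Q = q₁ x₀ x₁² + q₂ x₀² x₂ + q₃ x₁ x₃² + q₅ x₀ x₃ x₄`.
Descent lemma: if (i) `g = - b x₁ h - x₀ D h` and (ii) `c x₀ x₁ g + x₀² D g + Q h = 0`
(`b, c : K`) then `x 0 ∣ h`, and if `h = x₀ h'` then `g = x₀ g'` where `(g', h')` satisfies
(i), (ii) with `b + 1, c + 1`. Proof: if `q₃ ≠ 0`, (ii) mod `x₀` gives `x₀ ∣ q₃ x₁ x₃² h`. If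
`q₃ = 0`, (ii) divided by `x₀` is `c x₁ g + x₀ D g + (q₁ x₁² + q₂ x₀ x₂ + q₅ x₃ x₄) h = 0`, and with
`g ≡ - b x₁ h` mod `x₀`: `x₀ ∣ ((q₁ - b c) x₁² + q₅ x₃ x₄) h`; the first factor is not divisible by
`x₀` since `q₅ ≠ 0` (apply the evaluation `x₀ ↦ 0, x₁ ↦ 0, x₃, x₄ ↦ 1`, or:
`(q₁ - b c) x₁² + q₅ x₃ x₄ ∈ (x 0)` implies `x₃ x₄ ∈ (x 0, x 1)`, prime ideal `hx.isPrime_span {0, 1}`,
so `3 ∈ {0, 1}` or `4 ∈ {0, 1}` by `hx.mem_span`). Then `g = x₀ (- (b + 1) x₁ h' - x₀ D h')` and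
dividing (ii) by `x₀`: `(c + 1) x₀ x₁ g' + x₀² D g' + Q h' = 0`.
Hence `x₀ ^ n ∣ h` for all `n`, so `h = 0`, `g = 0`.
Start: (h2) gives `x 0 ∣ h` in the same way (if `q₃ ≠ 0` mod `x₀`; if `q₃ = 0` divide by `x₀`
first: `x₀² D g + (q₁ x₁² + q₂ x₀ x₂ + q₅ x₃ x₄) h - lam x₀ x₁ g = 0`). With `h = x₀ h₁`, (h1)/x₀ is
(i) for `(g, h₁)` with `b = a + 1` and (h2)/x₀ is (ii) with `c = - lam`. -/
theorem ord_B (hx : Coord K x) {D : Derivation K S S} (hD0 : D (x 0) = x 1)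
    (a lam q₁ q₂ q₃ q₅ : K) (hq : q₃ ≠ 0 ∨ q₅ ≠ 0) (g h : S)
    (h1 : x 0 * D h + x 0 * g + a • (x 1 * h) = 0)
    (h2 : x 0 ^ 3 * D g + (q₁ • (x 0 * x 1 ^ 2) + q₂ • (x 0 ^ 2 * x 2) + q₃ • (x 1 * x 3 ^ 2) +
      q₅ • (x 0 * x 3 * x 4)) * h - lam • (x 0 ^ 2 * x 1 * g) = 0) : g = 0 ∧ h = 0 := by
  have := hx.isDomain
  have hp := hx.prime_x 0
  have hd : x 0 ∣ h := by
    refine b6b_dvd hx 0 q₁ q₂ q₃ q₅ hq (x 0 ^ 2 * D g - lam • (x 0 * x 1 * g)) h ?_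
      ⟨x 0 * D g - lam • (x 1 * g), ?_⟩
    · simp only [Algebra.smul_def] at h2 ⊢
      linear_combination h2
    · simp only [Algebra.smul_def, map_zero]
      ring
  obtain ⟨h', rfl⟩ := hd
  have hg : g = -((a + 1) • (x 1 * h')) - x 0 * D h' := by
    apply mul_left_cancel₀ hp.ne_zero
    rw [D.leibniz, hD0, smul_eq_mul, smul_eq_mul] at h1
    simp only [Algebra.smul_def, map_add, map_one] at h1 ⊢
    linear_combination h1
  have h3 : x 0 * ((-lam) • (x 1 * g) + x 0 * D g) +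
      (q₁ • (x 0 * x 1 ^ 2) + q₂ • (x 0 ^ 2 * x 2) + q₃ • (x 1 * x 3 ^ 2) +
      q₅ • (x 0 * x 3 * x 4)) * h' = 0 := by
    apply mul_left_cancel₀ hp.ne_zero
    simp only [Algebra.smul_def, map_neg] at h2 ⊢
    linear_combination h2
  have h4 : h' = 0 := b6b_zero hx h' fun n => b6b_pow hx hD0 q₁ q₂ q₃ q₅ hq n _ _ _ _ hg h3
  rw [h4] at hg ⊢
  simp only [mul_zero, smul_zero, map_zero, neg_zero, sub_zero] at hg
  exact ⟨hg, by simp⟩

end Pool.Agent.Lib.MP_745d3a_ag.PF
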