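import Pool.Agent.Lib.MP_745d3a_ag.BS.Mat
import Pool.Agent.Lib.MP_745d3a_ag.BS.Line
import Pool.Agent.Lib.MP_745d3a_ag.BS.Plane
import Pool.Agent.Lib.MP_745d3a_ag.BS.Cone
import Pool.Agent.Lib.MP_745d3a_ag.BS.Nil
import Pool.Agent.Lib.MP_745d3a_ag.BS.Ord

/-!
The representation of dimension 3 + 2.
-/

set_option autoImplicit false

namespace Pool.Agent.Lib.MP_745d3a_ag.PF

variable {K S M : Type*} [Field K] [CharZero K] [CommRing S] [Algebra K S] [AddCommGroup M]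
  [Module K M] [Module S M] [IsScalarTower K S M] {x : Fin 5 → S} {w : Fin 5 → ℤ}
  {E H D : Derivation K S S} {ε η e : M →ₗ[K] M}

/-- The prime ideal `J = (x 1, x 2, x 4)` contains `D a` for all `a`
(`Coord.induction` or: `D a` is an `S`-combination of the `D (x i)`), and
`x 0 ∉ J`, `x 3 ∉ J` (`hx.isPrime_span`, `hx.mem_span`). -/
lemma idealJ (hx : Coord K x) (hD0 : D (x 0) = x 1) (hD1 : D (x 1) = (2 : K) • x 2)
    (hD2 : D (x 2) = 0) (hD3 : D (x 3) = x 4) (hD4 : D (x 4) = 0) :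
    ∃ J : Ideal S, J.IsPrime ∧ (∀ a, D a ∈ J) ∧ x 0 ∉ J ∧ x 3 ∉ J ∧ x 1 ∈ J ∧ x 2 ∈ J ∧
      x 4 ∈ J := by
  set J : Ideal S := Ideal.span (x '' {1, 2, 4}) with hJ
  have m1 : x 1 ∈ J := (hx.mem_span _ _).2 (by decide)
  have m2 : x 2 ∈ J := (hx.mem_span _ _).2 (by decide)
  have m4 : x 4 ∈ J := (hx.mem_span _ _).2 (by decide)
  refine ⟨J, hx.isPrime_span _, fun a => ?_, fun h0 => ?_, fun h3 => ?_, m1, m2, m4⟩
  · have hgen : ∀ i, D (x i) ∈ J := by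
      intro i
      fin_cases i
      · exact hD0 ▸ m1
      · change D (x 1) ∈ J
        rw [hD1, Algebra.smul_def]
        exact J.mul_mem_left _ m2
      · change D (x 2) ∈ J
        rw [hD2]
        exact J.zero_mem
      · exact hD3 ▸ m4
      · change D (x 4) ∈ J
        rw [hD4]
        exact J.zero_mem
    refine hx.induction (P := fun a => D a ∈ J) (fun c => ?_) (fun a b ha hb => ?_)
      (fun a i ha => ?_) a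
    · rw [Derivation.map_algebraMap]
      exact J.zero_mem
    · rw [map_add]
      exact J.add_mem ha hb
    · rw [Derivation.leibniz, smul_eq_mul, smul_eq_mul]
      exact J.add_mem (J.mul_mem_left _ (hgen i)) (J.mul_mem_left _ ha)
  · exact absurd ((hx.mem_span _ _).1 h0) (by decide)
  · exact absurd ((hx.mem_span _ _).1 h3) (by decide)

omit [CharZero K] [Module K M] [IsScalarTower K S M] in
/-- cancelling a power of `x 0` -/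
lemma b12b_cancel (hx : Coord K x) (hM : Bun x M) {k : ℕ} {m n : M}
    (h : x 0 ^ k • m = x 0 ^ k • n) : m = n := by
  have := hx.isDomain
  have h1 : x 0 ^ k • (m - n) = 0 := by rw [smul_sub, h, sub_self]
  rcases hM.tf _ _ h1 with h2 | h2
  · exact absurd h2 (pow_ne_zero _ (hx.prime_x 0).ne_zero)
  · exact sub_eq_zero.1 h2

/-- trace and determinant -/
lemma b12b_nil (h : BSys x w E H D ε η e) (hD0 : D (x 0) = x 1)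
    (hD1 : D (x 1) = (2 : K) • x 2) (hD2 : D (x 2) = 0) (hD3 : D (x 3) = x 4)
    (hD4 : D (x 4) = 0) {μ₁ μ₂ : M} {k : ℕ} {d u : ℤ}
    (hF : BFrame (x 0) ε η μ₁ μ₂ k d u u) {n₁₁ n₁₂ n₂₁ n₂₂ v₁₁ v₁₂ v₂₁ v₂₂ : K}
    (he₁ : x 0 ^ 2 • e μ₁ = (n₁₁ • (x 0 * x 1) + v₁₁ • x 3 ^ 2) • μ₁ +
      (n₁₂ • (x 0 * x 1) + v₁₂ • x 3 ^ 2) • μ₂)
    (he₂ : x 0 ^ 2 • e μ₂ = (n₂₁ • (x 0 * x 1) + v₂₁ • x 3 ^ 2) • μ₁ +
      (n₂₂ • (x 0 * x 1) + v₂₂ • x 3 ^ 2) • μ₂) :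
    v₁₁ + v₂₂ = 0 ∧ v₁₁ * v₂₂ - v₁₂ * v₂₁ = 0 := by
  obtain ⟨J, hJ, hDJ, hx0, hx3, hx1, -, -⟩ := idealJ h.cx hD0 hD1 hD2 hD3 hD4
  obtain ⟨ht, hd⟩ := nil_matrix h.cD J hJ hDJ hx0 hF.fr.ind he₁ he₂ h.nil
  have hsc : ∀ (c : K) (n : ℕ), c • x 3 ^ n ∈ J → c = 0 := by
    intro c n hc
    by_contra hne
    have h1 : c⁻¹ • (c • x 3 ^ n) ∈ J := by
      rw [Algebra.smul_def (c⁻¹)]
      exact J.mul_mem_left _ hc
    rw [smul_smul, inv_mul_cancel₀ hne, one_smul] at h1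
    exact hx3 (hJ.mem_of_pow_mem n h1)
  constructor
  · apply hsc _ 2
    have h2 : (v₁₁ + v₂₂) • x 3 ^ 2 = ((n₁₁ • (x 0 * x 1) + v₁₁ • x 3 ^ 2) +
      (n₂₂ • (x 0 * x 1) + v₂₂ • x 3 ^ 2)) - ((n₁₁ + n₂₂) • x 0) * x 1 := by
      simp only [Algebra.smul_def, map_add]
      ring
    rw [h2]
    exact J.sub_mem ht (J.mul_mem_left _ hx1)
  · apply hsc _ 4
    have h2 : (v₁₁ * v₂₂ - v₁₂ * v₂₁) • x 3 ^ 4 =
      ((n₁₁ • (x 0 * x 1) + v₁₁ • x 3 ^ 2) * (n₂₂ • (x 0 * x 1) + v₂₂ • x 3 ^ 2) -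
        (n₂₁ • (x 0 * x 1) + v₂₁ • x 3 ^ 2) * (n₁₂ • (x 0 * x 1) + v₁₂ • x 3 ^ 2)) -
      (algebraMap K S (n₁₁ * n₂₂ - n₁₂ * n₂₁) * x 0 ^ 2 * x 1 +
        algebraMap K S (n₁₁ * v₂₂ + v₁₁ * n₂₂ - n₁₂ * v₂₁ - v₁₂ * n₂₁) * x 0 * x 3 ^ 2) * x 1 := by
      simp only [Algebra.smul_def, map_add, map_sub, map_mul]
      ring
    rw [h2]
    exact J.sub_mem hd (J.mul_mem_left _ hx1)

omit [CharZero K] in
/-- the new frame `μ₁, p μ₁ + μ₂` -/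
lemma b12b_frame {x₀ : S} {μ₁ μ₂ : M} {k : ℕ} {d u : ℤ}
    (hF : BFrame x₀ ε η μ₁ μ₂ k d u u) (p : K) :
    BFrame x₀ ε η μ₁ (p • μ₁ + μ₂) k d u u := by
  refine ⟨⟨fun a b hab => ?_, fun m => ?_⟩, hF.e₁, ?_, hF.h₁, ?_⟩
  · have h1 : (a + p • b) • μ₁ + b • μ₂ = 0 := by
      rw [← hab, smul_add, add_smul, smul_comm b p μ₁, smul_assoc]
      abel
    obtain ⟨h2, h3⟩ := hF.fr.ind _ _ h1
    rw [h3, smul_zero, add_zero] at h2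
    exact ⟨h2, h3⟩
  · obtain ⟨a, b, hab⟩ := hF.fr.span m
    refine ⟨a - p • b, b, ?_⟩
    rw [hab, smul_add, sub_smul, smul_comm b p μ₁, smul_assoc]
    abel
  · rw [map_add, map_smul, hF.e₁, hF.e₂, smul_add, smul_comm]
  · rw [map_add, map_smul, hF.h₁, hF.h₂, smul_add, smul_comm]

/-- the scalar case -/
lemma b12b_scalar [IsAlgClosed K] (h : BSys x w E H D ε η e) (hD0 : D (x 0) = x 1)
    (hD1 : D (x 1) = (2 : K) • x 2) {μ₁ μ₂ : M} {k : ℕ} {d u : ℤ}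
    (hF : BFrame (x 0) ε η μ₁ μ₂ k d u u) {n₁₁ n₁₂ n₂₁ n₂₂ : K}
    (he₁ : x 0 ^ 2 • e μ₁ = (n₁₁ • (x 0 * x 1)) • μ₁ + (n₁₂ • (x 0 * x 1)) • μ₂)
    (he₂ : x 0 ^ 2 • e μ₂ = (n₂₁ • (x 0 * x 1)) • μ₁ + (n₂₂ • (x 0 * x 1)) • μ₂) : Gen2 S M := by
  have hline : ∀ {ν₁ ν₂ : M} (_ : BFrame (x 0) ε η ν₁ ν₂ k d u u) (B : S),
      x 0 ^ 2 • e ν₂ = B • ν₂ → Gen2 S M := fun {ν₁ ν₂} hF' B hB =>
    line h.cx h.bun h.cD (i₀ := 0) (i₁ := 1) (i₂ := 2) (by decide) (by decide) (by decide)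
      (one_ne_zero (α := K)) (two_ne_zero (α := K)) (by rw [hD0, one_smul]) hD1 hF'.fr 2 B hB
  by_cases h12 : n₁₂ = 0
  · refine hline hF.swap (n₁₁ • (x 0 * x 1)) ?_
    rw [he₁, h12, zero_smul, zero_smul, add_zero]
  · obtain ⟨p, hp⟩ := exists_quadratic_eq_zero (a := n₁₂) (b := n₂₂ - n₁₁) (c := -n₂₁) h12
      (IsAlgClosed.exists_eq_mul_self _)
    refine hline (b12b_frame hF p) ((p * n₁₂ + n₂₂) • (x 0 * x 1)) ?_
    have h3 : n₂₁ = (p * n₁₂ + n₂₂) * p - p * n₁₁ := by linear_combination -hp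
    rw [map_add, map_smul, smul_add, smul_comm (x 0 ^ 2) p (e μ₁), he₁, he₂, h3]
    simp only [Algebra.smul_def, map_sub, map_mul, map_add]
    rw [← algebraMap_smul S p μ₁, ← algebraMap_smul S p (_ : M)]
    module

/-- the normalised case -/
lemma b12b_norm [IsAlgClosed K] (h : BSys x w E H D ε η e) (hD0 : D (x 0) = x 1)
    (hD1 : D (x 1) = (2 : K) • x 2) (hD2 : D (x 2) = 0) (hD3 : D (x 3) = x 4)
    (hD4 : D (x 4) = 0) {μ₁ μ₂ : M} {k : ℕ} {d u : ℤ}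
    (hF : BFrame (x 0) ε η μ₁ μ₂ k d u u) {n₁₁ n₁₂ n₂₁ n₂₂ v₁₁ v₁₂ : K}
    (he₁ : x 0 ^ 2 • e μ₁ = (n₁₁ • (x 0 * x 1) + v₁₁ • x 3 ^ 2) • μ₁ +
      (n₁₂ • (x 0 * x 1) + v₁₂ • x 3 ^ 2) • μ₂)
    (he₂ : x 0 ^ 2 • e μ₂ = (n₂₁ • (x 0 * x 1)) • μ₁ + (n₂₂ • (x 0 * x 1)) • μ₂) : Gen2 S M := by
  have := h.cx.isDomain
  have hnil := b12b_nil h hD0 hD1 hD2 hD3 hD4 hF (n₂₁ := n₂₁) (n₂₂ := n₂₂) (v₂₁ := 0) (v₂₂ := 0)
    he₁ (by rw [he₂, zero_smul, add_zero, add_zero])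
  rw [add_zero] at hnil
  have hv11 := hnil.1
  subst hv11
  rw [zero_smul, add_zero] at he₁
  by_cases hv12 : v₁₂ = 0
  · subst hv12
    rw [zero_smul, add_zero] at he₁
    exact b12b_scalar h hD0 hD1 hF he₁ he₂
  by_cases h21 : n₂₁ = 0
  · refine line h.cx h.bun h.cD (i₀ := 0) (i₁ := 1) (i₂ := 2) (by decide) (by decide) (by decide)
      (one_ne_zero (α := K)) (two_ne_zero (α := K)) (by rw [hD0, one_smul]) hD1 hF.fr 2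
      (n₂₂ • (x 0 * x 1)) ?_
    rw [he₂, h21, zero_smul, zero_smul, zero_add]
  exfalso
  obtain ⟨g₁, g₂, hne, hg1, hg2⟩ := BFrame.ker h hF he₁ he₂
  have hx0 : x 0 ≠ 0 := (h.cx.prime_x 0).ne_zero
  rw [hD0] at hg1 hg2
  have k1 : x 0 * D g₁ + (n₁₁ - k) • (x 1 * g₁) + n₂₁ • (x 1 * g₂) = 0 := by
    have h1 : x 0 ^ 2 * (x 0 * D g₁ + (n₁₁ - k) • (x 1 * g₁) + n₂₁ • (x 1 * g₂)) = 0 := by
      simp only [Algebra.smul_def, map_sub] at hg1 ⊢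
      linear_combination hg1
    exact (mul_eq_zero.1 h1).resolve_left (pow_ne_zero _ hx0)
  have k2 : x 0 ^ 2 * D g₂ + (n₂₂ - k) • (x 0 * x 1 * g₂) +
      (n₁₂ • (x 0 * x 1) + v₁₂ • x 3 ^ 2) * g₁ = 0 := by
    have h1 : x 0 * (x 0 ^ 2 * D g₂ + (n₂₂ - k) • (x 0 * x 1 * g₂) +
      (n₁₂ • (x 0 * x 1) + v₁₂ • x 3 ^ 2) * g₁) = 0 := by
      simp only [Algebra.smul_def, map_sub] at hg2 ⊢
      linear_combination hg2
    exact (mul_eq_zero.1 h1).resolve_left hx0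
  obtain ⟨z1, z2⟩ := ord_A h.cx hD0 _ _ _ _ _ h21 hv12 g₁ g₂ k1 k2
  rcases hne with h1 | h1
  · exact h1 z1
  · exact h1 z2

/-- the case of a relation `(p, 1) ν = 0` -/
lemma b12b_rel [IsAlgClosed K] (h : BSys x w E H D ε η e) (hD0 : D (x 0) = x 1)
    (hD1 : D (x 1) = (2 : K) • x 2) (hD2 : D (x 2) = 0) (hD3 : D (x 3) = x 4)
    (hD4 : D (x 4) = 0) {μ₁ μ₂ : M} {k : ℕ} {d u : ℤ}
    (hF : BFrame (x 0) ε η μ₁ μ₂ k d u u) {n₁₁ n₁₂ n₂₁ n₂₂ v₁₁ v₁₂ v₂₁ v₂₂ p : K}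
    (he₁ : x 0 ^ 2 • e μ₁ = (n₁₁ • (x 0 * x 1) + v₁₁ • x 3 ^ 2) • μ₁ +
      (n₁₂ • (x 0 * x 1) + v₁₂ • x 3 ^ 2) • μ₂)
    (he₂ : x 0 ^ 2 • e μ₂ = (n₂₁ • (x 0 * x 1) + v₂₁ • x 3 ^ 2) • μ₁ +
      (n₂₂ • (x 0 * x 1) + v₂₂ • x 3 ^ 2) • μ₂)
    (hp1 : p * v₁₁ + v₂₁ = 0) (hp2 : p * v₁₂ + v₂₂ = 0) : Gen2 S M := by
  refine b12b_norm h hD0 hD1 hD2 hD3 hD4 (b12b_frame hF p) (n₁₁ := n₁₁ - n₁₂ * p) (n₁₂ := n₁₂)
    (v₁₁ := v₁₁ - v₁₂ * p) (v₁₂ := v₁₂)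
    (n₂₁ := p * n₁₁ + n₂₁ - (p * n₁₂ + n₂₂) * p) (n₂₂ := p * n₁₂ + n₂₂) ?_ ?_
  · rw [he₁]
    simp only [Algebra.smul_def, map_sub, map_mul]
    rw [← algebraMap_smul S p μ₁]
    module
  · have hv21 : v₂₁ = -(p * v₁₁) := by linear_combination hp1
    have hv22 : v₂₂ = -(p * v₁₂) := by linear_combination hp2
    rw [map_add, map_smul, smul_add, smul_comm (x 0 ^ 2) p (e μ₁), he₁, he₂, hv21, hv22]
    simp only [Algebra.smul_def, map_sub, map_mul, map_add, map_neg]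
    rw [← algebraMap_smul S p μ₁, ← algebraMap_smul S p (_ : M)]
    module

/-- The case `u₁ = u₂`.
Exponent `k + 2`; the four entries are `x 0 ^ k * (n_ij • (x 0 * x 1) + ν_ij • x 3 ^ 2)`
(`form_two'`); cancel `x 0 ^ k` (`h.bun.tf`):
`x 0 ^ 2 • e μ_i = (n_i1 x₀x₁ + ν_i1 x₃²) μ₁ + (n_i2 x₀x₁ + ν_i2 x₃²) μ₂`.
`nil_matrix` with `J` (`idealJ`): modulo `J` (where `x 1 ≡ 0`) trace and determinant are
`(ν₁₁ + ν₂₂) x₃²` and `(ν₁₁ ν₂₂ - ν₁₂ ν₂₁) x₃⁴`; `x₃ ∉ J`, so `ν₁₁ + ν₂₂ = 0` and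
`ν₁₁ ν₂₂ = ν₁₂ ν₂₁` (a nonzero constant is a unit, so not in `J`).
If `ν = 0`: as in `case_A` for `δ = 0` (eigenvector of `n`, `line`).
If `ν ≠ 0`: there is `(p, q) ≠ 0` with `p ν_1j + q ν_2j = 0` for `j = 1, 2`; pass with
`BFrame.combine` to a frame with `μ₂ := p μ₁ + q μ₂`. In the new frame `ν₂₁ = ν₂₂ = 0`, then
`ν₁₁ = 0` by the trace condition (apply `nil_matrix` again, or argue directly), and `ν₁₂ ≠ 0`
(otherwise we are in the case `ν = 0`). So with the new frame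
`x₀² e μ₁ = n₁₁ x₀x₁ μ₁ + (n₁₂ x₀x₁ + ν₁₂ x₃²) μ₂`, `x₀² e μ₂ = n₂₁ x₀x₁ μ₁ + n₂₂ x₀x₁ μ₂`.
If `n₂₁ = 0` then `line` applies (`B = n₂₂ x₀x₁`). If `n₂₁ ≠ 0`: `BFrame.ker` with `l = 2` gives
`g₁, g₂` with `x₀³ D g₁ + x₀ (g₁ n₁₁ x₀x₁ + g₂ n₂₁ x₀x₁) = k x₀² x₁ g₁`, divide by `x₀²`; and
`x₀³ D g₂ + x₀ (g₁ (n₁₂ x₀x₁ + ν₁₂ x₃²) + g₂ n₂₂ x₀x₁) = k x₀² x₁ g₂`, divide by `x₀`; this is
`ord_A` with `a = n₁₁ - k`, `b = n₂₁`, `c₁ = n₁₂`, `c = ν₁₂`, `d = n₂₂ - k`; so `g₁ = g₂ = 0`, a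
contradiction. (It is convenient to prove first, as a separate lemma, the statement for a frame
with these normalised equations.) -/
theorem case_B0 [IsAlgClosed K] (h : BSys x w E H D ε η e) (h1 : w 1 = w 0 + 2)
    (h2 : w 2 = w 0 + 4) (h3 : w 3 = w 0 + 1) (h4 : w 4 = w 0 + 3) (hD0 : D (x 0) = x 1)
    (hD1 : D (x 1) = (2 : K) • x 2) (hD2 : D (x 2) = 0) (hD3 : D (x 3) = x 4)
    (hD4 : D (x 4) = 0) {μ₁ μ₂ : M} {k : ℕ} {d u : ℤ}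
    (hF : BFrame (x 0) ε η μ₁ μ₂ k d u u) : Gen2 S M := by
  obtain ⟨a₁, b₁, a₂, b₂, ⟨he₁, he₂⟩, ⟨Ea₁, Eb₁, Ea₂, Eb₂⟩, Ha₁, Hb₁, Ha₂, Hb₂⟩ :=
    BFrame.mat h (hF.mono 2)
  rw [sub_self, add_zero] at Hb₁
  rw [sub_self, sub_zero] at Ha₂
  obtain ⟨n₁₁, v₁₁, rfl⟩ := form_two' h.cx h.eu w h.wt h1 h2 h3 h4 Ea₁ Ha₁
  obtain ⟨n₁₂, v₁₂, rfl⟩ := form_two' h.cx h.eu w h.wt h1 h2 h3 h4 Eb₁ Hb₁
  obtain ⟨n₂₁, v₂₁, rfl⟩ := form_two' h.cx h.eu w h.wt h1 h2 h3 h4 Ea₂ Ha₂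
  obtain ⟨n₂₂, v₂₂, rfl⟩ := form_two' h.cx h.eu w h.wt h1 h2 h3 h4 Eb₂ Hb₂
  have e₁ : x 0 ^ 2 • e μ₁ = (n₁₁ • (x 0 * x 1) + v₁₁ • x 3 ^ 2) • μ₁ +
      (n₁₂ • (x 0 * x 1) + v₁₂ • x 3 ^ 2) • μ₂ := by
    refine b12b_cancel h.cx h.bun (k := k) ?_
    rw [smul_smul, ← pow_add, he₁, smul_add, smul_smul, smul_smul]
  have e₂ : x 0 ^ 2 • e μ₂ = (n₂₁ • (x 0 * x 1) + v₂₁ • x 3 ^ 2) • μ₁ +
      (n₂₂ • (x 0 * x 1) + v₂₂ • x 3 ^ 2) • μ₂ := by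
    refine b12b_cancel h.cx h.bun (k := k) ?_
    rw [smul_smul, ← pow_add, he₂, smul_add, smul_smul, smul_smul]
  obtain ⟨-, hdet⟩ := b12b_nil h hD0 hD1 hD2 hD3 hD4 hF e₁ e₂
  -- a relation between the rows
  by_cases hr : v₁₁ = 0 ∧ v₁₂ = 0
  · -- the first row vanishes: exchange the members of the frame
    refine b12b_rel h hD0 hD1 hD2 hD3 hD4 hF.swap (n₁₁ := n₂₂) (n₁₂ := n₂₁) (n₂₁ := n₁₂)
      (n₂₂ := n₁₁) (v₁₁ := v₂₂) (v₁₂ := v₂₁) (v₂₁ := v₁₂) (v₂₂ := v₁₁) (p := 0)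
      (by rw [e₂, add_comm]) (by rw [e₁, add_comm]) (by rw [hr.2]; ring) (by rw [hr.1]; ring)
  · -- the second row is a multiple of the first
    by_cases h11 : v₁₁ = 0
    · have h12 : v₁₂ ≠ 0 := fun h0 => hr ⟨h11, h0⟩
      refine b12b_rel h hD0 hD1 hD2 hD3 hD4 hF (p := -(v₂₂ / v₁₂)) e₁ e₂ ?_ ?_
      · rw [h11] at hdet ⊢
        have : v₂₁ = 0 := by
          have h5 : v₁₂ * v₂₁ = 0 := by linear_combination -hdet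
          exact (mul_eq_zero.1 h5).resolve_left h12
        rw [this]
        ring
      · field_simp
        ring
    · refine b12b_rel h hD0 hD1 hD2 hD3 hD4 hF (p := -(v₂₁ / v₁₁)) e₁ e₂ ?_ ?_
      · field_simp
        ring
      · field_simp
        linear_combination hdet

/-- The case `u₁ = u₂ + 2`, first step. The entry `a₂`
of the matrix is `α x₀ ^ k` (`form_zero` (2)). If `α = 0` then `line` applies. If `α ≠ 0`: replace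
the first member of the frame by `e μ₂`: `x₀ ^ k e μ₂ = α x₀ ^ k μ₁ + b₂ μ₂`, so for all `m`
`x₀ ^ (2 k) m = x₀ ^ k (a μ₁ + b μ₂)` with `x₀ ^ k μ₁ = α⁻¹ (x₀ ^ k e μ₂ - b₂ μ₂)`, so
`x₀ ^ (2 k) m` is a combination of `e μ₂, μ₂`, which are independent. `ε (e μ₂) = d e μ₂`,
`η (e μ₂) = (u₂ + 2) e μ₂`. -/
lemma case_B2_frame [IsAlgClosed K] (h : BSys x w E H D ε η e) (h1 : w 1 = w 0 + 2)
    (h2 : w 2 = w 0 + 4) (h3 : w 3 = w 0 + 1) (h4 : w 4 = w 0 + 3) (hD0 : D (x 0) = x 1)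
    (hD1 : D (x 1) = (2 : K) • x 2) {μ₁ μ₂ : M} {k : ℕ} {d u : ℤ}
    (hF : BFrame (x 0) ε η μ₁ μ₂ k d (u + 2) u) :
    Gen2 S M ∨ ∃ k', BFrame (x 0) ε η (e μ₂) μ₂ k' d (u + 2) u := by
  have := h.cx.isDomain
  have hx0 : x 0 ≠ 0 := (h.cx.prime_x 0).ne_zero
  obtain ⟨a₁, b₁, a₂, b₂, ⟨he₁, he₂⟩, ⟨Ea₁, Eb₁, Ea₂, Eb₂⟩, Ha₁, Hb₁, Ha₂, Hb₂⟩ :=
    BFrame.mat h hF
  obtain ⟨α, rfl⟩ := (form_zero h.cx h.eu w h.wt (by omega) (by omega) (by omega) (by omega)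
    Ea₂ Ha₂).2 (by ring)
  by_cases hα : α = 0
  · left
    refine line h.cx h.bun h.cD (i₀ := 0) (i₁ := 1) (i₂ := 2) (by decide) (by decide) (by decide)
      (one_ne_zero (α := K)) (two_ne_zero (α := K)) (by rw [hD0, one_smul]) hD1 hF.fr k b₂ ?_
    rw [he₂, hα, zero_smul, zero_smul, zero_add]
  · right
    -- `x 0 ^ k • μ₁` in terms of `e μ₂, μ₂`
    have hμ₁ : x 0 ^ k • μ₁ = (α⁻¹ • x 0 ^ k) • e μ₂ + (-(α⁻¹ • b₂)) • μ₂ := by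
      have h5 : (α⁻¹ • x 0 ^ k) • e μ₂ = α⁻¹ • (x 0 ^ k • e μ₂) := smul_assoc _ _ _
      rw [h5, he₂, smul_add, ← smul_assoc, smul_smul, inv_mul_cancel₀ hα, one_smul, ← smul_assoc,
        neg_smul]
      abel
    refine ⟨k + k, ⟨fun a b hab => ?_, fun m => ?_⟩, ?_, hF.e₂, ?_, hF.h₂⟩
    · have h5 : (a * (α • x 0 ^ k)) • μ₁ + (a * b₂ + x 0 ^ k * b) • μ₂ = 0 := by
        have h6 : x 0 ^ k • (a • e μ₂ + b • μ₂) = 0 := by rw [hab, smul_zero]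
        rw [smul_add, smul_comm (x 0 ^ k) a, he₂] at h6
        rw [← h6]
        module
      obtain ⟨h6, h7⟩ := hF.fr.ind _ _ h5
      have h8 : α • x 0 ^ k ≠ 0 := by
        rw [Algebra.smul_def]
        refine mul_ne_zero ?_ (pow_ne_zero _ hx0)
        exact fun h0 => hα ((map_eq_zero (algebraMap K S)).1 h0)
      have h9 : a = 0 := (mul_eq_zero.1 h6).resolve_right h8
      rw [h9, zero_mul, zero_add] at h7
      exact ⟨h9, (mul_eq_zero.1 h7).resolve_left (pow_ne_zero _ hx0)⟩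
    · obtain ⟨a, b, hab⟩ := hF.fr.span m
      refine ⟨a * (α⁻¹ • x 0 ^ k), a * (-(α⁻¹ • b₂)) + x 0 ^ k * b, ?_⟩
      rw [pow_add, mul_smul, hab, smul_add, smul_comm (x 0 ^ k) a, hμ₁]
      module
    · rw [h.degE, hF.e₂, map_smul]
    · rw [h.degH, hF.h₂, map_smul]
      push_cast
      rw [add_smul]

section b12d

omit [CharZero K] [Module K M] [IsScalarTower K S M] in
/-- cancelling a power of `x 0` in a module equation -/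
private lemma b12d_cancel (hx : Coord K x) (hM : Bun x M) (k : ℕ) {m n : M}
    (h : x 0 ^ k • m = x 0 ^ k • n) : m = n := by
  have hdom := hx.isDomain
  have h1 : x 0 ^ k • (m - n) = 0 := by rw [smul_sub, h, sub_self]
  rcases hM.tf _ _ h1 with h2 | h2
  · exact absurd h2 (pow_ne_zero k (hx.prime_x 0).ne_zero)
  · exact sub_eq_zero.1 h2

omit [CharZero K] in
/-- a nonzero constant times an element outside of a prime ideal -/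
private lemma b12d_const {J : Ideal S} (hJ : J.IsPrime) {y : S} (hy : y ∉ J) {c : K} {n : ℕ}
    (h : c • y ^ n ∈ J) : c = 0 := by
  by_contra hc
  have h1 : y ^ n ∈ J := by
    have h2 : algebraMap K S c⁻¹ * (c • y ^ n) ∈ J := J.mul_mem_left _ h
    rw [← Algebra.smul_def, smul_smul, inv_mul_cancel₀ hc, one_smul] at h2
    exact h2
  exact hy (hJ.mem_of_pow_mem n h1)

/-- The case `u₁ = u₂ + 2`, second step. Exponent `k + 4`: the entries `a₁, b₁` of `x₀ ^ (k+4) e (e μ) = a₁ (e μ) + b₁ μ` have the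
forms `a₁ = x₀ ^ (k+2) (α x₀x₁ + κ x₃²)` (`form_two'`) and
`b₁ = x₀ ^ k (q₁ x₀²x₁² + q₂ x₀³x₂ + q₃ x₀x₁x₃² + q₄ x₃⁴ + q₅ x₀²x₃x₄)` (`form_four'`). Cancel
`x₀ ^ k`: `x₀⁴ e (e μ) = x₀² (α x₀x₁ + κ x₃²) e μ + (q₁ x₀²x₁² + ...) μ`, and of course
`x₀⁴ e μ = x₀⁴ (e μ) + 0 μ`. `nil_matrix` (`l = 4`): trace `x₀² (α x₀x₁ + κ x₃²) ∈ J`, so `κ = 0`;
determinant `- x₀⁴ (...) ∈ J`, so `q₄ x₃⁴ ∈ J`, `q₄ = 0`. Next `BFrame.ker` with `l = 4`, dividing by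
`x₀⁴` and `x₀²`: `x₀ D g₁ + (α - k) x₁ g₁ + x₀ g₂ = 0`,
`x₀³ D g₂ + (q₁ x₀x₁² + q₂ x₀²x₂ + q₃ x₁x₃² + q₅ x₀x₃x₄) g₁ - k x₀² x₁ g₂ = 0`: if `q₃ ≠ 0` or
`q₅ ≠ 0` this is `ord_B` (`h = g₁`, `g = g₂`, `a = α - k`, `lam = k`), a contradiction. So
`q₃ = q₅ = 0`, and all entries of the matrix are polynomials in `x₀, x₁, x₂`, killed by the
derivation `Δ` with `Δ x₃ = 1`, `Δ x_i = 0` (`i ≠ 3`; `Coord.der`), which commutes with `D`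
(`Coord.der_ext` for `⁅Δ, D⁆`: `D (x i)` is `x 1`, `2 x 2`, `0`, `x 4`, `0`). `cone_case` with
`i₀ = 3, o = 0, p = 1, c = 1`. -/
theorem case_B2 (h : BSys x w E H D ε η e) (h1 : w 1 = w 0 + 2)
    (h2 : w 2 = w 0 + 4) (h3 : w 3 = w 0 + 1) (h4 : w 4 = w 0 + 3) (hD0 : D (x 0) = x 1)
    (hD1 : D (x 1) = (2 : K) • x 2) (hD2 : D (x 2) = 0) (hD3 : D (x 3) = x 4)
    (hD4 : D (x 4) = 0) {μ : M} {k : ℕ} {d u : ℤ}
    (hF : BFrame (x 0) ε η (e μ) μ k d (u + 2) u) : Gen2 S M := by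
  have hx := h.cx
  have hdom := hx.isDomain
  have hx00 : x 0 ≠ 0 := (hx.prime_x 0).ne_zero
  obtain ⟨a₁, b₁, a₂, b₂, ⟨hm1, -⟩, ⟨hEa, hEb, -, -⟩, hHa, hHb, -, -⟩ := (hF.mono 4).mat h
  obtain ⟨α, κ, ha⟩ := form_two' (k := k + 2) hx h.eu w h.wt h1 h2 h3 h4 (a := a₁)
    (by rw [hEa]) (by rw [hHa])
  obtain ⟨q₁, q₂, q₃, q₄, q₅, hb⟩ := form_four' (k := k) hx h.eu w h.wt h1 h2 h3 h4 (a := b₁)
    (by rw [hEb]) (by rw [hHb]; congr 2; ring)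
  -- cancel `x 0 ^ k`
  have he₁ : x 0 ^ 4 • e (e μ) = (x 0 ^ 2 * (α • (x 0 * x 1) + κ • x 3 ^ 2)) • e μ +
      (q₁ • (x 0 ^ 2 * x 1 ^ 2) + q₂ • (x 0 ^ 3 * x 2) +
      q₃ • (x 0 * x 1 * x 3 ^ 2) + q₄ • x 3 ^ 4 + q₅ • (x 0 ^ 2 * x 3 * x 4)) • μ := by
    refine b12d_cancel hx h.bun k ?_
    rw [smul_smul, ← pow_add, hm1, smul_add, smul_smul, smul_smul, ha, hb, pow_add, mul_assoc]
  have he₂ : x 0 ^ 4 • e μ = (x 0 ^ 4) • e μ + (0 : S) • μ := by rw [zero_smul, add_zero]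
  obtain ⟨J, hJ, hDJ, hJ0, hJ3, hJ1, hJ2, hJ4⟩ := idealJ hx hD0 hD1 hD2 hD3 hD4
  obtain ⟨htr, hdet⟩ := nil_matrix h.cD J hJ hDJ hJ0 hF.fr.ind he₁ he₂ h.nil
  have hpow : ∀ n : ℕ, x 0 ^ n ∉ J := fun n hn => hJ0 (hJ.mem_of_pow_mem n hn)
  have hκ : κ = 0 := by
    rw [add_zero] at htr
    have e1 := (hJ.mem_or_mem htr).resolve_left (hpow 2)
    have e2 : α • (x 0 * x 1) ∈ J := by
      rw [Algebra.smul_def]
      exact J.mul_mem_left _ (J.mul_mem_left _ hJ1)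
    have e3 : κ • x 3 ^ 2 ∈ J := (J.add_mem_iff_right e2).1 e1
    exact b12d_const hJ hJ3 e3
  have hq4 : q₄ = 0 := by
    rw [mul_zero, zero_sub] at hdet
    have e0 := (Ideal.neg_mem_iff J).1 hdet
    have e1 := (hJ.mem_or_mem e0).resolve_left (hpow 4)
    have c1 : q₁ • (x 0 ^ 2 * x 1 ^ 2) ∈ J := by
      rw [Algebra.smul_def]
      exact J.mul_mem_left _ (J.mul_mem_left _ (J.pow_mem_of_mem hJ1 2 (by norm_num)))
    have c2 : q₂ • (x 0 ^ 3 * x 2) ∈ J := by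
      rw [Algebra.smul_def]
      exact J.mul_mem_left _ (J.mul_mem_left _ hJ2)
    have c3 : q₃ • (x 0 * x 1 * x 3 ^ 2) ∈ J := by
      rw [Algebra.smul_def]
      exact J.mul_mem_left _ (J.mul_mem_right _ (J.mul_mem_left _ hJ1))
    have c5 : q₅ • (x 0 ^ 2 * x 3 * x 4) ∈ J := by
      rw [Algebra.smul_def]
      exact J.mul_mem_left _ (J.mul_mem_left _ hJ4)
    have e2 := (J.add_mem_iff_left c5).1 e1
    have e3 := (J.add_mem_iff_right (J.add_mem (J.add_mem c1 c2) c3)).1 e2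
    exact b12d_const hJ hJ3 e3
  subst hκ hq4
  rw [zero_smul, add_zero] at he₁
  rw [zero_smul, add_zero] at he₁
  obtain ⟨g₁, g₂, hg, hg1, hg2⟩ := hF.ker h he₁ he₂
  rw [hD0] at hg1 hg2
  -- the equations of `ord_B`
  have o1 : x 0 * D g₁ + x 0 * g₂ + (α - (k : K)) • (x 1 * g₁) = 0 := by
    refine mul_left_cancel₀ (pow_ne_zero 4 hx00) ?_
    rw [mul_zero]
    simp only [Algebra.smul_def, map_sub] at hg1 ⊢
    linear_combination hg1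
  have o2 : x 0 ^ 3 * D g₂ + (q₁ • (x 0 * x 1 ^ 2) + q₂ • (x 0 ^ 2 * x 2) +
      q₃ • (x 1 * x 3 ^ 2) + q₅ • (x 0 * x 3 * x 4)) * g₁ - (k : K) • (x 0 ^ 2 * x 1 * g₂) = 0 := by
    refine mul_left_cancel₀ (pow_ne_zero 2 hx00) ?_
    rw [mul_zero]
    simp only [Algebra.smul_def] at hg2 ⊢
    linear_combination hg2
  have hq : ¬ (q₃ ≠ 0 ∨ q₅ ≠ 0) := by
    intro hq
    obtain ⟨r1, r2⟩ := ord_B hx hD0 (α - (k : K)) (k : K) q₁ q₂ q₃ q₅ hq g₂ g₁ o1 o2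
    rcases hg with hg | hg
    · exact hg r2
    · exact hg r1
  have hq3 : q₃ = 0 := by by_contra hc; exact hq (Or.inl hc)
  have hq5 : q₅ = 0 := by by_contra hc; exact hq (Or.inr hc)
  subst hq3 hq5
  -- the derivation along `x 3`
  set Δ : Derivation K S S := hx.der (fun i => if i = 3 then 1 else 0) with hΔ
  have hΔ3 : Δ (x 3) = 1 := by rw [hΔ, hx.der_x]; simp
  have hΔi : ∀ i, i ≠ 3 → Δ (x i) = 0 := by
    intro i hi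
    rw [hΔ, hx.der_x]; simp [hi]
  have hΔ0 : Δ (x 0) = 0 := hΔi 0 (by decide)
  have hΔ1 : Δ (x 1) = 0 := hΔi 1 (by decide)
  have hΔ2 : Δ (x 2) = 0 := hΔi 2 (by decide)
  have hΔ4 : Δ (x 4) = 0 := hΔi 4 (by decide)
  have hcomm : ∀ a, Δ (D a) = D (Δ a) := by
    have hz : ⁅Δ, D⁆ = 0 := by
      refine hx.der_ext fun i => ?_
      rw [Derivation.commutator_apply, Derivation.zero_apply]
      fin_cases i
      · show Δ (D (x 0)) - D (Δ (x 0)) = 0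
        rw [hD0, hΔ0, hΔ1, map_zero, sub_zero]
      · show Δ (D (x 1)) - D (Δ (x 1)) = 0
        rw [hD1, hΔ1, Derivation.map_smul, hΔ2, smul_zero, map_zero, sub_zero]
      · show Δ (D (x 2)) - D (Δ (x 2)) = 0
        rw [hD2, hΔ2, map_zero, map_zero, sub_zero]
      · show Δ (D (x 3)) - D (Δ (x 3)) = 0
        rw [hD3, hΔ3, hΔ4, Derivation.map_one_eq_zero, sub_zero]
      · show Δ (D (x 4)) - D (Δ (x 4)) = 0
        rw [hD4, hΔ4, map_zero, map_zero, sub_zero]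
    intro a
    have h5 : ⁅Δ, D⁆ a = 0 := by rw [hz, Derivation.zero_apply]
    rw [Derivation.commutator_apply] at h5
    exact sub_eq_zero.1 h5
  have hD0' : D (x 0) = (1 : K) • x 1 := by rw [hD0, one_smul]
  refine cone_case (i₀ := 3) (o := 0) (p := 1) hx h.bun h.eu h.cE h.dE h.cD (by decide)
    (by decide) one_ne_zero hD0' hΔ3 hΔi hcomm hF.fr hF.e₁ hF.e₂ he₁ he₂ ?_ ?_ ?_ ?_
  · simp [Derivation.leibniz, Derivation.leibniz_pow, hΔ0, hΔ1]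
  · simp [Derivation.leibniz, Derivation.leibniz_pow, hΔ0, hΔ1, hΔ2]
  · simp [Derivation.leibniz_pow, hΔ0]
  · simp

end b12d

/-- Weights `-2, 0, 2, -1, 1`. We may
assume `u₂ ≤ u₁` (`hF.swap`). `u₁ - u₂` odd: `plane` with `n = 2` (the coordinates are already
in the right order). `u₁ = u₂`: B12b. `u₁ = u₂ + 2`: B12c, B12d. Otherwise `u₁ - u₂ > 2`, the entry
`a₂` vanishes (`form_zero` (1)) and `line` applies (`0, 1, 2`). -/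
theorem case_three [IsAlgClosed K] (h : BSys x w E H D ε η e) (h0 : w 0 = -2) (h1 : w 1 = 0)
    (h2 : w 2 = 2) (h3 : w 3 = -1) (h4 : w 4 = 1) (hD0 : D (x 0) = x 1)
    (hD1 : D (x 1) = (2 : K) • x 2) (hD2 : D (x 2) = 0) (hD3 : D (x 3) = x 4)
    (hD4 : D (x 4) = 0) {μ₁ μ₂ : M} {k : ℕ} {d u₁ u₂ : ℤ}
    (hF : BFrame (x 0) ε η μ₁ μ₂ k d u₁ u₂) : Gen2 S M := by
  have main : ∀ (ν₁ ν₂ : M) (v₁ v₂ : ℤ), BFrame (x 0) ε η ν₁ ν₂ k d v₁ v₂ → v₂ ≤ v₁ →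
      Gen2 S M := by
    intro ν₁ ν₂ v₁ v₂ hν hle
    have hw1 : w 1 = w 0 + 2 := by omega
    have hw2 : w 2 = w 0 + 4 := by omega
    have hw3 : w 3 = w 0 + 1 := by omega
    have hw4 : w 4 = w 0 + 3 := by omega
    by_cases hodd : (2 : ℤ) ∣ v₁ - v₂
    · rcases lt_or_ge 2 (v₁ - v₂) with hgt | hle2
      · obtain ⟨a₁, b₁, a₂, b₂, ⟨he₁, he₂⟩, ⟨_, _, hE, _⟩, _, _, hH, _⟩ := hν.mat h
        have ha₂ : a₂ = 0 := (form_zero h.cx h.eu w h.wt (by omega) (by omega) (by omega)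
          (by omega) hE hH).1 (by omega)
        rw [ha₂, zero_smul, zero_add] at he₂
        exact line h.cx h.bun h.cD (i₀ := 0) (i₁ := 1) (i₂ := 2) (by decide) (by decide)
          (by decide) (c₁ := 1) (c₂ := 2) one_ne_zero two_ne_zero (by rw [hD0, one_smul]) hD1
          hν.fr k b₂ he₂
      · have h5 : v₁ - v₂ = 0 ∨ v₁ - v₂ = 2 := by omega
        rcases h5 with h5 | h5
        · have h6 : v₁ = v₂ := by omega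
          subst h6
          exact case_B0 h hw1 hw2 hw3 hw4 hD0 hD1 hD2 hD3 hD4 hν
        · have h6 : v₁ = v₂ + 2 := by omega
          subst h6
          rcases case_B2_frame h hw1 hw2 hw3 hw4 hD0 hD1 hν with h7 | ⟨k', h7⟩
          · exact h7
          · exact case_B2 h hw1 hw2 hw3 hw4 hD0 hD1 hD2 hD3 hD4 h7
    · exact plane h.cx h.bun h.eu w h.wt h.cE h.dE h.cH h.dH h.comm 2 (by omega) (by omega)
        (by omega) hν.fr v₁ v₂ hν.h₁ hν.h₂ hodd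
  rcases le_total u₂ u₁ with hle | hle
  · exact main μ₁ μ₂ u₁ u₂ hF hle
  · exact main μ₂ μ₁ u₂ u₁ hF.swap hle

end Pool.Agent.Lib.MP_745d3a_ag.PF
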