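import Pool.Agent.Lib.MP_745d3a_ag.BS.Main

/-!
The six partitions.
-/

set_option autoImplicit false

open MvPolynomial

namespace Pool.Agent.Lib.MP_745d3a_ag.PF

lemma partitions {r : ℕ} (n : Fin r → ℕ) (hn : Antitone n) (h5 : ∑ j, (n j + 1) = 5)
    (h0 : ∃ j, n j ≠ 0) :
    (∃ h : r = 1, n = fun j => (![4] : Fin 1 → ℕ) (Fin.cast h j)) ∨
    (∃ h : r = 2, n = fun j => (![3, 0] : Fin 2 → ℕ) (Fin.cast h j)) ∨
    (∃ h : r = 2, n = fun j => (![2, 1] : Fin 2 → ℕ) (Fin.cast h j)) ∨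
    (∃ h : r = 3, n = fun j => (![2, 0, 0] : Fin 3 → ℕ) (Fin.cast h j)) ∨
    (∃ h : r = 3, n = fun j => (![1, 1, 0] : Fin 3 → ℕ) (Fin.cast h j)) ∨
    (∃ h : r = 4, n = fun j => (![1, 0, 0, 0] : Fin 4 → ℕ) (Fin.cast h j)) := by
  have hr : r ≤ 5 := by
    have h1 : ∑ _j : Fin r, 1 ≤ ∑ j, (n j + 1) := Finset.sum_le_sum fun j _ => by omega
    rw [h5] at h1
    simpa using h1
  obtain ⟨j0, hj0⟩ := h0
  interval_cases r
  · exact j0.elim0
  · left
    refine ⟨rfl, ?_⟩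
    rw [Fin.sum_univ_one] at h5
    funext j
    fin_cases j
    show n 0 = 4
    omega
  · rw [Fin.sum_univ_two] at h5
    have h1 : n 1 ≤ n 0 := hn (by decide)
    have h2 : n 1 = 0 ∨ n 1 = 1 := by omega
    rcases h2 with h2 | h2
    · right; left
      refine ⟨rfl, ?_⟩
      funext j
      fin_cases j
      · show n 0 = 3
        omega
      · exact h2
    · right; right; left
      refine ⟨rfl, ?_⟩
      funext j
      fin_cases j
      · show n 0 = 2
        omega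
      · exact h2
  · rw [Fin.sum_univ_three] at h5
    have h1 : n 1 ≤ n 0 := hn (by decide)
    have h1' : n 2 ≤ n 1 := hn (by decide)
    have h2 : n 1 = 0 ∨ n 1 = 1 := by omega
    rcases h2 with h2 | h2
    · right; right; right; left
      refine ⟨rfl, ?_⟩
      funext j
      fin_cases j
      · show n 0 = 2
        omega
      · exact h2
      · show n 2 = 0
        omega
    · right; right; right; right; left
      refine ⟨rfl, ?_⟩
      funext j
      fin_cases j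
      · show n 0 = 1
        omega
      · exact h2
      · show n 2 = 0
        omega
  · rw [Fin.sum_univ_four] at h5
    have h1 : n 1 ≤ n 0 := hn (by decide)
    have h1' : n 2 ≤ n 1 := hn (by decide)
    have h1'' : n 3 ≤ n 2 := hn (by decide)
    right; right; right; right; right
    refine ⟨rfl, ?_⟩
    funext j
    fin_cases j
    · show n 0 = 1
      omega
    · show n 1 = 0
      omega
    · show n 2 = 0
      omega
    · show n 3 = 0
      omega
  · exfalso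
    rw [Fin.sum_univ_five] at h5
    apply hj0
    fin_cases j0
    · show n 0 = 0
      omega
    · show n 1 = 0
      omega
    · show n 2 = 0
      omega
    · show n 3 = 0
      omega
    · show n 4 = 0
      omega

/-- The five coordinates in each of the cases. -/
theorem exists_six {K : Type*} [Field K]
    {r : ℕ} (n : Fin r → ℕ) (hn : Antitone n) (h5 : ∑ j, (n j + 1) = 5) (h0 : ∃ j, n j ≠ 0)
    (D : Derivation K (MvPolynomial (Σ j, Fin (n j + 1)) K)
      (MvPolynomial (Σ j, Fin (n j + 1)) K))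
    (hD : ∀ (j : Fin r) (i : ℕ) (hi : i + 1 < n j + 1),
      D (X ⟨j, ⟨i, Nat.lt_of_succ_lt hi⟩⟩) = ((i : K) + 1) • X ⟨j, ⟨i + 1, hi⟩⟩)
    (hD' : ∀ j : Fin r, D (X ⟨j, Fin.last (n j)⟩) = 0) :
    ∃ φ : Fin 5 ≃ Σ j, Fin (n j + 1), SixCases (fun i => X (φ i))
      (fun i => 2 * (((φ i).2 : ℕ) : ℤ) - n (φ i).1) D := by
  have h0K : ((0 : ℕ) : K) + 1 = 1 := by norm_num
  have h1K : ((1 : ℕ) : K) + 1 = 2 := by norm_num
  rcases partitions n hn h5 h0 with ⟨h, h1⟩ | ⟨h, h1⟩ | ⟨h, h1⟩ | ⟨h, h1⟩ | ⟨h, h1⟩ | ⟨h, h1⟩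
  · subst h
    subst h1
    refine ⟨Equiv.ofBijective ![⟨0, 0⟩, ⟨0, 1⟩, ⟨0, 2⟩, ⟨0, 3⟩, ⟨0, 4⟩] (by decide), ?_⟩
    left
    refine ⟨⟨by decide, by decide, by decide, by decide, by decide⟩, ?_, ?_⟩
    · have := hD 0 0 (by decide)
      rw [h0K, one_smul] at this
      exact this
    · have := hD 0 1 (by decide)
      rw [h1K] at this
      exact this
  · subst h
    subst h1
    refine ⟨Equiv.ofBijective ![⟨0, 0⟩, ⟨0, 1⟩, ⟨0, 2⟩, ⟨0, 3⟩, ⟨1, 0⟩] (by decide), ?_⟩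
    right; left
    refine ⟨⟨by decide, by decide, by decide, by decide, by decide⟩, ?_, ?_⟩
    · have := hD 0 0 (by decide)
      rw [h0K, one_smul] at this
      exact this
    · have := hD 0 1 (by decide)
      rw [h1K] at this
      exact this
  · subst h
    subst h1
    refine ⟨Equiv.ofBijective ![⟨0, 0⟩, ⟨0, 1⟩, ⟨0, 2⟩, ⟨1, 0⟩, ⟨1, 1⟩] (by decide), ?_⟩
    right; right; left
    refine ⟨⟨by decide, by decide, by decide, by decide, by decide⟩, ?_, ?_, ?_, ?_, ?_⟩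
    · have := hD 0 0 (by decide)
      rw [h0K, one_smul] at this
      exact this
    · have := hD 0 1 (by decide)
      rw [h1K] at this
      exact this
    · exact hD' 0
    · have := hD 1 0 (by decide)
      rw [h0K, one_smul] at this
      exact this
    · exact hD' 1
  · subst h
    subst h1
    refine ⟨Equiv.ofBijective ![⟨0, 0⟩, ⟨0, 1⟩, ⟨0, 2⟩, ⟨1, 0⟩, ⟨2, 0⟩] (by decide), ?_⟩
    right; right; right; left
    exact ⟨by decide, by decide, by decide, by decide, by decide⟩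
  · subst h
    subst h1
    refine ⟨Equiv.ofBijective ![⟨0, 0⟩, ⟨0, 1⟩, ⟨1, 0⟩, ⟨1, 1⟩, ⟨2, 0⟩] (by decide), ?_⟩
    right; right; right; right; left
    refine ⟨?_, ?_, ?_, ?_, ?_⟩
    · have := hD 0 0 (by decide)
      rw [h0K, one_smul] at this
      exact this
    · exact hD' 0
    · have := hD 1 0 (by decide)
      rw [h0K, one_smul] at this
      exact this
    · exact hD' 1
    · exact hD' 2
  · subst h
    subst h1
    refine ⟨Equiv.ofBijective ![⟨0, 0⟩, ⟨0, 1⟩, ⟨1, 0⟩, ⟨2, 0⟩, ⟨3, 0⟩] (by decide), ?_⟩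
    right; right; right; right; right
    refine ⟨?_, ?_, ?_, ?_, ?_⟩
    · have := hD 0 0 (by decide)
      rw [h0K, one_smul] at this
      exact this
    · exact hD' 0
    · exact hD' 1
    · exact hD' 2
    · exact hD' 3

theorem main_rep {K : Type*} [Field K] [CharZero K] [IsAlgClosed K]
    {r : ℕ} (n : Fin r → ℕ) (hn : Antitone n) (h5 : ∑ j, (n j + 1) = 5) (h0 : ∃ j, n j ≠ 0)
    (M : Type*) [AddCommGroup M] [Module (MvPolynomial (Σ j, Fin (n j + 1)) K) M]
    [Module.Finite (MvPolynomial (Σ j, Fin (n j + 1)) K) M]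
    [Module.IsReflexive (MvPolynomial (Σ j, Fin (n j + 1)) K) M]
    (hrank : Module.finrank (MvPolynomial (Σ j, Fin (n j + 1)) K) M = 2)
    (hfree : ∀ (p : Ideal (MvPolynomial (Σ j, Fin (n j + 1)) K)) [p.IsPrime],
      (∃ i, (X i : MvPolynomial (Σ j, Fin (n j + 1)) K) ∉ p) →
        Module.Free (Localization.AtPrime p) (LocalizedModule p.primeCompl M))
    (𝓜 : ℤ × ℤ → AddSubgroup M) [DirectSum.Decomposition 𝓜]
    [SetLike.GradedSMul (weightedHomogeneousSubmodule K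
      (fun i : Σ j, Fin (n j + 1) => ((1 : ℤ), 2 * ((i.2 : ℕ) : ℤ) - n i.1))) 𝓜]
    (D : Derivation K (MvPolynomial (Σ j, Fin (n j + 1)) K)
      (MvPolynomial (Σ j, Fin (n j + 1)) K))
    (hD : ∀ (j : Fin r) (i : ℕ) (hi : i + 1 < n j + 1),
      D (X ⟨j, ⟨i, Nat.lt_of_succ_lt hi⟩⟩) = ((i : K) + 1) • X ⟨j, ⟨i + 1, hi⟩⟩)
    (hD' : ∀ j : Fin r, D (X ⟨j, Fin.last (n j)⟩) = 0)
    (e : M →+ M)
    (he : ∀ (f : MvPolynomial (Σ j, Fin (n j + 1)) K) (m : M), e (f • m) = D f • m + f • e m)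
    (hdeg : ∀ d u, ∀ m ∈ 𝓜 (d, u), e m ∈ 𝓜 (d, u + 2)) :
    ∃ (b : Module.Basis (Fin 2) (MvPolynomial (Σ j, Fin (n j + 1)) K) M) (g : Fin 2 → ℤ × ℤ),
      ∀ k, b k ∈ 𝓜 (g k) := by
  classical
  have hDE : ∀ i, (mkDerivation K (X : (Σ j, Fin (n j + 1)) →
      MvPolynomial (Σ j, Fin (n j + 1)) K)) (D (X i)) = D (X i) := by
    rintro ⟨j, i, hi⟩
    by_cases h : i + 1 < n j + 1
    · rw [hD j i h, Derivation.map_smul, mkDerivation_X]
    · have h1 : (⟨i, hi⟩ : Fin (n j + 1)) = Fin.last (n j) := by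
        apply Fin.ext
        show i = n j
        omega
      rw [h1, hD' j, map_zero]
  obtain ⟨φ, hφ⟩ := exists_six n hn h5 h0 D hD hD'
  exact main_cases φ M hrank (fun p _ => hfree p)
    (fun i : Σ j, Fin (n j + 1) => 2 * ((i.2 : ℕ) : ℤ) - n i.1) 𝓜 D hDE e he hdeg hφ

end Pool.Agent.Lib.MP_745d3a_ag.PF
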