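import Pool.Agent.Lib.MP_745d3a_ag.PFFin

/-!
Rank two modules with an action of a Borel subgroup of SL_2: definitions.
-/

set_option autoImplicit false

open MvPolynomial

namespace Pool.Agent.Lib.MP_745d3a_ag.PF

/-- `μ₁, μ₂` is a basis after inverting `x₀`. -/
structure Fr {S M : Type*} [CommRing S] [AddCommGroup M] [Module S M] (x₀ : S) (k : ℕ)
    (μ₁ μ₂ : M) : Prop where
  ind : ∀ a b : S, a • μ₁ + b • μ₂ = 0 → a = 0 ∧ b = 0
  span : ∀ m : M, ∃ a b : S, x₀ ^ k • m = a • μ₁ + b • μ₂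

/-- A bihomogeneous basis after inverting `x₀`, with equal degrees. -/
structure BFrame {K S M : Type*} [Field K] [CommRing S] [AddCommGroup M] [Module K M]
    [Module S M] (x₀ : S) (ε η : M →ₗ[K] M) (μ₁ μ₂ : M) (k : ℕ) (d u₁ u₂ : ℤ) : Prop where
  fr : Fr x₀ k μ₁ μ₂
  e₁ : ε μ₁ = (d : K) • μ₁
  e₂ : ε μ₂ = (d : K) • μ₂
  h₁ : η μ₁ = (u₁ : K) • μ₁
  h₂ : η μ₂ = (u₂ : K) • μ₂

/-- A rank two module with its grading `ε`, weight operator `η` and raising operator `e`. -/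
structure BSys {K S ι M : Type*} [Field K] [CommRing S] [Algebra K S] [AddCommGroup M] [Module K M]
    [Module S M] [IsScalarTower K S M] (x : ι → S) (w : ι → ℤ) (E H D : Derivation K S S)
    (ε η e : M →ₗ[K] M) : Prop where
  cx : Coord K x
  eu : IsEuler x E
  wt : ∀ i, H (x i) = (w i : K) • x i
  cE : IsConn E ε
  dE : Diag ε
  cH : IsConn H η
  dH : Diag η
  comm : ∀ m, ε (η m) = η (ε m)
  cD : IsConn D e
  degE : ∀ m, ε (e m) = e (ε m)
  degH : ∀ m, η (e m) = e (η m) + (2 : K) • e m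
  ED : ∀ a, E (D a) = D (E a)
  nil : ∀ m, ∃ N : ℕ, (e ^ N) m = 0
  bun : Bun x M

section basic

variable {K S ι M : Type*} [Field K] [CommRing S] [Algebra K S] [AddCommGroup M] [Module K M]
  [Module S M] [IsScalarTower K S M] {x : ι → S} {w : ι → ℤ} {E H D : Derivation K S S}
  {ε η e : M →ₗ[K] M}

omit [Algebra K S] in
lemma Fr.swap {x₀ : S} {k : ℕ} {μ₁ μ₂ : M} (h : Fr x₀ k μ₁ μ₂) : Fr x₀ k μ₂ μ₁ where
  ind a b hab := by
    have := h.ind b a (by rw [add_comm]; exact hab)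
    exact ⟨this.2, this.1⟩
  span m := by
    obtain ⟨a, b, hab⟩ := h.span m
    exact ⟨b, a, by rw [hab, add_comm]⟩

lemma BFrame.swap {x₀ : S} {k : ℕ} {μ₁ μ₂ : M} {d u₁ u₂ : ℤ}
    (h : BFrame x₀ ε η μ₁ μ₂ k d u₁ u₂) : BFrame x₀ ε η μ₂ μ₁ k d u₂ u₁ :=
  ⟨h.fr.swap, h.e₂, h.e₁, h.h₂, h.h₁⟩

end basic

end Pool.Agent.Lib.MP_745d3a_ag.PF
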