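import Pool.Agent.Lib.MP_745d3a_ag.BS.Defs

/-!
Elements of given degree and weight in the polynomial ring in five variables.
-/

set_option autoImplicit false

open MvPolynomial

namespace Pool.Agent.Lib.MP_745d3a_ag.PF

section gen

variable {K S ι : Type*} [Field K] [CharZero K] [CommRing S] [Algebra K S] {x : ι → S}

omit [CharZero K] in
lemma b7a_mono (w : ι → ℤ) (m : ι →₀ ℕ) (c : K) :
    mkDerivation K (fun i => (w i : K) • (X i : MvPolynomial ι K)) (monomial m c) =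
      ((m.sum fun i k => (k : ℤ) * w i : ℤ) : K) • monomial m c := by
  classical
  rw [mkDerivation_monomial, Finsupp.smul_sum]
  have h : ∀ i ∈ m.support, c • (monomial (m - Finsupp.single i 1) ((m i : ℕ) : K) •
      ((w i : K) • (X i : MvPolynomial ι K))) = (((m i : ℕ) : K) * (w i : K)) • monomial m c := by
    intro i hi
    have hs : m - Finsupp.single i 1 + Finsupp.single i 1 = m := by
      apply tsub_add_cancel_of_le
      rw [Finsupp.single_le_iff]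
      exact Nat.one_le_iff_ne_zero.mpr (Finsupp.mem_support_iff.mp hi)
    rw [smul_eq_mul, mul_smul_comm, X, monomial_mul, hs, mul_one, smul_monomial, smul_monomial,
      smul_monomial]
    congr 1
    simp only [smul_eq_mul]
    ring
  unfold Finsupp.sum
  rw [Finset.sum_congr rfl h, ← Finset.sum_smul]
  congr 1
  push_cast
  rfl

/-- The operator `T = hx.equiv.symm ∘ H ∘ hx.equiv` on `MvPolynomial ι K` is
the derivation `X i ↦ (w i) X i` (`mkDerivation`), it multiplies `monomial m c` by `∑ m i * w i`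
(induction, or `MvPolynomial.mkDerivation_monomial`), so
`coeff m (T p) = (∑ m i * w i) * coeff m p` (`MvPolynomial.induction_on'`). Compare the
coefficients in `T p = r p`, `p = hx.equiv.symm a`; `K` has characteristic zero. -/
lemma wt_coeff (hx : Coord K x) (w : ι → ℤ) {H : Derivation K S S}
    (hH : ∀ i, H (x i) = (w i : K) • x i) {a : S} {r : ℤ} (ha : H a = (r : K) • a)
    (m : ι →₀ ℕ) (hm : coeff m (hx.equiv.symm a) ≠ 0) :
    (m.sum fun i k => (k : ℤ) * w i) = r := by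
  classical
  have h1 : H = hx.der (fun i => (w i : K) • x i) :=
    hx.der_ext fun i => by rw [hH, hx.der_x]
  have h2 : hx.equiv.symm (H a) =
      mkDerivation K (fun i => (w i : K) • (X i : MvPolynomial ι K)) (hx.equiv.symm a) := by
    rw [h1]
    show hx.equiv.symm (hx.equiv (mkDerivation K (fun i => hx.equiv.symm ((w i : K) • x i))
      (hx.equiv.symm a))) = _
    rw [AlgEquiv.symm_apply_apply]
    congr 2
    funext i
    rw [map_smul, hx.symm_x]
  have h3 : ∀ p : MvPolynomial ι K, coeff m (mkDerivation K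
      (fun i => (w i : K) • (X i : MvPolynomial ι K)) p) =
      ((m.sum fun i k => (k : ℤ) * w i : ℤ) : K) * coeff m p := by
    intro p
    induction p using MvPolynomial.induction_on' with
    | monomial u c =>
      rw [b7a_mono, coeff_smul, smul_eq_mul, coeff_monomial]
      by_cases hu : u = m
      · rw [hu]
      · simp [hu]
    | add p q hp hq => rw [map_add, coeff_add, coeff_add, hp, hq, mul_add]
  have h4 := h3 (hx.equiv.symm a)
  rw [← h2, ha, map_smul, coeff_smul, smul_eq_mul] at h4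
  have h5 := mul_right_cancel₀ hm h4
  exact (Int.cast_injective h5).symm

end gen

section five

variable {K S : Type*} [Field K] [CharZero K] [CommRing S] [Algebra K S] {x : Fin 5 → S}
  {E H : Derivation K S S}

lemma b7_key (hx : Coord K x) (hE : IsEuler x E) (w : Fin 5 → ℤ)
    (hH : ∀ i, H (x i) = (w i : K) • x i) {a : S} {n r : ℤ}
    (ha : E a = (n : K) • a) (hb : H a = (r : K) • a)
    (m : Fin 5 →₀ ℕ) (hm : coeff m (hx.equiv.symm a) ≠ 0) :
    (m 0 + m 1 + m 2 + m 3 + m 4 : ℤ) = n ∧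
      (m 0 * w 0 + m 1 * w 1 + m 2 * w 2 + m 3 * w 3 + m 4 * w 4 : ℤ) = r := by
  have h1 := wt_coeff hx (fun _ => 1) (H := E) (fun i => by rw [hE i]; simp) ha m hm
  have h2 := wt_coeff hx w hH hb m hm
  rw [Finsupp.sum_fintype _ _ (by intro i; simp), Fin.sum_univ_five] at h1 h2
  constructor
  · rw [← h1]; ring
  · rw [← h2]

omit [CharZero K] in
lemma b7_expand (hx : Coord K x) (a : S) (T : Finset (Fin 5 →₀ ℕ))
    (hT : ∀ m, coeff m (hx.equiv.symm a) ≠ 0 → m ∈ T) :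
    a = ∑ m ∈ T, coeff m (hx.equiv.symm a) •
      (x 0 ^ m 0 * x 1 ^ m 1 * x 2 ^ m 2 * x 3 ^ m 3 * x 4 ^ m 4) := by
  classical
  have h1 : hx.equiv.symm a = ∑ m ∈ T, monomial m (coeff m (hx.equiv.symm a)) := by
    conv_lhs => rw [(hx.equiv.symm a).as_sum]
    refine Finset.sum_subset ?_ ?_
    · intro m hm
      exact hT m (mem_support_iff.mp hm)
    · intro m _ hm
      rw [notMem_support_iff.mp hm, map_zero]
  have h2 : a = hx.equiv (hx.equiv.symm a) := (AlgEquiv.apply_symm_apply _ _).symm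
  conv_lhs => rw [h2, h1, map_sum]
  refine Finset.sum_congr rfl fun m _ => ?_
  show aeval x (monomial m _) = _
  rw [aeval_monomial, Finsupp.prod_fintype _ _ (by intro i; simp), Fin.prod_univ_five,
    Algebra.smul_def]

omit [CharZero K] in
lemma b7_ext (m m' : Fin 5 →₀ ℕ) (h0 : m 0 = m' 0) (h1 : m 1 = m' 1) (h2 : m 2 = m' 2)
    (h3 : m 3 = m' 3) (h4 : m 4 = m' 4) : m = m' := by
  ext i
  fin_cases i
  · exact h0
  · exact h1
  · exact h2
  · exact h3
  · exact h4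

/-- All monomials `m` of `a` have `m 0 + ... + m 4 = k` and
`∑ m i * w i = k * w 0 + r`, so `∑ m i * (w i - w 0) = r` (`Finsupp.sum_fintype`,
`Fin.sum_univ_five`), `linear_combination`/`nlinarith`/`omega` after expanding. (1) `r < 0` is
impossible. (2) for `r = 0` only `m = single 0 k` is possible, so
`a = hx.equiv (monomial (single 0 k) c) = c • x 0 ^ k`. -/
lemma form_zero (hx : Coord K x) (hE : IsEuler x E) (w : Fin 5 → ℤ)
    (hH : ∀ i, H (x i) = (w i : K) • x i) (h1 : w 0 < w 1) (h2 : w 0 < w 2) (h3 : w 0 < w 3)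
    (h4 : w 0 < w 4) {a : S} {k : ℕ} {r : ℤ} (ha : E a = (k : K) • a)
    (hb : H a = ((k * w 0 + r : ℤ) : K) • a) :
    (r < 0 → a = 0) ∧ (r = 0 → ∃ c : K, a = c • x 0 ^ k) := by
  have key : ∀ m : Fin 5 →₀ ℕ, coeff m (hx.equiv.symm a) ≠ 0 →
      (m 0 + m 1 + m 2 + m 3 + m 4 : ℤ) = k ∧
      (m 1 * (w 1 - w 0) + m 2 * (w 2 - w 0) + m 3 * (w 3 - w 0) + m 4 * (w 4 - w 0) : ℤ) = r := by
    intro m hm
    obtain ⟨g1, g2⟩ := b7_key hx hE w hH (n := (k : ℤ)) (by rw [ha]; simp) hb m hm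
    refine ⟨g1, ?_⟩
    linear_combination g2 - w 0 * g1
  have pos : ∀ m : Fin 5 →₀ ℕ, (m 1 + m 2 + m 3 + m 4 : ℤ) ≤
      m 1 * (w 1 - w 0) + m 2 * (w 2 - w 0) + m 3 * (w 3 - w 0) + m 4 * (w 4 - w 0) := by
    intro m
    have e1 : (m 1 : ℤ) ≤ m 1 * (w 1 - w 0) := le_mul_of_one_le_right (by positivity) (by omega)
    have e2 : (m 2 : ℤ) ≤ m 2 * (w 2 - w 0) := le_mul_of_one_le_right (by positivity) (by omega)
    have e3 : (m 3 : ℤ) ≤ m 3 * (w 3 - w 0) := le_mul_of_one_le_right (by positivity) (by omega)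
    have e4 : (m 4 : ℤ) ≤ m 4 * (w 4 - w 0) := le_mul_of_one_le_right (by positivity) (by omega)
    linarith
  constructor
  · intro hr
    rw [b7_expand hx a ∅ ?_, Finset.sum_empty]
    intro m hm
    exfalso
    have g := (key m hm).2
    have g' := pos m
    omega
  · intro hr
    have hT : ∀ m : Fin 5 →₀ ℕ, coeff m (hx.equiv.symm a) ≠ 0 →
        m ∈ ({Finsupp.single 0 k} : Finset (Fin 5 →₀ ℕ)) := by
      intro m hm
      obtain ⟨g1, g2⟩ := key m hm
      have g' := pos m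
      rw [Finset.mem_singleton]
      apply b7_ext <;> simp <;> omega
    have := b7_expand hx a _ hT
    rw [Finset.sum_singleton] at this
    refine ⟨coeff (Finsupp.single 0 k) (hx.equiv.symm a), this.trans ?_⟩
    simp

lemma b7c_mon (hx : Coord K x) (hE : IsEuler x E) (w : Fin 5 → ℤ)
    (hH : ∀ i, H (x i) = (w i : K) • x i) (h1 : w 1 = w 0 + 2) (h2 : w 0 + 3 ≤ w 2)
    (h3 : w 0 + 3 ≤ w 3) (h4 : w 0 + 3 ≤ w 4) {a : S} {k : ℕ} {r : ℤ}
    (ha : E a = ((k + 1 : ℕ) : K) • a) (hb : H a = (((k + 1 : ℕ) * w 0 + r : ℤ) : K) • a)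
    (m : Fin 5 →₀ ℕ) (hm : coeff m (hx.equiv.symm a) ≠ 0) :
    (r ≠ 1) ∧ (r = 2 → m = Finsupp.single 0 k + Finsupp.single 1 1) := by
  have e1 := wt_coeff hx (fun _ => (1 : ℤ)) (H := E) (r := ((k + 1 : ℕ) : ℤ))
    (by intro i; rw [hE i, Int.cast_one, one_smul]) (by rw [ha, Int.cast_natCast]) m hm
  have e2 := wt_coeff hx w hH hb m hm
  rw [Finsupp.sum_fintype _ _ (fun i => by simp), Fin.sum_univ_five] at e1 e2
  simp only [mul_one] at e1
  have g2 : (m 2 : ℤ) * 3 ≤ m 2 * (w 2 - w 0) :=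
    mul_le_mul_of_nonneg_left (by omega) (by positivity)
  have g3 : (m 3 : ℤ) * 3 ≤ m 3 * (w 3 - w 0) :=
    mul_le_mul_of_nonneg_left (by omega) (by positivity)
  have g4 : (m 4 : ℤ) * 3 ≤ m 4 * (w 4 - w 0) :=
    mul_le_mul_of_nonneg_left (by omega) (by positivity)
  have e3 : (m 1 : ℤ) * 2 + (m 2 : ℤ) * (w 2 - w 0) + m 3 * (w 3 - w 0) + m 4 * (w 4 - w 0) = r := by
    rw [h1] at e2
    linear_combination e2 - w 0 * e1
  have hsmall : r ≤ 2 → m 2 = 0 ∧ m 3 = 0 ∧ m 4 = 0 := by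
    intro hr
    generalize (m 2 : ℤ) * (w 2 - w 0) = y2 at g2 e3
    generalize (m 3 : ℤ) * (w 3 - w 0) = y3 at g3 e3
    generalize (m 4 : ℤ) * (w 4 - w 0) = y4 at g4 e3
    omega
  constructor
  · rintro rfl
    obtain ⟨p2, p3, p4⟩ := hsmall (by norm_num)
    rw [p2, p3, p4] at e3
    simp only [Nat.cast_zero, zero_mul, add_zero] at e3
    omega
  rintro rfl
  obtain ⟨p2, p3, p4⟩ := hsmall le_rfl
  rw [p2, p3, p4] at e3
  simp only [Nat.cast_zero, zero_mul, add_zero] at e3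
  have p1 : m 1 = 1 := by omega
  have p0 : m 0 = k := by
    rw [p1, p2, p3, p4] at e1
    push_cast at e1
    omega
  ext i
  fin_cases i
  · simp [p0]
  · simp [p1]
  · simp [p2]
  · simp [p3]
  · simp [p4]

/-- (1) for `r = 1` there is no monomial (all
`w i - w 0 ≥ 2` for `i ≠ 0`). (2) for `r = 2` only `m = single 0 k + single 1 1`. -/
lemma form_two (hx : Coord K x) (hE : IsEuler x E) (w : Fin 5 → ℤ)
    (hH : ∀ i, H (x i) = (w i : K) • x i) (h1 : w 1 = w 0 + 2) (h2 : w 0 + 3 ≤ w 2)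
    (h3 : w 0 + 3 ≤ w 3) (h4 : w 0 + 3 ≤ w 4) {a : S} {k : ℕ} {r : ℤ}
    (ha : E a = ((k + 1 : ℕ) : K) • a) (hb : H a = (((k + 1 : ℕ) * w 0 + r : ℤ) : K) • a) :
    (r = 1 → a = 0) ∧ (r = 2 → ∃ c : K, a = c • (x 0 ^ k * x 1)) := by
  classical
  have key := b7c_mon hx hE w hH h1 h2 h3 h4 ha hb
  constructor
  · intro hr
    have h5 : hx.equiv.symm a = 0 := by
      ext m
      rw [coeff_zero]
      by_contra hm
      exact (key m hm).1 hr
    have h6 := congrArg hx.equiv h5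
    rwa [AlgEquiv.apply_symm_apply, map_zero] at h6
  · intro hr
    set M₀ : Fin 5 →₀ ℕ := Finsupp.single 0 k + Finsupp.single 1 1 with hM₀
    set c : K := coeff M₀ (hx.equiv.symm a) with hc
    refine ⟨c, ?_⟩
    have h5 : hx.equiv.symm a = c • ((X 0 : MvPolynomial (Fin 5) K) ^ k * X 1) := by
      have h7 : c • ((X 0 : MvPolynomial (Fin 5) K) ^ k * X 1) = monomial M₀ c := by
        rw [X_pow_eq_monomial, X, monomial_mul, smul_monomial, smul_eq_mul, mul_one, mul_one]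
      rw [h7]
      ext m
      rw [coeff_monomial]
      by_cases hm : M₀ = m
      · rw [if_pos hm, hc, hm]
      · rw [if_neg hm]
        by_contra h8
        exact hm ((key m h8).2 hr).symm
    have h6 := congrArg hx.equiv h5
    rw [AlgEquiv.apply_symm_apply, map_smul, map_mul, map_pow, hx.equiv_X, hx.equiv_X] at h6
    exact h6

omit [CharZero K] in
lemma b7d_expand (hx : Coord K x) (a : S) (F : Finset (Fin 5 →₀ ℕ))
    (h : ∀ m, coeff m (hx.equiv.symm a) ≠ 0 → m ∈ F) :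
    a = ∑ m ∈ F, coeff m (hx.equiv.symm a) • ∏ i, x i ^ m i := by
  classical
  have h1 : hx.equiv.symm a = ∑ m ∈ F, monomial m (coeff m (hx.equiv.symm a)) := by
    conv_lhs => rw [← MvPolynomial.support_sum_monomial_coeff (hx.equiv.symm a)]
    refine Finset.sum_subset (fun m hm => h m (MvPolynomial.mem_support_iff.mp hm)) ?_
    intro m _ hm
    rw [MvPolynomial.notMem_support_iff.mp hm, MvPolynomial.monomial_zero]
  have h2 : a = hx.equiv (hx.equiv.symm a) := (AlgEquiv.apply_symm_apply _ _).symm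
  conv_lhs => rw [h2, h1]
  rw [map_sum]
  refine Finset.sum_congr rfl fun m _ => ?_
  rw [MvPolynomial.monomial_eq, map_mul, Finsupp.prod_fintype _ _ (fun i => pow_zero _), map_prod]
  have h3 : hx.equiv (C (coeff m (hx.equiv.symm a))) =
      algebraMap K S (coeff m (hx.equiv.symm a)) := by
    rw [← MvPolynomial.algebraMap_eq]
    exact AlgEquiv.commutes _ _
  rw [h3, Algebra.smul_def]
  congr 1
  refine Finset.prod_congr rfl fun i _ => ?_
  rw [map_pow, hx.equiv_X]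

/-- the degree and the weight of the monomials -/
lemma b7d_wt (hx : Coord K x) (hE : IsEuler x E) (w : Fin 5 → ℤ)
    (hH : ∀ i, H (x i) = (w i : K) • x i) {a : S} {n : ℕ} {r : ℤ} (ha : E a = (n : K) • a)
    (hb : H a = (r : K) • a) (m : Fin 5 →₀ ℕ) (hm : coeff m (hx.equiv.symm a) ≠ 0) :
    m 0 + m 1 + m 2 + m 3 + m 4 = n ∧
      (m 0 : ℤ) * w 0 + m 1 * w 1 + m 2 * w 2 + m 3 * w 3 + m 4 * w 4 = r := by
  have h1 := wt_coeff hx (fun _ => (1 : ℤ)) (H := E) (r := (n : ℤ)) (fun i => by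
    rw [Int.cast_one, one_smul]
    exact hE i) (by
      rw [ha]
      push_cast
      rfl) m hm
  have h2 := wt_coeff hx w hH hb m hm
  rw [Finsupp.sum_fintype _ _ (fun i => by simp), Fin.sum_univ_five] at h1 h2
  refine ⟨?_, h2⟩
  have h3 : ((m 0 + m 1 + m 2 + m 3 + m 4 : ℕ) : ℤ) = n := by
    push_cast
    linarith
  exact_mod_cast h3

/-- Here `w i - w 0 = 0, 2, 4, 1, 3`, so
`2 m 1 + 4 m 2 + m 3 + 3 m 4 = r`. (1) for `r = 2`: `(m 1, ..., m 4)` is `(1,0,0,0)` or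
`(0,0,2,0)`. -/
lemma form_two' (hx : Coord K x) (hE : IsEuler x E) (w : Fin 5 → ℤ)
    (hH : ∀ i, H (x i) = (w i : K) • x i) (h1 : w 1 = w 0 + 2) (h2 : w 2 = w 0 + 4)
    (h3 : w 3 = w 0 + 1) (h4 : w 4 = w 0 + 3) {a : S} {k : ℕ}
    (ha : E a = ((k + 2 : ℕ) : K) • a) (hb : H a = (((k + 2 : ℕ) * w 0 + 2 : ℤ) : K) • a) :
    ∃ c₁ c₂ : K, a = x 0 ^ k * (c₁ • (x 0 * x 1) + c₂ • x 3 ^ 2) := by
  classical
  set mA : Fin 5 →₀ ℕ := Finsupp.equivFunOnFinite.symm ![k + 1, 1, 0, 0, 0] with hmA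
  set mB : Fin 5 →₀ ℕ := Finsupp.equivFunOnFinite.symm ![k, 0, 0, 2, 0] with hmB
  have hmem : ∀ m, coeff m (hx.equiv.symm a) ≠ 0 → m ∈ ({mA, mB} : Finset (Fin 5 →₀ ℕ)) := by
    intro m hm
    obtain ⟨e1, e2⟩ := b7d_wt hx hE w hH (n := k + 2) (r := (k + 2 : ℕ) * w 0 + 2) ha hb m hm
    have e3 : (m 0 : ℤ) + m 1 + m 2 + m 3 + m 4 = k + 2 := by exact_mod_cast e1
    have e4 : 2 * (m 1 : ℤ) + 4 * m 2 + m 3 + 3 * m 4 = 2 := by
      rw [h1, h2, h3, h4] at e2
      push_cast at e2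
      linear_combination e2 - w 0 * e3
    have e5 : 2 * m 1 + 4 * m 2 + m 3 + 3 * m 4 = 2 := by exact_mod_cast e4
    rw [Finset.mem_insert, Finset.mem_singleton]
    have e6 : m 2 = 0 := by omega
    have e7 : m 4 = 0 := by omega
    have e8 : (m 1 = 1 ∧ m 3 = 0) ∨ (m 1 = 0 ∧ m 3 = 2) := by omega
    rcases e8 with ⟨e9, e10⟩ | ⟨e9, e10⟩
    · left
      have e11 : m 0 = k + 1 := by omega
      ext i
      fin_cases i
      · simpa [hmA] using e11
      · simpa [hmA] using e9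
      · simpa [hmA] using e6
      · simpa [hmA] using e10
      · simpa [hmA] using e7
    · right
      have e11 : m 0 = k := by omega
      ext i
      fin_cases i
      · simpa [hmB] using e11
      · simpa [hmB] using e9
      · simpa [hmB] using e6
      · simpa [hmB] using e10
      · simpa [hmB] using e7
  have hne : mA ≠ mB := by
    intro h
    have := DFunLike.congr_fun h 1
    simp [hmA, hmB] at this
  have hexp := b7d_expand hx a {mA, mB} hmem
  rw [Finset.sum_pair hne, Fin.prod_univ_five, Fin.prod_univ_five] at hexp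
  refine ⟨coeff mA (hx.equiv.symm a), coeff mB (hx.equiv.symm a), ?_⟩
  conv_lhs => rw [hexp]
  have hA : x 0 ^ mA 0 * x 1 ^ mA 1 * x 2 ^ mA 2 * x 3 ^ mA 3 * x 4 ^ mA 4 =
      x 0 ^ k * (x 0 * x 1) := by
    simp [hmA, pow_succ]
    ring
  have hB : x 0 ^ mB 0 * x 1 ^ mB 1 * x 2 ^ mB 2 * x 3 ^ mB 3 * x 4 ^ mB 4 =
      x 0 ^ k * x 3 ^ 2 := by
    simp [hmB]
  rw [hA, hB, mul_add, mul_smul_comm, mul_smul_comm]

/-- `2 m 1 + 4 m 2 + m 3 + 3 m 4 = 4`: `(m 1, ..., m 4)` is one of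
`(2,0,0,0)`, `(0,1,0,0)`, `(1,0,2,0)`, `(0,0,4,0)`, `(0,0,1,1)`. -/
lemma form_four' (hx : Coord K x) (hE : IsEuler x E) (w : Fin 5 → ℤ)
    (hH : ∀ i, H (x i) = (w i : K) • x i) (h1 : w 1 = w 0 + 2) (h2 : w 2 = w 0 + 4)
    (h3 : w 3 = w 0 + 1) (h4 : w 4 = w 0 + 3) {a : S} {k : ℕ}
    (ha : E a = ((k + 4 : ℕ) : K) • a) (hb : H a = (((k + 4 : ℕ) * w 0 + 4 : ℤ) : K) • a) :
    ∃ q₁ q₂ q₃ q₄ q₅ : K, a = x 0 ^ k * (q₁ • (x 0 ^ 2 * x 1 ^ 2) + q₂ • (x 0 ^ 3 * x 2) +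
      q₃ • (x 0 * x 1 * x 3 ^ 2) + q₄ • x 3 ^ 4 + q₅ • (x 0 ^ 2 * x 3 * x 4)) := by
  classical
  have key : ∀ m : Fin 5 →₀ ℕ, coeff m (hx.equiv.symm a) ≠ 0 →
      (m 0 + m 1 + m 2 + m 3 + m 4 : ℤ) = k + 4 ∧
      (2 * m 1 + 4 * m 2 + m 3 + 3 * m 4 : ℤ) = 4 := by
    intro m hm
    obtain ⟨g1, g2⟩ := b7_key hx hE w hH (n := ((k + 4 : ℕ) : ℤ)) (by rw [ha]; simp) hb m hm
    push_cast at g1 g2
    refine ⟨g1, ?_⟩
    rw [h1, h2, h3, h4] at g2
    linear_combination g2 - w 0 * g1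
  let f : Fin 5 → (Fin 5 →₀ ℕ) := ![Finsupp.single 0 (k + 2) + Finsupp.single 1 2,
    Finsupp.single 0 (k + 3) + Finsupp.single 2 1,
    Finsupp.single 0 (k + 1) + Finsupp.single 1 1 + Finsupp.single 3 2,
    Finsupp.single 0 k + Finsupp.single 3 4,
    Finsupp.single 0 (k + 2) + Finsupp.single 3 1 + Finsupp.single 4 1]
  have hf : Function.Injective f := by
    intro i j hij
    have e1 := DFunLike.congr_fun hij 1
    have e2 := DFunLike.congr_fun hij 2
    have e3 := DFunLike.congr_fun hij 3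
    fin_cases i <;> fin_cases j <;> simp [f] at e1 e2 e3 ⊢
  have hT : ∀ m : Fin 5 →₀ ℕ, coeff m (hx.equiv.symm a) ≠ 0 →
      m ∈ Finset.univ.image f := by
    intro m hm
    obtain ⟨g1, g2⟩ := key m hm
    rw [Finset.mem_image]
    have hc : (m 0 = k + 2 ∧ m 1 = 2 ∧ m 2 = 0 ∧ m 3 = 0 ∧ m 4 = 0) ∨
        (m 0 = k + 3 ∧ m 1 = 0 ∧ m 2 = 1 ∧ m 3 = 0 ∧ m 4 = 0) ∨
        (m 0 = k + 1 ∧ m 1 = 1 ∧ m 2 = 0 ∧ m 3 = 2 ∧ m 4 = 0) ∨
        (m 0 = k ∧ m 1 = 0 ∧ m 2 = 0 ∧ m 3 = 4 ∧ m 4 = 0) ∨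
        (m 0 = k + 2 ∧ m 1 = 0 ∧ m 2 = 0 ∧ m 3 = 1 ∧ m 4 = 1) := by
      have t2 : m 2 = 0 ∨ m 2 = 1 := by omega
      have t4 : m 4 = 0 ∨ m 4 = 1 := by omega
      have t1 : m 1 = 0 ∨ m 1 = 1 ∨ m 1 = 2 := by omega
      rcases t2 with t2 | t2 <;> rcases t4 with t4 | t4 <;> rcases t1 with t1 | t1 | t1 <;> omega
    rcases hc with ⟨z0, z1, z2, z3, z4⟩ | ⟨z0, z1, z2, z3, z4⟩ | ⟨z0, z1, z2, z3, z4⟩ |
      ⟨z0, z1, z2, z3, z4⟩ | ⟨z0, z1, z2, z3, z4⟩
    · exact ⟨0, Finset.mem_univ _, by apply b7_ext <;> simp [f, z0, z1, z2, z3, z4]⟩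
    · exact ⟨1, Finset.mem_univ _, by apply b7_ext <;> simp [f, z0, z1, z2, z3, z4]⟩
    · exact ⟨2, Finset.mem_univ _, by apply b7_ext <;> simp [f, z0, z1, z2, z3, z4]⟩
    · exact ⟨3, Finset.mem_univ _, by apply b7_ext <;> simp [f, z0, z1, z2, z3, z4]⟩
    · exact ⟨4, Finset.mem_univ _, by apply b7_ext <;> simp [f, z0, z1, z2, z3, z4]⟩
  have := b7_expand hx a _ hT
  rw [Finset.sum_image (fun i _ j _ hij => hf hij), Fin.sum_univ_five] at this
  refine ⟨coeff (f 0) (hx.equiv.symm a), coeff (f 1) (hx.equiv.symm a),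
    coeff (f 2) (hx.equiv.symm a), coeff (f 3) (hx.equiv.symm a),
    coeff (f 4) (hx.equiv.symm a), this.trans ?_⟩
  generalize coeff (f 0) (hx.equiv.symm a) = q₁
  generalize coeff (f 1) (hx.equiv.symm a) = q₂
  generalize coeff (f 2) (hx.equiv.symm a) = q₃
  generalize coeff (f 3) (hx.equiv.symm a) = q₄
  generalize coeff (f 4) (hx.equiv.symm a) = q₅
  simp only [Algebra.smul_def]
  simp [f]
  ring

end five

end Pool.Agent.Lib.MP_745d3a_ag.PF
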