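import Pool.Agent.Lib.MP_745d3a_ag.BS.Defs

/-!
From bigraded modules over the polynomial ring to connections and frames.
-/

set_option autoImplicit false

open MvPolynomial

namespace Pool.Agent.Lib.MP_745d3a_ag.PF

open Pool.Agent.Lib.MP_745d3a_ag (hom_induction eq_sum_comp exists_LB XB_of_LB)

variable {σ K M : Type*} [Fintype σ] [DecidableEq σ] [Field K] [AddCommGroup M]
  [Module (MvPolynomial σ K) M] [Module K M] [IsScalarTower K (MvPolynomial σ K) M]
  {w : σ → ℤ} (𝓜 : ℤ × ℤ → AddSubgroup M) [DirectSum.Decomposition 𝓜]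
  [SetLike.GradedSMul (weightedHomogeneousSubmodule K (fun i => ((1 : ℤ), w i))) 𝓜]

omit [Fintype σ] [DirectSum.Decomposition 𝓜] in
/-- Elements of the pieces are stable under scalars. -/
lemma b8a_smulK_mem (w : σ → ℤ)
    [SetLike.GradedSMul (weightedHomogeneousSubmodule K (fun i => ((1 : ℤ), w i))) 𝓜]
    (c : K) {g : ℤ × ℤ} {m : M} (hm : m ∈ 𝓜 g) : c • m ∈ 𝓜 g := by
  have h1 : (C c : MvPolynomial σ K) ∈
      weightedHomogeneousSubmodule K (fun i : σ => ((1 : ℤ), w i)) 0 := by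
    rw [mem_weightedHomogeneousSubmodule]
    exact isWeightedHomogeneous_C _ c
  have h2 : (C c : MvPolynomial σ K) • m ∈ 𝓜 ((0 : ℤ × ℤ) +ᵥ g) :=
    SetLike.GradedSMul.smul_mem h1 hm
  rw [zero_vadd] at h2
  rwa [show c • m = (C c : MvPolynomial σ K) • m by
    rw [← algebraMap_smul (MvPolynomial σ K) c m]; rfl]

omit [Fintype σ] [DirectSum.Decomposition 𝓜] [Module K M]
  [IsScalarTower K (MvPolynomial σ K) M] in
lemma b8a_X_smul_mem (w : σ → ℤ)
    [SetLike.GradedSMul (weightedHomogeneousSubmodule K (fun i => ((1 : ℤ), w i))) 𝓜]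
    (i : σ) {g : ℤ × ℤ} {m : M} (hm : m ∈ 𝓜 g) :
    (X i : MvPolynomial σ K) • m ∈ 𝓜 ((1, w i) + g) := by
  have h1 : (X i : MvPolynomial σ K) ∈
      weightedHomogeneousSubmodule K (fun i : σ => ((1 : ℤ), w i)) (1, w i) := by
    rw [mem_weightedHomogeneousSubmodule]
    exact isWeightedHomogeneous_X _ _ _
  exact SetLike.GradedSMul.smul_mem (A := weightedHomogeneousSubmodule K
    (fun i : σ => ((1 : ℤ), w i))) (B := 𝓜) h1 hm

/-- `v` is a sum of eigenvectors with integral eigenvalues. -/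
def b8aP {V : Type*} [AddCommGroup V] [Module K V] (T : V →ₗ[K] V) (v : V) : Prop :=
  ∃ (s : Finset ℤ) (f : ℤ → V), (∀ d, T (f d) = (d : K) • f d) ∧ v = ∑ d ∈ s, f d

lemma b8aP_eig {V : Type*} [AddCommGroup V] [Module K V] {T : V →ₗ[K] V} {v : V} {d : ℤ}
    (h : T v = (d : K) • v) : b8aP T v := by
  classical
  refine ⟨{d}, fun e => if e = d then v else 0, ?_, by simp⟩
  intro e
  by_cases he : e = d
  · subst he; simp [h]
  · simp [he]

lemma b8aP_zero {V : Type*} [AddCommGroup V] [Module K V] {T : V →ₗ[K] V} : b8aP T 0 :=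
  ⟨∅, fun _ => 0, by simp, by simp⟩

lemma b8aP_add {V : Type*} [AddCommGroup V] [Module K V] {T : V →ₗ[K] V} {v w : V}
    (hv : b8aP T v) (hw : b8aP T w) : b8aP T (v + w) := by
  classical
  obtain ⟨s, f, hf, rfl⟩ := hv
  obtain ⟨t, g, hg, rfl⟩ := hw
  refine ⟨s ∪ t, fun d => (if d ∈ s then f d else 0) + (if d ∈ t then g d else 0), ?_, ?_⟩
  · intro d
    rw [map_add, smul_add]
    congr 1
    · by_cases hd : d ∈ s
      · simp only [hd, if_true]; exact hf d
      · simp only [hd, if_false, map_zero, smul_zero]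
    · by_cases hd : d ∈ t
      · simp only [hd, if_true]; exact hg d
      · simp only [hd, if_false, map_zero, smul_zero]
  · rw [Finset.sum_add_distrib, Finset.sum_ite_mem, Finset.sum_ite_mem,
      Finset.inter_eq_right.mpr Finset.subset_union_left,
      Finset.inter_eq_right.mpr Finset.subset_union_right]

/-- The operator which multiplies the piece of index `g` by `φ g`, and its
properties. Adapt `smulK_mem`, `X_smul_mem`, `exists_gradOp`, `gradOp_conn`, `gradOp_diag` of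
PFFin.lean lines 169-261 (there the index group is `ℤ` and all variables have degree `1`; here
`X i • 𝓜 g ⊆ 𝓜 ((1, w i) + g)`). For `Diag`: group the finitely many components by the value of
`φ`; e.g. every `m ∈ 𝓜 g` is an eigenvector, sums of eigenvectors are sums over eigenvalues
(copy the private lemmas `D1P_*` of PFBun.lean lines 500-541). -/
lemma exists_gradOp₂ (φ : ℤ × ℤ →+ ℤ) :
    ∃ ε : M →ₗ[K] M, (∀ g, ∀ m ∈ 𝓜 g, ε m = (φ g : K) • m) ∧ Diag ε ∧
      ∀ T : Derivation K (MvPolynomial σ K) (MvPolynomial σ K),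
        (∀ i, T (X i) = (φ (1, w i) : K) • (X i : MvPolynomial σ K)) → IsConn T ε := by
  classical
  let ε₀ : M →+ M := (DirectSum.toAddMonoid (fun g : ℤ × ℤ =>
    ((DistribSMul.toAddMonoidHom M (φ g : K)).comp (𝓜 g).subtype))).comp
      (DirectSum.decomposeAddEquiv 𝓜).toAddMonoidHom
  have h1 : ∀ g, ∀ m ∈ 𝓜 g, ε₀ m = (φ g : K) • m := by
    intro g m hm
    show DirectSum.toAddMonoid _ (DirectSum.decompose 𝓜 m) = _
    rw [DirectSum.decompose_of_mem 𝓜 hm, DirectSum.toAddMonoid_of]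
    rfl
  let ε : M →ₗ[K] M := ⟨ε₀.toAddHom, by
    intro c m
    show ε₀ (c • m) = c • ε₀ m
    refine hom_induction 𝓜 (P := fun m => ε₀ (c • m) = c • ε₀ m) ?_ ?_ ?_ m
    · rw [smul_zero, map_zero, smul_zero]
    · intro d m hm
      rw [h1 d _ (b8a_smulK_mem 𝓜 w c hm), h1 d m hm, smul_comm]
    · intro m n hm hn
      rw [smul_add, map_add, hm, hn, map_add, smul_add]⟩
  have hε : ∀ g, ∀ m ∈ 𝓜 g, ε m = (φ g : K) • m := h1
  refine ⟨ε, hε, ?_, ?_⟩
  · intro v
    refine hom_induction 𝓜 (P := fun m => b8aP ε m) b8aP_zero ?_ (fun _ _ => b8aP_add) v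
    intro g m hm
    exact b8aP_eig (hε g m hm)
  · intro T hT
    have hX : ∀ (i : σ) (m : M), ε ((X i : MvPolynomial σ K) • m) =
        (φ (1, w i) : K) • ((X i : MvPolynomial σ K) • m) + (X i : MvPolynomial σ K) • ε m := by
      intro i m
      refine hom_induction 𝓜 (P := fun m => ε ((X i : MvPolynomial σ K) • m) =
        (φ (1, w i) : K) • ((X i : MvPolynomial σ K) • m) +
          (X i : MvPolynomial σ K) • ε m) ?_ ?_ ?_ m
      · simp
      · intro g m hm
        rw [hε _ _ (b8a_X_smul_mem 𝓜 w i hm), hε _ _ hm, map_add, Int.cast_add, add_smul,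
          smul_comm (φ g : K)]
      · intro m n hm hn
        simp only [smul_add, map_add, hm, hn]
        abel
    intro a
    induction a using MvPolynomial.induction_on with
    | C c =>
      intro m
      have h2 : (C c : MvPolynomial σ K) = algebraMap K _ c := rfl
      rw [h2, algebraMap_smul, algebraMap_smul, map_smul, Derivation.map_algebraMap, zero_smul,
        zero_add]
    | add p q hp hq =>
      intro m
      rw [add_smul, map_add, hp, hq, map_add, add_smul, add_smul]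
      abel
    | mul_X p i hp =>
      intro m
      have h3 : T (p * X i) • m = T p • ((X i : MvPolynomial σ K) • m) +
          p • ((φ (1, w i) : K) • ((X i : MvPolynomial σ K) • m)) := by
        rw [Derivation.leibniz, hT, add_smul, smul_eq_mul, smul_eq_mul, mul_smul, mul_smul,
          smul_assoc, smul_comm (X i) (T p) m]
        abel
      rw [mul_smul, hp, hX, h3, smul_add, mul_smul]
      abel

include w in
/-- Nilpotency. Let `C` be an upper bound of the `w i` (e.g.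
`∑ |w i|`). `bounded_below` (Graded.lean) with `φ (d, u) = C * d - u` gives `B` with
`B ≤ C * d - u` if `𝓜 (d, u)` has a nonzero element. For `m ∈ 𝓜 (d, u)` `(e ^ N) m` is in
`𝓜 (d, u + 2 N)`, so zero for large `N`. In general by `hom_induction` (the maximum of the two
exponents for a sum). -/
lemma graded_nil [Module.Finite (MvPolynomial σ K) M] (e : M →ₗ[K] M)
    (he : ∀ g, ∀ m ∈ 𝓜 g, e m ∈ 𝓜 (g + (0, 2))) (m : M) : ∃ N : ℕ, (e ^ N) m = 0 := by
  classical
  obtain ⟨B, hB⟩ := Pool.Agent.Lib.MP_745d3a_ag.bounded_below (K := K) (ω := fun i => ((1 : ℤ), w i)) (𝓜 := 𝓜)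
    ((∑ i, |w i|) • AddMonoidHom.fst ℤ ℤ - AddMonoidHom.snd ℤ ℤ) (by
      intro i
      have h1 : |w i| ≤ ∑ j, |w j| :=
        Finset.single_le_sum (fun j _ => abs_nonneg (w j)) (Finset.mem_univ i)
      have h2 := le_abs_self (w i)
      simp only [AddMonoidHom.sub_apply, AddMonoidHom.smul_apply, AddMonoidHom.coe_fst,
        AddMonoidHom.coe_snd, smul_eq_mul, mul_one]
      linarith)
  have hpow : ∀ (N : ℕ) (d u : ℤ), ∀ m ∈ 𝓜 (d, u), (e ^ N) m ∈ 𝓜 (d, u + 2 * N) := by
    intro N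
    induction N with
    | zero =>
      intro d u m hm
      simpa using hm
    | succ N ih =>
      intro d u m hm
      have h1 := he _ _ (ih d u m hm)
      rw [pow_succ', Module.End.mul_apply]
      have h2 : ((d, u + 2 * (N : ℤ)) : ℤ × ℤ) + (0, 2) = (d, u + 2 * ((N + 1 : ℕ) : ℤ)) := by
        ext
        · simp
        · simp; ring
      rw [h2] at h1
      exact h1
  have hmono : ∀ (m : M) (N N' : ℕ), N ≤ N' → (e ^ N) m = 0 → (e ^ N') m = 0 := by
    intro m N N' h h0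
    obtain ⟨t, rfl⟩ := Nat.exists_eq_add_of_le h
    rw [add_comm, pow_add, Module.End.mul_apply, h0, map_zero]
  refine hom_induction 𝓜 (P := fun m => ∃ N : ℕ, (e ^ N) m = 0) ?_ ?_ ?_ m
  · exact ⟨0, by simp⟩
  · rintro ⟨d, u⟩ m hm
    refine ⟨((∑ i, |w i|) * d - u - B + 1).toNat, ?_⟩
    by_contra hne
    have h1 := hB _ _ (hpow _ d u m hm) hne
    simp only [AddMonoidHom.sub_apply, AddMonoidHom.smul_apply, AddMonoidHom.coe_fst,
      AddMonoidHom.coe_snd, smul_eq_mul] at h1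
    generalize (∑ i, |w i|) * d = z at h1
    omega
  · rintro m n ⟨N, hN⟩ ⟨N', hN'⟩
    refine ⟨max N N', ?_⟩
    rw [map_add, hmono m N _ (le_max_left _ _) hN, hmono n N' _ (le_max_right _ _) hN', add_zero]

/-- The frame at the vertex `v` of smallest weight. As in MainTwo.lean
lines 40-60: `exists_LB (vp K v) (hfree ...) hrank`, `LB.homogeneous`, `XB_of_LB` with
`hvert : weight ω e = n • ω v → e = single v n` (first coordinates: `∑ e i = n`; second:
`∑ e i * w i = n * w v`; so `∑ e i * (w i - w v) = 0` and all terms are `≥ 0`). This gives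
`m₁ ∈ 𝓜 (d₁, u₁)`, `m₂ ∈ 𝓜 (d₂, u₂)` with `XB v m₁ m₂`. Multiply one of them by a power of `X v` so
that the degrees `d₁, d₂` become equal (an `XB` stays an `XB`: `ind` is clear, and
`X v ^ (n + s) • m = X v ^ s • (a m₁ + b m₂) = a • (X v ^ s m₁) + (X v ^ s * b) • m₂`). The uniform
exponent `k`: maximum over a finite set of generators of `M` (as in `bun_of_reflexive`,
PFFin.lean). -/
lemma graded_frame [Module.Finite (MvPolynomial σ K) M]
    (hrank : Module.finrank (MvPolynomial σ K) M = 2) (v : σ) (hv : ∀ i, i ≠ v → w v < w i)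
    (hfree : Module.Free (Localization.AtPrime (vp K v)) (LocalizedModule (vp K v).primeCompl M))
    (ε η : M →ₗ[K] M) (hε : ∀ d u, ∀ m ∈ 𝓜 (d, u), ε m = (d : K) • m)
    (hη : ∀ d u, ∀ m ∈ 𝓜 (d, u), η m = (u : K) • m) :
    ∃ (μ₁ μ₂ : M) (k : ℕ) (d u₁ u₂ : ℤ),
      BFrame (X v : MvPolynomial σ K) ε η μ₁ μ₂ k d u₁ u₂ := by
  classical
  obtain ⟨n1, n2, h1⟩ := Pool.Agent.Lib.MP_745d3a_ag.exists_LB (vp K v) hfree hrank
  obtain ⟨⟨d₁, u₁⟩, ⟨d₂, u₂⟩, m1, hm1, m2, hm2, h2⟩ := h1.homogeneous 𝓜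
  have hvert : ∀ (e : σ →₀ ℕ) (n : ℕ),
      Finsupp.weight (fun i => ((1 : ℤ), w i)) e = n • (fun i => ((1 : ℤ), w i)) v →
      e = Finsupp.single v n := by
    intro e n h
    rw [Finsupp.weight_apply, Finsupp.sum_fintype _ _ (fun i => by simp)] at h
    have hf : ∑ i, (e i : ℤ) = n := by
      have h3 := congrArg Prod.fst h
      rw [Prod.fst_sum] at h3
      simpa using h3
    have hs : ∑ i, (e i : ℤ) * w i = n * w v := by
      have h3 := congrArg Prod.snd h
      rw [Prod.snd_sum] at h3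
      simpa using h3
    have h0 : ∑ i, (e i : ℤ) * (w i - w v) = 0 := by
      simp only [mul_sub, Finset.sum_sub_distrib, ← Finset.sum_mul, hf, hs, sub_self]
    have hnn : ∀ i ∈ (Finset.univ : Finset σ), 0 ≤ (e i : ℤ) * (w i - w v) := by
      intro i _
      by_cases hi : i = v
      · rw [hi, sub_self, mul_zero]
      · exact mul_nonneg (by positivity) (sub_nonneg.mpr (hv i hi).le)
    have h4 := (Finset.sum_eq_zero_iff_of_nonneg hnn).mp h0
    have h5 : ∀ i, i ≠ v → e i = 0 := by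
      intro i hi
      have h6 := (mul_eq_zero.mp (h4 i (Finset.mem_univ i))).resolve_right
        (sub_pos.mpr (hv i hi)).ne'
      exact_mod_cast h6
    have h7 : (e v : ℤ) = n := by
      have h8 : ∑ i, (e i : ℤ) = (e v : ℤ) :=
        Finset.sum_eq_single v (fun i _ hi => by rw [h5 i hi]; rfl)
          (fun h => absurd (Finset.mem_univ v) h)
      rw [← hf, h8]
    ext i
    by_cases hi : i = v
    · rw [hi, Finsupp.single_eq_same]
      exact_mod_cast h7
    · rw [h5 i hi, Finsupp.single_apply, if_neg (Ne.symm hi)]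
  have H : XB (K := K) v m1 m2 :=
    XB_of_LB (ω := fun i => ((1 : ℤ), w i)) hvert hm1 hm2 h2
  have hmul : ∀ (s : ℕ) (d u : ℤ), ∀ m ∈ 𝓜 (d, u),
      (X v : MvPolynomial σ K) ^ s • m ∈ 𝓜 (s + d, s * w v + u) := by
    intro s d u m hm
    have h3 : IsWeightedHomogeneous (fun i => ((1 : ℤ), w i)) ((X v : MvPolynomial σ K) ^ s)
        (s • ((1 : ℤ), w v)) := (isWeightedHomogeneous_X K _ v).pow s
    have h4 := Pool.Agent.Lib.MP_745d3a_ag.smul_mem' (fun i => ((1 : ℤ), w i)) 𝓜 h3 hm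
    have h5 : s • ((1 : ℤ), w v) + (d, u) = ((s : ℤ) + d, (s : ℤ) * w v + u) := by
      ext <;> simp
    rw [h5] at h4
    exact h4
  obtain ⟨s₁, s₂, hs⟩ : ∃ s₁ s₂ : ℕ, (s₁ : ℤ) + d₁ = s₂ + d₂ :=
    ⟨(d₂ - d₁).toNat, (d₁ - d₂).toNat, by omega⟩
  set μ₁ : M := (X v : MvPolynomial σ K) ^ s₁ • m1 with hμ₁
  set μ₂ : M := (X v : MvPolynomial σ K) ^ s₂ • m2 with hμ₂
  have hXne : ∀ s : ℕ, (X v : MvPolynomial σ K) ^ s ≠ 0 := fun s => pow_ne_zero s (X_ne_zero v)
  have hind : ∀ a b : MvPolynomial σ K, a • μ₁ + b • μ₂ = 0 → a = 0 ∧ b = 0 := by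
    intro a b h
    rw [hμ₁, hμ₂, smul_smul, smul_smul] at h
    obtain ⟨h3, h4⟩ := H.ind _ _ h
    exact ⟨(mul_eq_zero.mp h3).resolve_right (hXne s₁), (mul_eq_zero.mp h4).resolve_right (hXne s₂)⟩
  have hspan : ∀ m : M, ∃ (n : ℕ), (X v : MvPolynomial σ K) ^ n • m ∈
      Submodule.span (MvPolynomial σ K) {μ₁, μ₂} := by
    intro m
    obtain ⟨n, a, b, hab⟩ := H.span m
    refine ⟨s₁ + s₂ + n, ?_⟩
    rw [Submodule.mem_span_pair]
    refine ⟨X v ^ s₂ * a, X v ^ s₁ * b, ?_⟩
    rw [pow_add, mul_smul _ _ m, hab, hμ₁, hμ₂, smul_add, smul_smul, smul_smul, smul_smul, smul_smul]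
    congr 2 <;> ring
  obtain ⟨G, hG⟩ := Module.Finite.fg_top (R := MvPolynomial σ K) (M := M)
  choose N hN using hspan
  have hall : ∀ m : M, (X v : MvPolynomial σ K) ^ (∑ g ∈ G, N g) • m ∈
      Submodule.span (MvPolynomial σ K) {μ₁, μ₂} := by
    intro m
    have hm : m ∈ Submodule.span (MvPolynomial σ K) (G : Set M) := by rw [hG]; trivial
    induction hm using Submodule.span_induction with
    | mem g hg =>
      rw [← Finset.sum_erase_add G N (by exact hg), pow_add, mul_smul]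
      exact Submodule.smul_mem _ _ (hN g)
    | zero => rw [smul_zero]; exact Submodule.zero_mem _
    | add m n _ _ hm hn => rw [smul_add]; exact Submodule.add_mem _ hm hn
    | smul a m _ hm => rw [smul_comm]; exact Submodule.smul_mem _ _ hm
  refine ⟨μ₁, μ₂, ∑ g ∈ G, N g, s₁ + d₁, s₁ * w v + u₁, s₂ * w v + u₂, ⟨hind, ?_⟩, ?_, ?_, ?_, ?_⟩
  · intro m
    obtain ⟨a, b, hab⟩ := Submodule.mem_span_pair.mp (hall m)
    exact ⟨a, b, hab.symm⟩
  · exact hε _ _ _ (hmul s₁ d₁ u₁ m1 hm1)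
  · rw [hs]
    exact hε _ _ _ (hmul s₂ d₂ u₂ m2 hm2)
  · exact hη _ _ _ (hmul s₁ d₁ u₁ m1 hm1)
  · exact hη _ _ _ (hmul s₂ d₂ u₂ m2 hm2)

end Pool.Agent.Lib.MP_745d3a_ag.PF
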