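import Pool.Agent.Lib.MP_745d3a_ag.BS.Gr2

/-!
The representations of dimension 3 + 1 + 1, 2 + 2 + 1, 2 + 1 + 1 + 1.
-/

set_option autoImplicit false

namespace Pool.Agent.Lib.MP_745d3a_ag.PF

variable {K S M : Type*} [Field K] [CharZero K] [IsAlgClosed K] [CommRing S] [Algebra K S]
  [AddCommGroup M] [Module K M] [Module S M] [IsScalarTower K S M] {x : Fin 5 → S}
  {w : Fin 5 → ℤ} {E H D : Derivation K S S} {ε η e : M →ₗ[K] M}

/-- The permutation `0, 1, 3, 4, 2`. -/
def perm1 : Fin 5 ≃ Fin 5 where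
  toFun := ![0, 1, 3, 4, 2]
  invFun := ![0, 1, 4, 2, 3]
  left_inv := by decide
  right_inv := by decide

/-- The permutation `0, 2, 1, 3, 4`. -/
def perm2 : Fin 5 ≃ Fin 5 where
  toFun := ![0, 2, 1, 3, 4]
  invFun := ![0, 2, 1, 3, 4]
  left_inv := by decide
  right_inv := by decide

omit [CharZero K] [IsAlgClosed K] in
/-- Commuting derivations. -/
lemma der_comm_of_coord {ι : Type*} {x : ι → S} (hx : Coord K x) {E H : Derivation K S S}
    (h : ∀ i, E (H (x i)) = H (E (x i))) (a : S) : E (H a) = H (E a) := by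
  have h1 : ⁅E, H⁆ = 0 := by
    refine hx.der_ext fun i => ?_
    rw [Derivation.commutator_apply, h, sub_self]
    rfl
  have h2 := congrArg (fun Z : Derivation K S S => Z a) h1
  simp only [Derivation.commutator_apply] at h2
  exact sub_eq_zero.mp h2

/-- `final_one` with `D := H`, `δ := η` and the coordinates `x 0, x 1, x 3, x 4, x 2`. -/
theorem case_small1 (h : BSys x w E H D ε η e) (h0 : w 0 = -2) (h1 : w 1 = 0)
    (h2 : w 2 = 2) (h3 : w 3 = 0) (h4 : w 4 = 0) : Gen2 S M := by
  have hsys : Sys (fun i => x (perm1 i)) E H ε η :=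
    { cx := h.cx.perm perm1
      eu := fun i => h.eu _
      ED := der_comm_of_coord h.cx fun i => by
        rw [h.wt, Derivation.map_smul, h.eu, h.wt]
      cE := h.cE
      dg := h.dE
      cD := h.cH
      comm := h.comm
      bun := h.bun.perm perm1 }
  refine final_one hsys (-2) 2 (fun _ => 0) (by norm_num) ?_ ?_ ?_ ?_ ?_
  · show H (x 2) = (2 : K) • x 2
    rw [h.wt, h2]; norm_num
  · show H (x 0) = (-2 : K) • x 0 + (0 : K) • x 2
    rw [h.wt, h0, zero_smul, add_zero]; norm_num
  · show H (x 1) = (0 : K) • x 2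
    rw [h.wt, h1, zero_smul]; norm_num
  · show H (x 3) = (0 : K) • x 2
    rw [h.wt, h3, zero_smul]; norm_num
  · show H (x 4) = (0 : K) • x 2
    rw [h.wt, h4, zero_smul]; norm_num

/-- `final_three` with the coordinates `x 0, x 2, x 1, x 3, x 4`. -/
theorem case_small2 (h : BSys x w E H D ε η e) (hD0 : D (x 0) = x 1) (hD1 : D (x 1) = 0)
    (hD2 : D (x 2) = x 3) (hD3 : D (x 3) = 0) (hD4 : D (x 4) = 0) : Gen2 S M := by
  have hsys : Sys (fun i => x (perm2 i)) E D ε e :=
    { cx := h.cx.perm perm2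
      eu := fun i => h.eu _
      ED := h.ED
      cE := h.cE
      dg := h.dE
      cD := h.cD
      comm := h.degE
      bun := h.bun.perm perm2 }
  exact final_three hsys hD0 hD2 hD1 hD3 hD4

/-- `final_two`. -/
theorem case_small3 (h : BSys x w E H D ε η e) (hD0 : D (x 0) = x 1) (hD1 : D (x 1) = 0)
    (hD2 : D (x 2) = 0) (hD3 : D (x 3) = 0) (hD4 : D (x 4) = 0) : Gen2 S M := by
  have hsys : Sys x E D ε e :=
    { cx := h.cx
      eu := h.eu
      ED := h.ED
      cE := h.cE
      dg := h.dE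
      cD := h.cD
      comm := h.degE
      bun := h.bun }
  exact final_two hsys hD0 hD1 hD2 hD3 hD4

end Pool.Agent.Lib.MP_745d3a_ag.PF
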