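import Pool.Agent.Lib.MP_745d3a_ag.BS.CaseA
import Pool.Agent.Lib.MP_745d3a_ag.BS.CaseB
import Pool.Agent.Lib.MP_745d3a_ag.BS.Gr
import Pool.Agent.Lib.MP_745d3a_ag.BS.Gr2
import Pool.Agent.Lib.MP_745d3a_ag.BS.Small

/-!
Assembly.
-/

set_option autoImplicit false

open MvPolynomial

namespace Pool.Agent.Lib.MP_745d3a_ag.PF

open Pool.Agent.Lib.MP_745d3a_ag (hom_induction)

/-- The six cases, for coordinates `x` of weights `w` and the derivation `D`. -/
def SixCases {K S : Type*} [Field K] [CommRing S] [Algebra K S] (x : Fin 5 → S) (w : Fin 5 → ℤ)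
    (D : Derivation K S S) : Prop :=
  ((w 0 = -4 ∧ w 1 = -2 ∧ w 2 = 0 ∧ w 3 = 2 ∧ w 4 = 4) ∧
    D (x 0) = x 1 ∧ D (x 1) = (2 : K) • x 2) ∨
  ((w 0 = -3 ∧ w 1 = -1 ∧ w 2 = 1 ∧ w 3 = 3 ∧ w 4 = 0) ∧
    D (x 0) = x 1 ∧ D (x 1) = (2 : K) • x 2) ∨
  ((w 0 = -2 ∧ w 1 = 0 ∧ w 2 = 2 ∧ w 3 = -1 ∧ w 4 = 1) ∧
    D (x 0) = x 1 ∧ D (x 1) = (2 : K) • x 2 ∧ D (x 2) = 0 ∧ D (x 3) = x 4 ∧ D (x 4) = 0) ∨
  (w 0 = -2 ∧ w 1 = 0 ∧ w 2 = 2 ∧ w 3 = 0 ∧ w 4 = 0) ∨
  (D (x 0) = x 1 ∧ D (x 1) = 0 ∧ D (x 2) = x 3 ∧ D (x 3) = 0 ∧ D (x 4) = 0) ∨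
  (D (x 0) = x 1 ∧ D (x 1) = 0 ∧ D (x 2) = 0 ∧ D (x 3) = 0 ∧ D (x 4) = 0)

theorem main_cases {K : Type*} [Field K] [CharZero K] [IsAlgClosed K] {σ : Type*} [Fintype σ]
    [DecidableEq σ] (φ : Fin 5 ≃ σ)
    (M : Type*) [AddCommGroup M] [Module (MvPolynomial σ K) M]
    [Module.Finite (MvPolynomial σ K) M] [Module.IsReflexive (MvPolynomial σ K) M]
    (hrank : Module.finrank (MvPolynomial σ K) M = 2)
    (hfree : ∀ (p : Ideal (MvPolynomial σ K)) [p.IsPrime],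
      (∃ i, (X i : MvPolynomial σ K) ∉ p) →
        Module.Free (Localization.AtPrime p) (LocalizedModule p.primeCompl M))
    (w : σ → ℤ) (𝓜 : ℤ × ℤ → AddSubgroup M) [DirectSum.Decomposition 𝓜]
    [SetLike.GradedSMul (weightedHomogeneousSubmodule K (fun i => ((1 : ℤ), w i))) 𝓜]
    (D : Derivation K (MvPolynomial σ K) (MvPolynomial σ K))
    (hDE : ∀ i, (mkDerivation K (X : σ → MvPolynomial σ K)) (D (X i)) = D (X i))
    (e : M →+ M) (he : ∀ (a : MvPolynomial σ K) (m : M), e (a • m) = D a • m + a • e m)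
    (hdeg : ∀ d u, ∀ m ∈ 𝓜 (d, u), e m ∈ 𝓜 (d, u + 2))
    (hcase : SixCases (fun i => (X (φ i) : MvPolynomial σ K)) (fun i => w (φ i)) D) :
    ∃ (b : Module.Basis (Fin 2) (MvPolynomial σ K) M) (g : Fin 2 → ℤ × ℤ),
      ∀ k, b k ∈ 𝓜 (g k) := by
  classical
  have : Nonempty σ := ⟨φ 0⟩
  letI _j : Module K M := Module.compHom M (algebraMap K (MvPolynomial σ K))
  have _i : IsScalarTower K (MvPolynomial σ K) M := ⟨fun a p m => by
    rw [Algebra.smul_def, mul_smul]; rfl⟩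
  have hbun : Bun (X : σ → MvPolynomial σ K) M := bun_X hrank hfree
  refine hom_basis_of_gen2 hrank hbun ?_ w 𝓜
  obtain ⟨ε, hε, hdε, hcε⟩ := exists_gradOp₂ (K := K) (w := w) 𝓜 (AddMonoidHom.fst ℤ ℤ)
  obtain ⟨η, hη, hdη, hcη⟩ := exists_gradOp₂ (K := K) (w := w) 𝓜 (AddMonoidHom.snd ℤ ℤ)
  let E : Derivation K (MvPolynomial σ K) (MvPolynomial σ K) := mkDerivation K X
  have hE : ∀ i, E (X i) = X i := fun i => mkDerivation_X K _ i
  let H : Derivation K (MvPolynomial σ K) (MvPolynomial σ K) :=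
    mkDerivation K (fun i => (w i : K) • (X i : MvPolynomial σ K))
  have hH : ∀ i, H (X i) = (w i : K) • X i := fun i => mkDerivation_X K _ i
  have hcE : IsConn E ε := hcε E (fun i => by
    rw [hE]
    show _ = (((1 : ℤ) : ℤ) : K) • _
    rw [Int.cast_one, one_smul])
  have hcH : IsConn H η := hcη H hH
  -- the `K`-linear operator
  let e₀ : M →ₗ[K] M :=
    { e with
      map_smul' := fun k m => by
        show e (k • m) = k • e m
        have h1 : k • m = (algebraMap K (MvPolynomial σ K) k) • m := rfl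
        rw [h1, he, Derivation.map_algebraMap, zero_smul, zero_add]
        rfl }
  have he₀ : ∀ m, e₀ m = e m := fun _ => rfl
  have hx : Coord K (fun i => (X (φ i) : MvPolynomial σ K)) := coord_X φ
  have hdeg' : ∀ g, ∀ m ∈ 𝓜 g, e₀ m ∈ 𝓜 (g + (0, 2)) := by
    rintro ⟨d, u⟩ m hm
    have := hdeg d u m hm
    rw [he₀]
    simpa using this
  have hε' : ∀ d u, ∀ m ∈ 𝓜 (d, u), ε m = (d : K) • m := fun d u m hm => hε (d, u) m hm
  have hη' : ∀ d u, ∀ m ∈ 𝓜 (d, u), η m = (u : K) • m := fun d u m hm => hη (d, u) m hm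
  have hsmul : ∀ (c : K) (g : ℤ × ℤ), ∀ m ∈ 𝓜 g, c • m ∈ 𝓜 g := by
    intro c g m hm
    have h1 : (C c : MvPolynomial σ K) ∈
        weightedHomogeneousSubmodule K (fun i => ((1 : ℤ), w i)) 0 := by
      rw [mem_weightedHomogeneousSubmodule]
      exact isWeightedHomogeneous_C _ c
    have h2 : (C c : MvPolynomial σ K) • m ∈ 𝓜 ((0 : ℤ × ℤ) +ᵥ g) :=
      SetLike.GradedSMul.smul_mem h1 hm
    rw [zero_vadd] at h2
    exact h2
  have hsys : BSys (fun i => (X (φ i) : MvPolynomial σ K)) (fun i => w (φ i)) E H D ε η e₀ :=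
    { cx := hx
      eu := fun i => hE _
      wt := fun i => hH _
      cE := hcE
      dE := hdε
      cH := hcH
      dH := hdη
      comm := by
        intro m
        refine hom_induction 𝓜 (P := fun m => ε (η m) = η (ε m)) ?_ ?_ ?_ m
        · simp
        · rintro ⟨d, u⟩ m hm
          rw [hε' d u m hm, hη' d u m hm, map_smul, map_smul, hε' d u m hm, hη' d u m hm,
            smul_comm]
        · intro m n hm hn
          rw [map_add, map_add, hm, hn, map_add, map_add]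
      cD := fun a m => he a m
      degE := by
        intro m
        refine hom_induction 𝓜 (P := fun m => ε (e₀ m) = e₀ (ε m)) ?_ ?_ ?_ m
        · simp
        · rintro ⟨d, u⟩ m hm
          have h1 := hε' d (u + 2) _ (hdeg d u m hm)
          rw [hε' d u m hm, map_smul]
          exact h1
        · intro m n hm hn
          rw [map_add, map_add, hm, hn, map_add, map_add]
      degH := by
        intro m
        refine hom_induction 𝓜 (P := fun m => η (e₀ m) = e₀ (η m) + (2 : K) • e₀ m) ?_ ?_ ?_ m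
        · simp
        · rintro ⟨d, u⟩ m hm
          have h1 := hη' d (u + 2) _ (hdeg d u m hm)
          rw [hη' d u m hm, map_smul, he₀, h1, Int.cast_add, add_smul]
          norm_num
        · intro m n hm hn
          rw [map_add, map_add, hm, hn, map_add, map_add, smul_add]
          abel
      ED := der_comm_of_coord hx fun i => by
        show E (D (X (φ i))) = D (E (X (φ i)))
        rw [hE]
        exact hDE _
      nil := graded_nil (w := w) 𝓜 e₀ hdeg'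
      bun := hbun.perm φ }
  have hframe : ∀ i : Fin 5, (∀ j, j ≠ i → w (φ i) < w (φ j)) → ∃ (μ₁ μ₂ : M) (k : ℕ)
      (d u₁ u₂ : ℤ), BFrame (X (φ i) : MvPolynomial σ K) ε η μ₁ μ₂ k d u₁ u₂ := by
    intro i hi
    refine graded_frame (w := w) 𝓜 hrank (φ i) ?_
      (hfree _ ⟨φ i, Pool.Agent.Lib.MP_745d3a_ag.X_notMem_vp (φ i)⟩) ε η hε' hη'
    intro s hs
    obtain ⟨j, rfl⟩ := φ.surjective s
    exact hi j (fun h => hs (by rw [h]))
  rcases hcase with ⟨⟨h0, h1, h2, h3, h4⟩, hD0, hD1⟩ | ⟨⟨h0, h1, h2, h3, h4⟩, hD0, hD1⟩ |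
    ⟨⟨h0, h1, h2, h3, h4⟩, hD0, hD1, hD2, hD3, hD4⟩ | ⟨h0, h1, h2, h3, h4⟩ |
    ⟨hD0, hD1, hD2, hD3, hD4⟩ | ⟨hD0, hD1, hD2, hD3, hD4⟩
  · obtain ⟨μ₁, μ₂, k, d, u₁, u₂, hF⟩ := hframe 0 (by
      intro j hj
      simp only at h0 h1 h2 h3 h4
      fin_cases j
      · exact absurd rfl hj
      · show w (φ 0) < w (φ 1); omega
      · show w (φ 0) < w (φ 2); omega
      · show w (φ 0) < w (φ 3); omega
      · show w (φ 0) < w (φ 4); omega)
    exact case_five hsys h0 h1 h2 h3 h4 hD0 hD1 hF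
  · obtain ⟨μ₁, μ₂, k, d, u₁, u₂, hF⟩ := hframe 0 (by
      intro j hj
      simp only at h0 h1 h2 h3 h4
      fin_cases j
      · exact absurd rfl hj
      · show w (φ 0) < w (φ 1); omega
      · show w (φ 0) < w (φ 2); omega
      · show w (φ 0) < w (φ 3); omega
      · show w (φ 0) < w (φ 4); omega)
    exact case_four hsys h0 h1 h2 h3 h4 hD0 hD1 hF
  · obtain ⟨μ₁, μ₂, k, d, u₁, u₂, hF⟩ := hframe 0 (by
      intro j hj
      simp only at h0 h1 h2 h3 h4
      fin_cases j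
      · exact absurd rfl hj
      · show w (φ 0) < w (φ 1); omega
      · show w (φ 0) < w (φ 2); omega
      · show w (φ 0) < w (φ 3); omega
      · show w (φ 0) < w (φ 4); omega)
    exact case_three hsys h0 h1 h2 h3 h4 hD0 hD1 hD2 hD3 hD4 hF
  · exact case_small1 hsys h0 h1 h2 h3 h4
  · exact case_small2 hsys hD0 hD1 hD2 hD3 hD4
  · exact case_small3 hsys hD0 hD1 hD2 hD3 hD4

end Pool.Agent.Lib.MP_745d3a_ag.PF
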