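import Pool.Agent.Lib.MP_745d3a_ag.BS.Form

/-!
The matrix of the raising operator in a frame.
-/

set_option autoImplicit false

namespace Pool.Agent.Lib.MP_745d3a_ag.PF

variable {K S ι M : Type*} [Field K] [CharZero K] [CommRing S] [Algebra K S] [AddCommGroup M]
  [Module K M] [Module S M] [IsScalarTower K S M] {x : ι → S} {w : ι → ℤ}
  {E H D : Derivation K S S} {ε η e : M →ₗ[K] M}

omit [CharZero K] in
private lemma b10a_aux {T : Derivation K S S} {τ : M →ₗ[K] M} (hT : IsConn T τ) {μ₁ μ₂ : M}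
    (ind : ∀ a b : S, a • μ₁ + b • μ₂ = 0 → a = 0 ∧ b = 0) {t₁ t₂ s c : K} {y a b : S} {n : M}
    (hy : T y = s • y) (hn : τ n = c • n) (h₁ : τ μ₁ = t₁ • μ₁) (h₂ : τ μ₂ = t₂ • μ₂)
    (heq : y • n = a • μ₁ + b • μ₂) : T a = (s + c - t₁) • a ∧ T b = (s + c - t₂) • b := by
  have e1 : τ (y • n) = (s + c) • (a • μ₁ + b • μ₂) := by
    rw [hT, hy, hn, smul_assoc, smul_comm y c, heq, add_smul]
  have e2 : τ (y • n) = (T a + t₁ • a) • μ₁ + (T b + t₂ • b) • μ₂ := by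
    rw [heq, map_add, hT, hT, h₁, h₂, smul_comm a t₁, smul_comm b t₂, add_smul, add_smul,
      smul_assoc, smul_assoc]
  have e3 : (T a + t₁ • a - (s + c) • a) • μ₁ + (T b + t₂ • b - (s + c) • b) • μ₂ = 0 := by
    have e4 : (s + c) • (a • μ₁ + b • μ₂) = ((s + c) • a) • μ₁ + ((s + c) • b) • μ₂ := by
      rw [smul_add, smul_assoc, smul_assoc]
    rw [sub_smul, sub_smul]
    have e5 : (T a + t₁ • a) • μ₁ + (T b + t₂ • b) • μ₂ =
        ((s + c) • a) • μ₁ + ((s + c) • b) • μ₂ := by rw [← e2, e1, e4]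
    calc (T a + t₁ • a) • μ₁ - ((s + c) • a) • μ₁ + ((T b + t₂ • b) • μ₂ - ((s + c) • b) • μ₂)
        = ((T a + t₁ • a) • μ₁ + (T b + t₂ • b) • μ₂) -
          (((s + c) • a) • μ₁ + ((s + c) • b) • μ₂) := by abel
      _ = 0 := by rw [e5, sub_self]
  obtain ⟨h3, h4⟩ := ind _ _ e3
  constructor
  · rw [sub_smul, ← sub_eq_zero, ← h3]; abel
  · rw [sub_smul, ← sub_eq_zero, ← h4]; abel

omit [CharZero K] in
private lemma b10a_pow (T : Derivation K S S) {y : S} {s : K} (hy : T y = s • y) (k : ℕ) :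
    T (y ^ k) = ((k : K) * s) • y ^ k := by
  induction k with
  | zero => rw [pow_zero, Nat.cast_zero, zero_mul, zero_smul, Derivation.map_one_eq_zero]
  | succ k ih =>
    rw [pow_succ, Derivation.leibniz, ih, hy, Nat.cast_succ, add_mul, one_mul, add_smul]
    simp only [smul_eq_mul, Algebra.smul_def]
    ring

/-- The four entries exist by `hF.fr.span`. Degrees: apply `ε` to
`x o ^ k e μ₁ = a₁ μ₁ + b₁ μ₂`: the left side becomes `(k + d)` times itself (`h.cE`,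
`E (x o ^ k) = k x o ^ k`, `h.degE`, `hF.e₁`), the right side `(E a₁ + d a₁) μ₁ + (E b₁ + d b₁) μ₂`;
compare coefficients (`hF.fr.ind`). Weights: apply `η` (`h.cH`, `H (x o ^ k) = k w_o x o ^ k`,
`h.degH`: `η (e μ₁) = (u₁ + 2) e μ₁`). -/
lemma BFrame.mat (h : BSys x w E H D ε η e) {o : ι} {μ₁ μ₂ : M} {k : ℕ} {d u₁ u₂ : ℤ}
    (hF : BFrame (x o) ε η μ₁ μ₂ k d u₁ u₂) :
    ∃ a₁ b₁ a₂ b₂ : S, (x o ^ k • e μ₁ = a₁ • μ₁ + b₁ • μ₂ ∧ x o ^ k • e μ₂ = a₂ • μ₁ + b₂ • μ₂) ∧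
      (E a₁ = (k : K) • a₁ ∧ E b₁ = (k : K) • b₁ ∧ E a₂ = (k : K) • a₂ ∧ E b₂ = (k : K) • b₂) ∧
      H a₁ = ((k * w o + 2 : ℤ) : K) • a₁ ∧ H b₁ = ((k * w o + (2 + (u₁ - u₂)) : ℤ) : K) • b₁ ∧
      H a₂ = ((k * w o + (2 - (u₁ - u₂)) : ℤ) : K) • a₂ ∧
      H b₂ = ((k * w o + 2 : ℤ) : K) • b₂ := by
  obtain ⟨a₁, b₁, he₁⟩ := hF.fr.span (e μ₁)
  obtain ⟨a₂, b₂, he₂⟩ := hF.fr.span (e μ₂)
  have hEy : E (x o ^ k) = ((k : K) * 1) • x o ^ k :=
    b10a_pow E (by rw [one_smul]; exact h.eu o) k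
  have hHy : H (x o ^ k) = ((k : K) * (w o : K)) • x o ^ k := b10a_pow H (h.wt o) k
  have n1 : ε (e μ₁) = (d : K) • e μ₁ := by rw [h.degE, hF.e₁, map_smul]
  have n2 : ε (e μ₂) = (d : K) • e μ₂ := by rw [h.degE, hF.e₂, map_smul]
  have n3 : η (e μ₁) = ((u₁ : K) + 2) • e μ₁ := by rw [h.degH, hF.h₁, map_smul, add_smul]
  have n4 : η (e μ₂) = ((u₂ : K) + 2) • e μ₂ := by rw [h.degH, hF.h₂, map_smul, add_smul]
  obtain ⟨p1, p2⟩ := b10a_aux h.cE hF.fr.ind hEy n1 hF.e₁ hF.e₂ he₁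
  obtain ⟨p3, p4⟩ := b10a_aux h.cE hF.fr.ind hEy n2 hF.e₁ hF.e₂ he₂
  obtain ⟨q1, q2⟩ := b10a_aux h.cH hF.fr.ind hHy n3 hF.h₁ hF.h₂ he₁
  obtain ⟨q3, q4⟩ := b10a_aux h.cH hF.fr.ind hHy n4 hF.h₁ hF.h₂ he₂
  refine ⟨a₁, b₁, a₂, b₂, ⟨he₁, he₂⟩, ⟨?_, ?_, ?_, ?_⟩, ?_, ?_, ?_, ?_⟩
  · rw [p1]; congr 1; ring
  · rw [p2]; congr 1; ring
  · rw [p3]; congr 1; ring
  · rw [p4]; congr 1; ring
  · rw [q1]; congr 1; push_cast; ring
  · rw [q2]; congr 1; push_cast; ring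
  · rw [q3]; congr 1; push_cast; ring
  · rw [q4]; congr 1; push_cast; ring

/-- Enlarging the exponent of a frame. -/
lemma BFrame.mono {o : ι} {μ₁ μ₂ : M} {k : ℕ} {d u₁ u₂ : ℤ}
    (hF : BFrame (x o) ε η μ₁ μ₂ k d u₁ u₂) (l : ℕ) :
    BFrame (x o) ε η μ₁ μ₂ (k + l) d u₁ u₂ := by
  refine ⟨⟨hF.fr.ind, fun m => ?_⟩, hF.e₁, hF.e₂, hF.h₁, hF.h₂⟩
  obtain ⟨a, b, hab⟩ := hF.fr.span m
  refine ⟨x o ^ l * a, x o ^ l * b, ?_⟩
  rw [add_comm k l, pow_add, mul_smul, hab, smul_add, mul_smul, mul_smul]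

/-- `M ≠ 0` (`μ₁ ≠ 0`), and `e` is locally nilpotent (`h.nil`), so there is
`z ≠ 0` with `e z = 0` (`Nat.find` for the vector `μ₁`). Write `x o ^ k z = g₁ μ₁ + g₂ μ₂`;
`(g₁, g₂) ≠ 0` (`h.bun.tf`, `x o ≠ 0`). For a matrix `x o ^ l e μ_i = a_i μ₁ + b_i μ₂` the equation
`e (x o ^ k z) = D (x o ^ k) z` gives after multiplication by `x o ^ (l + 1)`
(`x₀ D (x₀ ^ k) = k D x₀ x₀ ^ k`):
`x₀ ^ (l+1) D g₁ + x₀ (g₁ a₁ + g₂ a₂) = k x₀ ^ l D x₀ g₁`, and the same for `b`. -/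
lemma BFrame.ker (h : BSys x w E H D ε η e) {o : ι} {μ₁ μ₂ : M} {k : ℕ} {d u₁ u₂ : ℤ}
    (hF : BFrame (x o) ε η μ₁ μ₂ k d u₁ u₂) {l : ℕ} {a₁ b₁ a₂ b₂ : S}
    (he₁ : x o ^ l • e μ₁ = a₁ • μ₁ + b₁ • μ₂) (he₂ : x o ^ l • e μ₂ = a₂ • μ₁ + b₂ • μ₂) :
    ∃ g₁ g₂ : S, (g₁ ≠ 0 ∨ g₂ ≠ 0) ∧
      x o ^ (l + 1) * D g₁ + x o * (g₁ * a₁ + g₂ * a₂) = (k : K) • (x o ^ l * D (x o) * g₁) ∧
      x o ^ (l + 1) * D g₂ + x o * (g₁ * b₁ + g₂ * b₂) = (k : K) • (x o ^ l * D (x o) * g₂) := by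
  classical
  have hdom : IsDomain S := h.cx.isDomain
  have hμ : μ₁ ≠ 0 := by
    intro h0
    have := (hF.fr.ind 1 0 (by rw [h0, smul_zero, zero_smul, add_zero])).1
    exact one_ne_zero this
  have hex : ∃ z : M, z ≠ 0 ∧ e z = 0 := by
    have hN := h.nil μ₁
    have hN0 : Nat.find hN ≠ 0 := by
      intro h0
      have h1 := Nat.find_spec hN
      rw [h0, pow_zero] at h1
      exact hμ h1
    obtain ⟨n, hn⟩ := Nat.exists_eq_succ_of_ne_zero hN0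
    refine ⟨(e ^ n) μ₁, ?_, ?_⟩
    · exact Nat.find_min hN (by omega)
    · have h1 := Nat.find_spec hN
      rw [hn, Nat.succ_eq_add_one, pow_succ', Module.End.mul_apply] at h1
      exact h1
  obtain ⟨z, hz, hez⟩ := hex
  obtain ⟨g₁, g₂, hg⟩ := hF.fr.span z
  have hxo : x o ≠ 0 := (h.cx.prime_x o).ne_zero
  refine ⟨g₁, g₂, ?_, ?_⟩
  · by_contra hno
    push Not at hno
    rw [hno.1, hno.2, zero_smul, zero_smul, add_zero] at hg
    rcases h.bun.tf _ _ hg with h1 | h1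
    · exact pow_ne_zero k hxo h1
    · exact hz h1
  · have hDx : x o * D (x o ^ k) = (k : K) • (x o ^ k * D (x o)) := by
      rw [Derivation.leibniz_pow]
      rcases Nat.eq_zero_or_pos k with h0 | h0
      · rw [h0]; simp
      · have h1 : x o ^ k = x o * x o ^ (k - 1) := by
          rw [← pow_succ']; congr 1; omega
        rw [h1, nsmul_eq_mul, smul_eq_mul, Algebra.smul_def, map_natCast]
        ring
    have e1 : x o ^ (l + 1) • e (x o ^ k • z) =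
        ((k : K) • (x o ^ l * D (x o) * g₁)) • μ₁ + ((k : K) • (x o ^ l * D (x o) * g₂)) • μ₂ := by
      rw [h.cD, hez, smul_zero, add_zero, ← mul_smul, pow_succ, mul_assoc, hDx]
      have h1 : x o ^ l * (k : K) • (x o ^ k * D (x o)) =
          ((k : K) • (x o ^ l * D (x o))) * x o ^ k := by
        simp only [Algebra.smul_def]
        ring
      rw [h1, mul_smul, hg, smul_add, ← mul_smul, ← mul_smul, smul_mul_assoc, smul_mul_assoc]
    have e2 : x o ^ (l + 1) • e (x o ^ k • z) =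
        (x o ^ (l + 1) * D g₁ + x o * (g₁ * a₁ + g₂ * a₂)) • μ₁ +
        (x o ^ (l + 1) * D g₂ + x o * (g₁ * b₁ + g₂ * b₂)) • μ₂ := by
      rw [hg, map_add, h.cD, h.cD, smul_add, smul_add, smul_add]
      have h1 : x o ^ (l + 1) • g₁ • e μ₁ = (x o * g₁) • (a₁ • μ₁ + b₁ • μ₂) := by
        rw [← he₁, ← mul_smul, ← mul_smul]; congr 1; ring
      have h2 : x o ^ (l + 1) • g₂ • e μ₂ = (x o * g₂) • (a₂ • μ₁ + b₂ • μ₂) := by
        rw [← he₂, ← mul_smul, ← mul_smul]; congr 1; ring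
      rw [h1, h2]
      module
    have e3 := e2.symm.trans e1
    have e4 : ((x o ^ (l + 1) * D g₁ + x o * (g₁ * a₁ + g₂ * a₂)) -
        (k : K) • (x o ^ l * D (x o) * g₁)) • μ₁ +
        ((x o ^ (l + 1) * D g₂ + x o * (g₁ * b₁ + g₂ * b₂)) -
        (k : K) • (x o ^ l * D (x o) * g₂)) • μ₂ = 0 := by
      rw [sub_smul, sub_smul]
      calc _ = ((x o ^ (l + 1) * D g₁ + x o * (g₁ * a₁ + g₂ * a₂)) • μ₁ +
        (x o ^ (l + 1) * D g₂ + x o * (g₁ * b₁ + g₂ * b₂)) • μ₂) -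
        (((k : K) • (x o ^ l * D (x o) * g₁)) • μ₁ +
          ((k : K) • (x o ^ l * D (x o) * g₂)) • μ₂) := by abel
        _ = 0 := by rw [e3, sub_self]
    obtain ⟨h5, h6⟩ := hF.fr.ind _ _ e4
    exact ⟨sub_eq_zero.mp h5, sub_eq_zero.mp h6⟩

/-- An eigenvector of a two by two matrix gives a frame of the same degree
and weight `u` containing the combination: for `p, q : K` not both zero, `p μ₁ + q μ₂` is the
second member of a frame (the first member is `μ₁` if `q ≠ 0`, and `μ₂` if `q = 0`). -/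
lemma BFrame.combine {x₀ : S} {μ₁ μ₂ : M} {k : ℕ} {d u : ℤ}
    (hF : BFrame x₀ ε η μ₁ μ₂ k d u u) (p q : K) (hpq : p ≠ 0 ∨ q ≠ 0) :
    ∃ μ' : M, BFrame x₀ ε η μ' (p • μ₁ + q • μ₂) k d u u := by
  have hs : ∀ (c : K) (m : M), c • m = algebraMap K S c • m := fun c m =>
    (algebraMap_smul S c m).symm
  have key : ∀ (ν₁ ν₂ : M), BFrame x₀ ε η ν₁ ν₂ k d u u → ∀ p q : K, q ≠ 0 →
      BFrame x₀ ε η ν₁ (p • ν₁ + q • ν₂) k d u u := by
    intro ν₁ ν₂ hν p q hq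
    have hq' : algebraMap K S q * algebraMap K S q⁻¹ = 1 := by
      rw [← map_mul, mul_inv_cancel₀ hq, map_one]
    refine ⟨⟨?_, ?_⟩, hν.e₁, ?_, hν.h₁, ?_⟩
    · intro a b hab
      have h1 : (a + b * algebraMap K S p) • ν₁ + (b * algebraMap K S q) • ν₂ = 0 := by
        rw [← hab, hs p, hs q]
        simp only [smul_add, add_smul, mul_smul]
        abel
      obtain ⟨h2, h3⟩ := hν.fr.ind _ _ h1
      have hb : b = 0 := by
        have h4 : b * (algebraMap K S q * algebraMap K S q⁻¹) = 0 := by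
          rw [← mul_assoc, h3, zero_mul]
        rwa [hq', mul_one] at h4
      rw [hb, zero_mul, add_zero] at h2
      exact ⟨h2, hb⟩
    · intro m
      obtain ⟨a, b, hab⟩ := hν.fr.span m
      refine ⟨a - b * algebraMap K S q⁻¹ * algebraMap K S p, b * algebraMap K S q⁻¹, ?_⟩
      rw [hab, hs p, hs q]
      have h1 : b • ν₂ = (b * algebraMap K S q⁻¹) • algebraMap K S q • ν₂ := by
        rw [smul_smul, mul_assoc, mul_comm (algebraMap K S q⁻¹), hq', mul_one]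
      rw [h1]
      simp only [smul_add, sub_smul, mul_smul]
      abel
    · rw [map_add, map_smul, map_smul, hν.e₁, hν.e₂, smul_add, smul_comm p, smul_comm q]
    · rw [map_add, map_smul, map_smul, hν.h₁, hν.h₂, smul_add, smul_comm p, smul_comm q]
  by_cases hq : q = 0
  · have hp : p ≠ 0 := by
      rcases hpq with h | h
      · exact h
      · exact absurd hq h
    refine ⟨μ₂, ?_⟩
    have := key μ₂ μ₁ hF.swap q p hp
    rwa [add_comm] at this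
  · exact ⟨μ₁, key μ₁ μ₂ hF p q hq⟩

end Pool.Agent.Lib.MP_745d3a_ag.PF
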