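import Pool.Agent.Lib.MP_745d3a_ag.BS.Defs

/-!
The radical of a differential ideal is differential (characteristic 0).

Proof. Suppose `a ^ (n + 1) * (D a) ^ m ∈ I`. Applying `D`:
`(n + 1) a ^ n (D a) ^ (m + 1) + m a ^ (n + 1) (D a) ^ (m - 1) D (D a) ∈ I`; multiply by `D a`:
`(n + 1) a ^ n (D a) ^ (m + 2) + m (a ^ (n + 1) (D a) ^ m) D (D a) ∈ I`, the second term is in `I`,
and `n + 1` is invertible in `K`, so `a ^ n * (D a) ^ (m + 2) ∈ I`. By induction on `n`:
`∀ n m, a ^ n * (D a) ^ m ∈ I → (D a) ^ (m + 2 * n) ∈ I`. Start with `a ^ N ∈ I`, `m = 0`.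
-/

set_option autoImplicit false

namespace Pool.Agent.Lib.MP_745d3a_ag.PF

lemma b1_step {K S : Type*} [Field K] [CharZero K] [CommRing S] [Algebra K S]
    {D : Derivation K S S} (I : Ideal S) (hI : ∀ a ∈ I, D a ∈ I) (a : S) (n m : ℕ)
    (h : a ^ (n + 1) * (D a) ^ m ∈ I) : a ^ n * (D a) ^ (m + 2) ∈ I := by
  have h1 := hI _ h
  rw [Derivation.leibniz, Derivation.leibniz_pow, Derivation.leibniz_pow] at h1
  have h2 := I.mul_mem_left (D a) h1
  have h3 : ((n + 1 : ℕ) : K) • (a ^ n * (D a) ^ (m + 2)) ∈ I := by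
    have h4 : ((n + 1 : ℕ) : K) • (a ^ n * (D a) ^ (m + 2)) =
        D a * (a ^ (n + 1) • m • (D a) ^ (m - 1) • D (D a) +
          (D a) ^ m • (n + 1) • a ^ (n + 1 - 1) • D a) -
        (m : S) * D (D a) * (a ^ (n + 1) * (D a) ^ m) := by
      rw [Nat.cast_smul_eq_nsmul, nsmul_eq_mul, nsmul_eq_mul]
      simp only [smul_eq_mul, nsmul_eq_mul, Nat.add_sub_cancel]
      rcases m with _ | m
      · simp
        ring
      · simp only [Nat.add_sub_cancel]
        ring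
    rw [h4]
    exact I.sub_mem h2 (I.mul_mem_left _ h)
  have h5 : ((n + 1 : ℕ) : K)⁻¹ • (((n + 1 : ℕ) : K) • (a ^ n * (D a) ^ (m + 2))) ∈ I := by
    rw [Algebra.smul_def]
    exact I.mul_mem_left _ h3
  rwa [smul_smul, inv_mul_cancel₀ (Nat.cast_ne_zero.2 (Nat.succ_ne_zero n)), one_smul] at h5

lemma b1_all {K S : Type*} [Field K] [CharZero K] [CommRing S] [Algebra K S]
    {D : Derivation K S S} (I : Ideal S) (hI : ∀ a ∈ I, D a ∈ I) (a : S) (n : ℕ) :
    ∀ m, a ^ n * (D a) ^ m ∈ I → (D a) ^ (m + 2 * n) ∈ I := by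
  induction n with
  | zero => intro m h; simpa using h
  | succ n ih =>
    intro m h
    have h1 := ih (m + 2) (b1_step I hI a n m h)
    have h2 : m + 2 + 2 * n = m + 2 * (n + 1) := by ring
    rwa [h2] at h1

lemma rad_der {K S : Type*} [Field K] [CharZero K] [CommRing S] [Algebra K S]
    {D : Derivation K S S} (I : Ideal S) (hI : ∀ a ∈ I, D a ∈ I) (a : S) (ha : a ∈ I.radical) :
    D a ∈ I.radical := by
  obtain ⟨N, hN⟩ := ha
  exact ⟨0 + 2 * N, b1_all I hI a N 0 (by simpa using hN)⟩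

end Pool.Agent.Lib.MP_745d3a_ag.PF
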